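import Pool.Agent.R870.AP.Gap

/-!
# Decomposition of a lacunary relation into blocks without large gaps
-/

set_option autoImplicit false

namespace Pool.Agent.R870.AP

/-- Decomposition into blocks: `f` is the family of the terms, `e` the exponents, `η` the height of
the parameter, `C` the bound for the gaps. -/
theorem blocks {K σ : Type} [Field K] [DecidableEq σ] (f : σ → K) (e : σ → ℤ) (η C : ℝ)
    (hη : 0 ≤ η) (hC : 0 ≤ C) (S : Finset σ)
    (hgap : ∀ F L U : Finset σ, F ⊆ S → F = L ∪ U → Disjoint L U → ∑ i ∈ F, f i = 0 →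
      ∀ p q : ℤ, (∀ i ∈ L, e i ≤ p) → (∀ i ∈ U, q ≤ e i) → p ≤ q → C < ((q - p : ℤ) : ℝ) * η →
        ∑ i ∈ L, f i = 0) :
    ∀ F : Finset σ, F ⊆ S → ∑ i ∈ F, f i = 0 → ∃ lam : σ → ℕ,
      (∀ l, ∑ i ∈ F.filter (fun i => lam i = l), f i = 0) ∧
      ∀ i ∈ F, ∀ j ∈ F, lam i = lam j → (|e i - e j| : ℝ) * η ≤ F.card * C := by
  classical
  intro F
  induction F using Finset.strongInduction with
  | H F ih =>
    intro hFS hF0
    by_cases hcase : ∃ i0 ∈ F, (∃ i ∈ F, e i0 < e i) ∧
        ∀ i ∈ F, e i0 < e i → C < ((e i - e i0 : ℤ) : ℝ) * η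
    · obtain ⟨i0, hi0, ⟨i1, hi1, hi01⟩, hall⟩ := hcase
      let L := F.filter fun i => e i ≤ e i0
      let U := F.filter fun i => ¬ e i ≤ e i0
      have hLU : F = L ∪ U := (Finset.filter_union_filter_not_eq _ F).symm
      have hdis : Disjoint L U := Finset.disjoint_filter_filter_not F F _
      have hUne : U.Nonempty := ⟨i1, Finset.mem_filter.2 ⟨hi1, by omega⟩⟩
      obtain ⟨j, hjU, hj⟩ := Finset.exists_min_image U e hUne
      obtain ⟨hjF, hj2⟩ := Finset.mem_filter.1 hjU
      have hL0 : ∑ i ∈ L, f i = 0 := hgap F L U hFS hLU hdis hF0 (e i0) (e j)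
        (fun i hi => (Finset.mem_filter.1 hi).2) hj (by omega) (hall j hjF (by omega))
      have hU0 : ∑ i ∈ U, f i = 0 := by
        rw [hLU, Finset.sum_union hdis, hL0, zero_add] at hF0
        exact hF0
      have hLF : L ⊂ F := by
        refine Finset.ssubset_iff_subset_ne.2 ⟨Finset.filter_subset _ _, fun h => ?_⟩
        have : i1 ∈ L := by rw [h]; exact hi1
        have := (Finset.mem_filter.1 this).2
        omega
      have hUF : U ⊂ F := by
        refine Finset.ssubset_iff_subset_ne.2 ⟨Finset.filter_subset _ _, fun h => ?_⟩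
        have : i0 ∈ U := by rw [h]; exact hi0
        exact (Finset.mem_filter.1 this).2 le_rfl
      obtain ⟨l1, hl1, hl1'⟩ := ih L hLF (hLF.1.trans hFS) hL0
      obtain ⟨l2, hl2, hl2'⟩ := ih U hUF (hUF.1.trans hFS) hU0
      refine ⟨fun i => if e i ≤ e i0 then 2 * l1 i else 2 * l2 i + 1, ?_, ?_⟩
      · intro l
        rcases Nat.even_or_odd' l with ⟨m, rfl | rfl⟩
        · rw [← hl1 m]
          refine Finset.sum_congr ?_ fun _ _ => rfl
          ext i
          simp only [Finset.mem_filter, L]
          constructor
          · rintro ⟨h1, h2⟩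
            split_ifs at h2 with h3
            · exact ⟨⟨h1, h3⟩, by omega⟩
            · omega
          · rintro ⟨⟨h1, h2⟩, h3⟩
            refine ⟨h1, ?_⟩
            rw [if_pos h2, h3]
        · rw [← hl2 m]
          refine Finset.sum_congr ?_ fun _ _ => rfl
          ext i
          simp only [Finset.mem_filter, U]
          constructor
          · rintro ⟨h1, h2⟩
            split_ifs at h2 with h3
            · omega
            · exact ⟨⟨h1, h3⟩, by omega⟩
          · rintro ⟨⟨h1, h2⟩, h3⟩
            refine ⟨h1, ?_⟩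
            rw [if_neg h2, h3]
      · intro i hi j hj hij
        simp only at hij
        split_ifs at hij with h1 h2 h2
        · refine (hl1' i (Finset.mem_filter.2 ⟨hi, h1⟩) j (Finset.mem_filter.2 ⟨hj, h2⟩)
            (by omega)).trans (mul_le_mul_of_nonneg_right ?_ hC)
          exact_mod_cast Finset.card_le_card hLF.1
        · omega
        · omega
        · refine (hl2' i (Finset.mem_filter.2 ⟨hi, h1⟩) j (Finset.mem_filter.2 ⟨hj, h2⟩)
            (by omega)).trans (mul_le_mul_of_nonneg_right ?_ hC)
          exact_mod_cast Finset.card_le_card hUF.1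
    · push Not at hcase
      refine ⟨fun _ => 0, ?_, ?_⟩
      · intro l
        by_cases hl : l = 0
        · subst hl
          rw [Finset.filter_true_of_mem (fun _ _ => rfl)]
          exact hF0
        · rw [Finset.filter_false_of_mem (fun _ _ h => hl h.symm), Finset.sum_empty]
      · -- no gaps
        have key : ∀ i ∈ F, ∀ m : ℕ, ∀ j ∈ F, e i ≤ e j →
            (F.filter fun k => e i ≤ e k ∧ e k < e j).card = m →
            ((e j - e i : ℤ) : ℝ) * η ≤ m * C := by
          intro i hi m
          induction m using Nat.strong_induction_on with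
          | _ m ihm =>
            intro j hj hij hm
            rcases hij.eq_or_lt with h | h
            · rw [h, sub_self]
              simp only [Int.cast_zero, zero_mul]
              positivity
            · have hne : (F.filter fun k => e i ≤ e k ∧ e k < e j).Nonempty :=
                ⟨i, Finset.mem_filter.2 ⟨hi, le_rfl, h⟩⟩
              obtain ⟨k0, hk0, hk0'⟩ := Finset.exists_max_image _ e hne
              obtain ⟨hk0F, hk1, hk2⟩ := Finset.mem_filter.1 hk0
              obtain ⟨k1, hk1F, hk1lt, hk1le⟩ := hcase k0 hk0F ⟨j, hj, hk2⟩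
              have h3 : e j ≤ e k1 := by
                by_contra hcon
                have := hk0' k1 (Finset.mem_filter.2 ⟨hk1F, by omega, by omega⟩)
                omega
              have hlt : (F.filter fun k => e i ≤ e k ∧ e k < e k0).card < m := by
                rw [← hm]
                refine Finset.card_lt_card (Finset.ssubset_iff_subset_ne.2 ⟨?_, ?_⟩)
                · intro k hk
                  obtain ⟨h4, h5, h6⟩ := Finset.mem_filter.1 hk
                  exact Finset.mem_filter.2 ⟨h4, h5, by omega⟩
                · intro h4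
                  have h5 : k0 ∈ F.filter fun k => e i ≤ e k ∧ e k < e k0 := by rw [h4]; exact hk0
                  have := (Finset.mem_filter.1 h5).2.2
                  omega
              have h4 := ihm _ hlt k0 hk0F hk1 rfl
              have h5 : ((e j - e k0 : ℤ) : ℝ) * η ≤ C := by
                refine le_trans (mul_le_mul_of_nonneg_right ?_ hη) hk1le
                exact_mod_cast (by omega : e j - e k0 ≤ e k1 - e k0)
              have h6 : (((F.filter fun k => e i ≤ e k ∧ e k < e k0).card : ℝ) + 1) * C ≤ m * C :=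
                mul_le_mul_of_nonneg_right (by exact_mod_cast hlt) hC
              push_cast at h4 h5 ⊢
              linarith
        have key2 : ∀ i ∈ F, ∀ j ∈ F, e i ≤ e j → ((e j - e i : ℤ) : ℝ) * η ≤ F.card * C := by
          intro i hi j hj hij
          refine (key i hi _ j hj hij rfl).trans (mul_le_mul_of_nonneg_right ?_ hC)
          exact_mod_cast Finset.card_filter_le _ _
        intro i hi j hj _
        rcases le_total (e i) (e j) with h | h
        · have h1 := key2 i hi j hj h
          have h2 : (|e i - e j| : ℝ) = ((e j - e i : ℤ) : ℝ) := by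
            push_cast
            rw [abs_sub_comm, abs_of_nonneg]
            have : (e i : ℝ) ≤ e j := by exact_mod_cast h
            linarith
          rw [h2]
          exact h1
        · have h1 := key2 j hj i hi h
          have h2 : (|e i - e j| : ℝ) = ((e i - e j : ℤ) : ℝ) := by
            push_cast
            rw [abs_of_nonneg]
            have : (e j : ℝ) ≤ e i := by exact_mod_cast h
            linarith
          rw [h2]
          exact h1

/-- Bounds for an integral vector from bounds for its products with vectors without integral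
orthogonal complement. -/
theorem vec_bound {n : ℕ} (D : Finset (Fin n → ℤ)) :
    ∃ c : ℝ, 0 ≤ c ∧ ((∀ b : Fin n → ℤ, (∀ δ ∈ D, ∑ i, b i * δ i = 0) → b = 0) →
      ∀ (m : Fin n → ℤ) (η R : ℝ), 0 ≤ η → 0 ≤ R →
        (∀ δ ∈ D, (|∑ i, m i * δ i| : ℝ) * η ≤ R) → ∀ i, (|m i| : ℝ) * η ≤ c * R) := by
  classical
  by_cases hD : ∀ b : Fin n → ℤ, (∀ δ ∈ D, ∑ i, b i * δ i = 0) → b = 0
  · let φ : (Fin n → ℚ) →ₗ[ℚ] (D → ℚ) :=
      { toFun := fun m δ => ∑ i, m i * (δ.1 i : ℚ)
        map_add' := by
          intro x y
          funext δ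
          simp only [Pi.add_apply, add_mul, Finset.sum_add_distrib]
        map_smul' := by
          intro r x
          funext δ
          simp only [Pi.smul_apply, smul_eq_mul, RingHom.id_apply, Finset.mul_sum]
          exact Finset.sum_congr rfl fun i _ => by ring }
    have hinj : LinearMap.ker φ = ⊥ := by
      rw [LinearMap.ker_eq_bot']
      intro m hm
      obtain ⟨b, hb⟩ := IsLocalization.exist_integer_multiples_of_finite (nonZeroDivisors ℤ) m
      have hb0 : (b : ℤ) ≠ 0 := nonZeroDivisors.coe_ne_zero b
      choose m' hm' using hb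
      have hm'' : ∀ i, (m' i : ℚ) = b * m i := by
        intro i
        have := hm' i
        simpa [Algebra.smul_def] using this
      have h1 : m' = 0 := by
        apply hD
        intro δ hδ
        have h2 : ∑ i, m i * ((δ i : ℤ) : ℚ) = 0 := congrFun hm ⟨δ, hδ⟩
        have h3 : ((∑ i, m' i * δ i : ℤ) : ℚ) = 0 := by
          push_cast
          simp only [hm'', mul_assoc]
          rw [← Finset.mul_sum, h2, mul_zero]
        exact_mod_cast h3
      funext i
      have h2 := hm'' i
      rw [h1] at h2
      simp only [Pi.zero_apply, Int.cast_zero] at h2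
      have h3 : ((b : ℤ) : ℚ) ≠ 0 := by exact_mod_cast hb0
      exact (mul_eq_zero.1 h2.symm).resolve_left h3
    obtain ⟨g, hg⟩ := LinearMap.exists_leftInverse_of_injective φ hinj
    refine ⟨∑ i, ∑ δ : D, |(g (Pi.single δ 1) i : ℝ)|, by positivity, fun _ m η R hη hR h i => ?_⟩
    have h1 : g (φ fun i => (m i : ℚ)) = fun i => (m i : ℚ) := LinearMap.congr_fun hg _
    have h2 : (m i : ℚ) = ∑ δ : D, (∑ i, (m i : ℚ) * (δ.1 i : ℚ)) * g (Pi.single δ 1) i := by
      conv_lhs => rw [← congrFun h1 i]
      have h3 : φ (fun i => (m i : ℚ)) = ∑ δ : D, (∑ i, (m i : ℚ) * (δ.1 i : ℚ)) •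
          (Pi.single δ (1 : ℚ) : D → ℚ) := by
        funext δ
        rw [Finset.sum_apply, Finset.sum_eq_single δ]
        · rw [Pi.smul_apply, Pi.single_eq_same, smul_eq_mul, mul_one]
          rfl
        · intro δ' _ hδ
          rw [Pi.smul_apply, Pi.single_eq_of_ne hδ.symm, smul_zero]
        · intro h
          exact absurd (Finset.mem_univ δ) h
      rw [h3, map_sum, Finset.sum_apply]
      refine Finset.sum_congr rfl fun δ _ => ?_
      rw [map_smul, Pi.smul_apply, smul_eq_mul]
    have h4 : (m i : ℝ) = ∑ δ : D, (∑ i, (m i : ℝ) * (δ.1 i : ℝ)) *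
        (g (Pi.single δ 1) i : ℝ) := by
      have := congrArg (fun r : ℚ => (r : ℝ)) h2
      push_cast at this
      exact this
    rw [h4]
    calc |∑ δ : D, (∑ i, (m i : ℝ) * (δ.1 i : ℝ)) * (g (Pi.single δ 1) i : ℝ)| * η
        ≤ (∑ δ : D, |(∑ i, (m i : ℝ) * (δ.1 i : ℝ)) * (g (Pi.single δ 1) i : ℝ)|) * η :=
          mul_le_mul_of_nonneg_right (Finset.abs_sum_le_sum_abs _ _) hη
      _ = ∑ δ : D, (|∑ i, (m i : ℝ) * (δ.1 i : ℝ)| * η) * |(g (Pi.single δ 1) i : ℝ)| := by
          rw [Finset.sum_mul]
          refine Finset.sum_congr rfl fun δ _ => ?_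
          rw [abs_mul]
          ring
      _ ≤ ∑ δ : D, R * |(g (Pi.single δ 1) i : ℝ)| := by
          refine Finset.sum_le_sum fun δ _ => mul_le_mul_of_nonneg_right ?_ (abs_nonneg _)
          have := h δ.1 δ.2
          push_cast at this
          exact this
      _ = (∑ δ : D, |(g (Pi.single δ 1) i : ℝ)|) * R := by
          rw [← Finset.mul_sum, mul_comm]
      _ ≤ _ := by
          refine mul_le_mul_of_nonneg_right ?_ hR
          exact Finset.single_le_sum (f := fun i => ∑ δ : D, |(g (Pi.single δ 1) i : ℝ)|)
            (fun _ _ => by positivity) (Finset.mem_univ i)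
  · exact ⟨0, le_rfl, fun h => absurd h hD⟩

end Pool.Agent.R870.AP
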