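import Pool.Agent.Helper259.AbsHt

/-!
# Conjugates of linearly independent algebraic numbers
-/

set_option autoImplicit false

namespace Pool.Agent.R870.AP

open Pool.Agent.Helper259.AbsHt

/-- rows with nonzero determinant -/
theorem exists_rows {K G κ : Type*} [Field K] [Fintype κ] [DecidableEq κ] (f : κ → G → K)
    (hf : LinearIndependent K f) :
    ∃ σ : κ → G, (Matrix.of fun j k => f k (σ j)).det ≠ 0 := by
  classical
  let v : G → κ → K := fun g k => f k g
  have hspan : Submodule.span K (Set.range v) = ⊤ := by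
    by_contra h
    obtain ⟨φ, hφ0, hφ⟩ := Submodule.exists_le_ker_of_lt_top _ (lt_top_iff_ne_top.2 h)
    apply hφ0
    have h1 : ∀ x : κ → K, φ x = ∑ k, x k * φ (Pi.single k 1) := by
      intro x
      conv_lhs => rw [← Finset.univ_sum_single x]
      rw [map_sum]
      refine Finset.sum_congr rfl fun k _ => ?_
      have h2 : (Pi.single k (x k) : κ → K) = x k • Pi.single k (1 : K) := by
        rw [← Pi.single_smul, smul_eq_mul, mul_one]
      rw [h2, map_smul, smul_eq_mul]
    have h2 : ∑ k, φ (Pi.single k 1) • f k = 0 := by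
      funext g
      rw [Finset.sum_apply]
      have h3 : v g ∈ LinearMap.ker φ := hφ (Submodule.subset_span ⟨g, rfl⟩)
      rw [LinearMap.mem_ker, h1] at h3
      rw [Pi.zero_apply, ← h3]
      refine Finset.sum_congr rfl fun k _ => ?_
      rw [Pi.smul_apply, smul_eq_mul, mul_comm]
    have h3 := Fintype.linearIndependent_iff.1 hf _ h2
    ext x
    rw [LinearMap.comp_apply, LinearMap.comp_apply]
    simp [h3]
  obtain ⟨t, ht1, ht2, ht3⟩ := exists_linearIndependent K (Set.range v)
  let b : Module.Basis t K (κ → K) := Module.Basis.mk ht3 (by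
    rw [Subtype.range_coe, ht2, hspan])
  have : Fintype t := FiniteDimensional.fintypeBasisIndex b
  have hcard : Fintype.card κ = Fintype.card t := by
    rw [← Module.finrank_eq_card_basis b, Module.finrank_fintype_fun_eq_card]
  let e : κ ≃ t := Fintype.equivOfCardEq hcard
  choose σ hσ using fun a : t => ht1 a.2
  refine ⟨fun j => σ (e j), ?_⟩
  have hrow : LinearIndependent K (Matrix.of fun j k => f k (σ (e j))).row := by
    have h1 : (Matrix.of fun j k => f k (σ (e j))).row = fun j => ((e j : t) : κ → K) := by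
      funext j
      exact hσ (e j)
    rw [h1]
    exact ht3.comp _ e.injective
  rw [Matrix.linearIndependent_rows_iff_isUnit, Matrix.isUnit_iff_isUnit_det] at hrow
  exact hrow.ne_zero

/-- Artin's lemma: the functions `σ ↦ σ b` of linearly independent algebraic numbers `b` are
linearly independent. -/
theorem indep_conj {κ : Type*} [Fintype κ] (b : κ → Qbar) (hb : LinearIndependent ℚ b) :
    LinearIndependent Qbar (fun k (σ : Qbar ≃ₐ[ℚ] Qbar) => σ (b k)) := by
  classical
  have halg : Algebra.IsAlgebraic ℚ Qbar := AlgebraicClosure.isAlgebraic ℚ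
  have hcl : IsAlgClosure ℚ Qbar := ⟨inferInstance, halg⟩
  have hnor : Normal ℚ Qbar := IsAlgClosure.normal ℚ _
  have hgal : IsGalois ℚ Qbar := isGalois_iff.2 ⟨inferInstance, hnor⟩
  have hinj : Function.Injective b := hb.injective
  let s : Finset Qbar := Finset.univ.image b
  have hs : (s : Set Qbar) = Set.range b := by simp [s]
  have hfix : ∀ x : FixedPoints.subfield (Qbar ≃ₐ[ℚ] Qbar) Qbar, ∃ q : ℚ,
      algebraMap ℚ Qbar q = x := by
    intro x
    have h1 : ∀ σ : Qbar ≃ₐ[ℚ] Qbar, σ (x : Qbar) = x := fun σ => x.2 σ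
    have h2 := (InfiniteGalois.mem_bot_iff_fixed (k := ℚ) (x : Qbar)).2 h1
    exact IntermediateField.mem_bot.1 h2
  have h1 : LinearIndepOn (FixedPoints.subfield (Qbar ≃ₐ[ℚ] Qbar) Qbar) id (s : Set Qbar) := by
    rw [hs]
    have h2 : LinearIndependent (FixedPoints.subfield (Qbar ≃ₐ[ℚ] Qbar) Qbar) b := by
      rw [Fintype.linearIndependent_iff] at hb ⊢
      intro g hg k
      choose q hq using hfix
      have h3 : ∑ k, q (g k) • b k = 0 := by
        rw [← hg]
        refine Finset.sum_congr rfl fun k _ => ?_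
        rw [Algebra.smul_def, hq]
        rfl
      have h4 := hb _ h3 k
      apply Subtype.ext
      rw [← hq, h4, map_zero]
      rfl
    exact h2.linearIndepOn_id
  have h2 := FixedPoints.linearIndependent_smul_of_linearIndependent
    (Qbar ≃ₐ[ℚ] Qbar) Qbar h1
  have h3 : ∀ k, b k ∈ (s : Set Qbar) := fun k => by rw [hs]; exact ⟨k, rfl⟩
  exact LinearIndependent.comp h2 (fun k => (⟨b k, h3 k⟩ : (s : Set Qbar)))
    (fun k k' h => hinj (congrArg Subtype.val h))

end Pool.Agent.R870.AP
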