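import Pool.Agent.R870.AP.Descent

/-!
# Counting the integral vectors with a relation at an algebraic point of small height
-/

set_option autoImplicit false

namespace Pool.Agent.R870.AP

open Pool.Agent.Helper259.AbsHt

section one

variable {α : Type} [Fintype α] [DecidableEq α]

/-- the box -/
noncomputable def bxx (α : Type) [Fintype α] [DecidableEq α] (H : ℕ) : Finset (α → ℤ) :=
  Fintype.piFinset fun _ => Finset.Icc (-(H : ℤ)) H

theorem mem_bxx {H : ℕ} {c : α → ℤ} : c ∈ bxx α H ↔ ∀ x, |c x| ≤ H := by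
  rw [bxx, Fintype.mem_piFinset]
  exact forall_congr' fun x => by rw [Finset.mem_Icc, abs_le]

theorem card_bxx (H : ℕ) : (bxx α H).card = (2 * H + 1) ^ Fintype.card α := by
  rw [bxx, Fintype.card_piFinset, Finset.prod_const, Finset.card_univ, Int.card_Icc]
  congr 1
  omega

theorem card_hyper (w : α → ℤ) (hw : w ≠ 0) (H : ℕ) :
    (((bxx α H).filter fun c => ∑ i, c i * w i = 0).card) * (2 * H + 1) ≤
      (2 * H + 1) ^ Fintype.card α := by
  classical
  obtain ⟨i, hi⟩ := Function.ne_iff.1 hw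
  have h1 : (((bxx α H).filter fun c => ∑ i, c i * w i = 0).card) ≤
      (bxx {x : α // x ≠ i} H).card := by
    refine Finset.card_le_card_of_injOn (fun c x => c x.1) ?_ ?_
    · intro c hc
      rw [Finset.mem_coe, mem_bxx]
      intro x
      exact mem_bxx.1 (Finset.mem_filter.1 (Finset.mem_coe.1 hc)).1 x.1
    · intro c hc c' hc' h
      have h1 := (Finset.mem_filter.1 (Finset.mem_coe.1 hc)).2
      have h2 := (Finset.mem_filter.1 (Finset.mem_coe.1 hc')).2
      have h3 : ∀ x, x ≠ i → c x = c' x := fun x hx => congrFun h ⟨x, hx⟩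
      rw [← Finset.add_sum_erase _ _ (Finset.mem_univ i)] at h1 h2
      have h4 : ∑ x ∈ Finset.univ.erase i, c x * w x = ∑ x ∈ Finset.univ.erase i, c' x * w x :=
        Finset.sum_congr rfl fun x hx => by rw [h3 x (Finset.ne_of_mem_erase hx)]
      rw [h4] at h1
      have h5 : c i * w i = c' i * w i := by linarith
      have h6 : c i = c' i := mul_right_cancel₀ hi h5
      funext x
      by_cases hx : x = i
      · rw [hx, h6]
      · exact h3 x hx
  have h2 : Fintype.card {x : α // x ≠ i} + 1 = Fintype.card α := by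
    rw [Fintype.card_subtype_compl (fun x => x = i), Fintype.card_subtype_eq]
    have : 0 < Fintype.card α := Fintype.card_pos_iff.2 ⟨i⟩
    omega
  rw [card_bxx] at h1
  calc _ ≤ (2 * H + 1) ^ Fintype.card {x : α // x ≠ i} * (2 * H + 1) := Nat.mul_le_mul_right _ h1
    _ = _ := by rw [← pow_succ, h2]

open Classical in
/-- the vectors with a small integral relation -/
noncomputable def Sm (α : Type) [Fintype α] [DecidableEq α] (H P : ℕ) : Finset (α → ℤ) :=
  ((bxx α P).filter fun w => w ≠ 0).biUnion fun w =>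
    (bxx α H).filter fun c => ∑ i, c i * w i = 0

theorem mem_Sm {H P : ℕ} {c : α → ℤ} (hc : ∀ x, |c x| ≤ H) (w : α → ℤ) (hw : w ≠ 0)
    (hP : ∀ i, |w i| ≤ P) (h : ∑ i, c i * w i = 0) : c ∈ Sm α H P := by
  classical
  rw [Sm, Finset.mem_biUnion]
  exact ⟨w, Finset.mem_filter.2 ⟨mem_bxx.2 hP, hw⟩, Finset.mem_filter.2 ⟨mem_bxx.2 hc, h⟩⟩

theorem card_Sm (H P : ℕ) : (Sm α H P).card * (2 * H + 1) ≤
    (2 * P + 1) ^ Fintype.card α * (2 * H + 1) ^ Fintype.card α := by
  classical
  calc (Sm α H P).card * (2 * H + 1) ≤ (∑ w ∈ (bxx α P).filter fun w => w ≠ 0,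
        ((bxx α H).filter fun c => ∑ i, c i * w i = 0).card) * (2 * H + 1) :=
        Nat.mul_le_mul_right _ Finset.card_biUnion_le
    _ = ∑ w ∈ (bxx α P).filter fun w => w ≠ 0,
        ((bxx α H).filter fun c => ∑ i, c i * w i = 0).card * (2 * H + 1) := by
        rw [Finset.sum_mul]
    _ ≤ ∑ _w ∈ (bxx α P).filter fun w => w ≠ 0, (2 * H + 1) ^ Fintype.card α :=
        Finset.sum_le_sum fun w hw => card_hyper w (Finset.mem_filter.1 hw).2 H
    _ = ((bxx α P).filter fun w => w ≠ 0).card * (2 * H + 1) ^ Fintype.card α := by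
        rw [Finset.sum_const, smul_eq_mul]
    _ ≤ _ := Nat.mul_le_mul_right _ ((Finset.card_filter_le _ _).trans (card_bxx P).le)

end one

section many

variable {k : ℕ} {κ : Fin k → Type} [∀ j, Fintype (κ j)] [∀ j, DecidableEq (κ j)]

open Classical in
/-- the systems with small integral relations -/
noncomputable def SmS (κ : Fin k → Type) [∀ j, Fintype (κ j)] [∀ j, DecidableEq (κ j)]
    (H P : ℕ) : Finset (((j : Fin k) × κ j) → ℤ) :=
  (Fintype.piFinset fun j => Sm (κ j) H P).image fun c x => c x.1 x.2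

theorem mem_SmS {H P : ℕ} {c : ((j : Fin k) × κ j) → ℤ}
    (h : ∀ j, (fun a => c ⟨j, a⟩) ∈ Sm (κ j) H P) : c ∈ SmS κ H P := by
  classical
  rw [SmS, Finset.mem_image]
  exact ⟨fun j a => c ⟨j, a⟩, Fintype.mem_piFinset.2 h, rfl⟩

theorem card_SmS (H P : ℕ) : (SmS κ H P).card * (2 * H + 1) ^ k ≤
    (2 * P + 1) ^ Fintype.card ((j : Fin k) × κ j) *
      (2 * H + 1) ^ Fintype.card ((j : Fin k) × κ j) := by
  classical
  have h1 : (SmS κ H P).card ≤ ∏ j, (Sm (κ j) H P).card := by
    refine Finset.card_image_le.trans ?_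
    rw [Fintype.card_piFinset]
  calc (SmS κ H P).card * (2 * H + 1) ^ k ≤
      (∏ j, (Sm (κ j) H P).card) * (2 * H + 1) ^ k := Nat.mul_le_mul_right _ h1
    _ = ∏ j, ((Sm (κ j) H P).card * (2 * H + 1)) := by
        rw [Finset.prod_mul_distrib, Finset.prod_const, Finset.card_univ, Fintype.card_fin]
    _ ≤ ∏ j, ((2 * P + 1) ^ Fintype.card (κ j) * (2 * H + 1) ^ Fintype.card (κ j)) :=
        Finset.prod_le_prod' fun j _ => card_Sm H P
    _ = _ := by
        rw [Finset.prod_mul_distrib, Finset.prod_pow_eq_pow_sum, Finset.prod_pow_eq_pow_sum,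
          Fintype.card_sigma]

/-- The integral systems `c` which vanish at algebraic vectors `y_j` of height at most `B`: all but
few integral systems do not. -/
theorem exists_E (κ : Fin k → Type) [∀ j, Fintype (κ j)] [∀ j, DecidableEq (κ j)] :
    ∃ C κ' : ℕ, ∀ (H : ℕ) (B : ℝ), 0 ≤ B → ∃ E : Finset (((j : Fin k) × κ j) → ℤ),
      (E.card : ℝ) * (2 * H + 1) ^ k ≤ C * Real.exp (κ' * B) *
        (2 * H + 1) ^ Fintype.card ((j : Fin k) × κ j) ∧
      ∀ c : ((j : Fin k) × κ j) → ℤ, (∀ x, |c x| ≤ H) →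
        (∃ y : (j : Fin k) → κ j → Qbar, ∀ j, y j ≠ 0 ∧ absLogHeight (y j) ≤ B ∧
          ∑ a, (c ⟨j, a⟩ : Qbar) * y j a = 0) → c ∈ E := by
  classical
  obtain ⟨N, hN⟩ : ∃ N, N = Fintype.card ((j : Fin k) × κ j) := ⟨_, rfl⟩
  obtain ⟨M, hM⟩ : ∃ M : ℕ, M = (N + 1) ^ (2 * N) := ⟨_, rfl⟩
  refine ⟨(3 * M) ^ N, N * N, fun H B hB => ?_⟩
  let P : ℕ := ⌊(M : ℝ) * Real.exp (N * B)⌋₊
  have hM1 : 1 ≤ M := by rw [hM]; exact Nat.one_le_pow _ _ (by omega)
  have hexp1 : 1 ≤ Real.exp (N * B) := Real.one_le_exp (by positivity)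
  have hP : (P : ℝ) ≤ M * Real.exp (N * B) := Nat.floor_le (by positivity)
  have hME : 1 ≤ (M : ℝ) * Real.exp (N * B) :=
    one_le_mul_of_one_le_of_one_le (by exact_mod_cast hM1) hexp1
  refine ⟨SmS κ H P, ?_, ?_⟩
  · have h1 := card_SmS (κ := κ) H P
    rw [← hN] at h1 ⊢
    have h2 : ((SmS κ H P).card : ℝ) * (2 * H + 1) ^ k ≤ (2 * P + 1) ^ N * (2 * H + 1) ^ N := by
      exact_mod_cast h1
    refine h2.trans (mul_le_mul_of_nonneg_right ?_ (by positivity))
    calc (2 * (P : ℝ) + 1) ^ N ≤ (3 * (M * Real.exp (N * B))) ^ N := by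
          refine pow_le_pow_left₀ (by positivity) ?_ N
          linarith
      _ = _ := by
          push_cast
          rw [← mul_assoc, mul_pow, ← Real.exp_nat_mul]
          congr 2
          ring
  · rintro c hc ⟨y, hy⟩
    refine mem_SmS fun j => ?_
    obtain ⟨hy0, hyB, hyc⟩ := hy j
    obtain ⟨w, hw0, hwB, hw⟩ := descend (y j) hy0
    refine mem_Sm (fun x => hc ⟨j, x⟩) w hw0 (fun i => ?_) (hw (fun a => c ⟨j, a⟩) hyc)
    have hcard : Fintype.card (κ j) ≤ N := by
      rw [hN, Fintype.card_sigma]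
      exact Finset.single_le_sum (f := fun j => Fintype.card (κ j)) (fun _ _ => Nat.zero_le _)
        (Finset.mem_univ j)
    have h1 : (|w i| : ℝ) ≤ M * Real.exp (N * B) := by
      refine (hwB i).trans (mul_le_mul ?_ ?_ (Real.exp_pos _).le (by positivity))
      · have h2 : Fintype.card (κ j) ^ (2 * Fintype.card (κ j)) ≤ M := by
          rw [hM]
          calc Fintype.card (κ j) ^ (2 * Fintype.card (κ j)) ≤
              (N + 1) ^ (2 * Fintype.card (κ j)) := Nat.pow_le_pow_left (by omega) _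
            _ ≤ (N + 1) ^ (2 * N) := Nat.pow_le_pow_right (by omega) (by omega)
        exact_mod_cast h2
      · refine Real.exp_le_exp.2 (mul_le_mul (by exact_mod_cast hcard) hyB
          (absLogHeight_nonneg _) (by positivity))
    have h2 : ((w i).natAbs : ℝ) ≤ M * Real.exp (N * B) := by
      rw [Nat.cast_natAbs]
      exact_mod_cast h1
    have h3 : (w i).natAbs ≤ P := Nat.le_floor h2
    rw [Int.abs_eq_natAbs]
    exact_mod_cast h3

end many

end Pool.Agent.R870.AP
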