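import Pool.Agent.R870.AP.Conj

/-!
# Relations of algebraic points of small height come from rational points of small height
-/

set_option autoImplicit false

namespace Pool.Agent.R870.AP

open Pool.Agent.Helper259.AbsHt NumberField Height Module

theorem absLogHeight_conj {ι : Type*} [Finite ι] (y : ι → Qbar) (σ : Qbar ≃ₐ[ℚ] Qbar) :
    absLogHeight (fun i => σ (y i)) = absLogHeight y := by
  obtain ⟨L, hL, hmem⟩ := exists_nf (Set.range y) (Set.finite_range y)
  obtain ⟨x, rfl⟩ := lift_vec L y fun i => hmem _ ⟨i, rfl⟩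
  rw [val_eq]
  exact absLogHeight_eq L ((σ : Qbar →+* Qbar).comp (algebraMap L Qbar)) x

theorem absLogHeight_prod {ι κ : Type} [Finite ι] [Fintype κ] (x : κ → ι → Qbar)
    (hx : ∀ k, x k ≠ 0) :
    absLogHeight (fun I : κ → ι => ∏ k, x k (I k)) = ∑ k, absLogHeight (x k) := by
  obtain ⟨L, hL, hmem⟩ := exists_nf (⋃ k, Set.range (x k))
    (Set.finite_iUnion fun k => Set.finite_range (x k))
  have h1 : ∀ k, ∃ y : ι → L, x k = fun i => (y i : Qbar) := fun k =>
    lift_vec L (x k) fun i => hmem _ (Set.mem_iUnion.2 ⟨k, ⟨i, rfl⟩⟩)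
  choose y hy using h1
  have hy0 : ∀ k, y k ≠ 0 := by
    intro k h
    apply hx k
    rw [hy, h]
    funext i
    simp
  have e : (fun I : κ → ι => ∏ k, x k (I k)) =
      fun I => (((fun I : κ → ι => ∏ k, y k (I k)) I : L) : Qbar) := by
    funext I
    push_cast
    exact Finset.prod_congr rfl fun k _ => by rw [hy]
  rw [e, val_eq, logHeight_fun_prod_eq (ι := fun _ : κ => ι) hy0, Finset.sum_div]
  refine Finset.sum_congr rfl fun k _ => ?_
  rw [hy k, val_eq]

theorem exists_prim {ι : Type} [Fintype ι] (x : ι → ℤ) (hx : x ≠ 0) :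
    ∃ (w : ι → ℤ) (g : ℤ), g ≠ 0 ∧ Finset.univ.gcd w = 1 ∧ ∀ i, x i = g * w i := by
  classical
  have hne : Nonempty ι := by
    by_contra h
    rw [not_nonempty_iff] at h
    exact hx (Subsingleton.elim _ _)
  obtain ⟨w, hw, hw1⟩ := Finset.extract_gcd x (Finset.univ_nonempty (α := ι))
  refine ⟨w, Finset.univ.gcd x, ?_, hw1, fun i => hw i (Finset.mem_univ i)⟩
  intro h
  apply hx
  funext i
  exact Finset.gcd_eq_zero_iff.1 h i (Finset.mem_univ i)

theorem absLogHeight_int_le {ι : Type} [Fintype ι] (x : ι → ℤ) (B : ℕ) (hB : 1 ≤ B)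
    (h : ∀ i, |x i| ≤ B) : absLogHeight (fun i => (x i : Qbar)) ≤ Real.log B := by
  classical
  by_cases hx : x = 0
  · subst hx
    have h1 : (fun i : ι => (((0 : ι → ℤ) i : ℤ) : Qbar)) = 0 := by
      funext i
      simp
    rw [h1, absLogHeight_zero]
    exact Real.log_nonneg (by exact_mod_cast hB)
  · obtain ⟨w, g, hg, hw, hxw⟩ := exists_prim x hx
    have hne : Nonempty ι := by
      by_contra h
      rw [not_nonempty_iff] at h
      exact hx (Subsingleton.elim _ _)
    have h1 : (fun i => (x i : Qbar)) = (g : Qbar) • fun i => (w i : Qbar) := by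
      funext i
      rw [Pi.smul_apply, smul_eq_mul, hxw i]
      push_cast
      rfl
    rw [h1, absLogHeight_smul _ (by exact_mod_cast hg), absLogHeight_int w hw]
    have hle : ∀ i, |w i| ≤ (B : ℤ) := by
      intro i
      refine le_trans ?_ (h i)
      rw [hxw i, abs_mul]
      have : 1 ≤ |g| := Int.one_le_abs hg
      nlinarith [abs_nonneg (w i)]
    have hsup : (⨆ i, |w i| : ℤ) ≤ B := ciSup_le hle
    have hpos : (0 : ℤ) < ⨆ i, |w i| := by
      have hw0 : w ≠ 0 := by
        rintro rfl
        exact hx (by funext i; simp [hxw i])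
      obtain ⟨i, hi⟩ := Function.ne_iff.1 hw0
      have h2 : |w i| ≤ ⨆ i, |w i| := le_ciSup (Finite.bddAbove_range fun i => |w i|) i
      exact lt_of_lt_of_le (abs_pos.2 hi) h2
    refine Real.log_le_log (by exact_mod_cast hpos) ?_
    exact_mod_cast hsup

theorem abs_le_exp {ι : Type} [Fintype ι] (w : ι → ℤ) (hw : Finset.univ.gcd w = 1) (i : ι) :
    (|w i| : ℝ) ≤ Real.exp (absLogHeight (fun i => (w i : Qbar))) := by
  have hne : Nonempty ι := ⟨i⟩
  rw [absLogHeight_int w hw]
  have h1 : |w i| ≤ ⨆ i, |w i| := le_ciSup (Finite.bddAbove_range fun i => |w i|) i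
  rcases (lt_or_ge 0 (⨆ i, |w i| : ℤ)) with h2 | h2
  · rw [Real.exp_log (by exact_mod_cast h2)]
    exact_mod_cast h1
  · have h3 : |w i| ≤ 0 := h1.trans h2
    have h4 : w i = 0 := by
      have := abs_nonneg (w i)
      exact abs_eq_zero.1 (by omega)
    rw [h4]
    simpa using (Real.exp_pos _).le

/-- The descent: for every algebraic point `y` there is a rational point `w` of height bounded in
terms of the height of `y`, which satisfies all rational linear relations of `y`. -/
theorem descend {ι : Type} [Fintype ι] (y : ι → Qbar) (hy : y ≠ 0) :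
    ∃ w : ι → ℤ, w ≠ 0 ∧
      (∀ i, (|w i| : ℝ) ≤ (Fintype.card ι : ℝ) ^ (2 * Fintype.card ι) *
        Real.exp (Fintype.card ι * absLogHeight y)) ∧
      ∀ c : ι → ℤ, ∑ i, (c i : Qbar) * y i = 0 → ∑ i, c i * w i = 0 := by
  classical
  obtain ⟨t, ht1, ht2, ht3⟩ := exists_linearIndependent ℚ (Set.range y)
  have htf : t.Finite := (Set.finite_range y).subset ht1
  have : Fintype t := htf.fintype
  choose i0 hi0 using fun a : t => ht1 a.2
  have hi0inj : Function.Injective i0 := by
    intro a b h
    apply Subtype.ext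
    rw [← hi0 a, ← hi0 b, h]
  have hcard : Fintype.card t ≤ Fintype.card ι := Fintype.card_le_of_injective i0 hi0inj
  have hq : ∀ m, ∃ q : t → ℚ, ∑ a : t, q a • (a : Qbar) = y m := by
    intro m
    have h1 : y m ∈ Submodule.span ℚ (Set.range (Subtype.val : t → Qbar)) := by
      rw [Subtype.range_coe, ht2]
      exact Submodule.subset_span ⟨m, rfl⟩
    exact (Submodule.mem_span_range_iff_exists_fun ℚ).1 h1
  choose q hq using hq
  have hne : Nonempty t := by
    by_contra h
    rw [not_nonempty_iff] at h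
    apply hy
    funext m
    rw [← hq m, Finset.univ_eq_empty, Finset.sum_empty]
    rfl
  obtain ⟨a0⟩ := hne
  have hN : 1 ≤ Fintype.card ι := Fintype.card_pos_iff.2 ⟨i0 a0⟩
  obtain ⟨σ, hσ⟩ := exists_rows _ (indep_conj (fun a : t => (a : Qbar)) ht3)
  set M : Matrix t t Qbar := Matrix.of fun j k => σ j (k : Qbar) with hM
  let I : ι → t → ι := fun m a => if a = a0 then m else i0 a
  let δ : ι → Qbar := fun m => (M.updateCol a0 fun j => σ j (y m)).det
  have hδ : ∀ m, δ m = M.det * (q m a0 : Qbar) := by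
    intro m
    have h1 : (fun j => σ j (y m)) = M.mulVec fun a => ((q m a : ℚ) : Qbar) := by
      funext j
      rw [Matrix.mulVec, dotProduct, ← hq m, map_sum]
      refine Finset.sum_congr rfl fun a _ => ?_
      rw [hM, Matrix.of_apply, Algebra.smul_def, map_mul, AlgEquiv.commutes, mul_comm]
      congr 1
    have h2 : δ m = M.cramer (fun j => σ j (y m)) a0 := (Matrix.cramer_apply _ _ _).symm
    rw [h2, h1, Matrix.cramer_eq_adjugate_mulVec, Matrix.mulVec_mulVec, Matrix.adjugate_mul,
      Matrix.smul_mulVec, Matrix.one_mulVec, Pi.smul_apply, smul_eq_mul]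
  -- expansion of the determinant
  let z : (t → ι) → Qbar := fun J => ∏ j, σ j (y (J j))
  let A : ι × (t → ι) → ℤ := fun p => ∑ π : Equiv.Perm t,
    if (fun j => I p.1 (π j)) = p.2 then (Equiv.Perm.sign π : ℤ) else 0
  have hexp : ∀ m, δ m = ∑ J, (A (m, J) : Qbar) * z J := by
    intro m
    have h1 : δ m = ∑ π : Equiv.Perm t, ((Equiv.Perm.sign π : ℤ) : Qbar) *
        z (fun j => I m (π j)) := by
      simp only [δ]
      rw [← Matrix.det_transpose, Matrix.det_apply']
      refine Finset.sum_congr rfl fun π _ => ?_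
      congr 1
      refine Finset.prod_congr rfl fun j _ => ?_
      rw [Matrix.transpose_apply, Matrix.updateCol_apply]
      simp only [I]
      split_ifs with h
      · rfl
      · rw [hi0]
        rfl
    rw [h1]
    have h2 : ∀ J, (A (m, J) : Qbar) * z J = ∑ π : Equiv.Perm t,
        if (fun j => I m (π j)) = J then ((Equiv.Perm.sign π : ℤ) : Qbar) * z J else 0 := by
      intro J
      simp only [A]
      push_cast
      rw [Finset.sum_mul]
      refine Finset.sum_congr rfl fun π _ => ?_
      split_ifs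
      · rfl
      · rw [zero_mul]
    rw [Finset.sum_congr rfl fun J _ => h2 J, Finset.sum_comm]
    refine Finset.sum_congr rfl fun π _ => ?_
    rw [Finset.sum_ite_eq]
    simp
  have hfact : (Fintype.card t).factorial ≤ Fintype.card ι ^ Fintype.card ι :=
    (Nat.factorial_le hcard).trans (Nat.factorial_le_pow _)
  have hA : ∀ p, |A p| ≤ ((Fintype.card ι ^ Fintype.card ι : ℕ) : ℤ) := by
    intro p
    refine (Finset.abs_sum_le_sum_abs _ _).trans ?_
    have h1 : ∑ π : Equiv.Perm t,
        |if (fun j => I p.1 (π j)) = p.2 then (Equiv.Perm.sign π : ℤ) else 0| ≤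
          ∑ _π : Equiv.Perm t, 1 := by
      refine Finset.sum_le_sum fun π _ => ?_
      split_ifs
      · rw [Int.abs_eq_natAbs, Int.units_natAbs]
        simp
      · simp
    refine h1.trans ?_
    rw [Finset.sum_const, Finset.card_univ, Fintype.card_perm, nsmul_eq_mul, mul_one]
    exact_mod_cast hfact
  have hNN : 1 ≤ Fintype.card ι ^ Fintype.card ι := Nat.one_le_pow _ _ hN
  have hσy : ∀ j, (fun i => σ j (y i)) ≠ 0 := by
    intro j h
    apply hy
    funext i
    have := congrFun h i
    simpa using this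
  have hh0 := absLogHeight_nonneg y
  have hhδ : absLogHeight δ ≤ 2 * (Fintype.card ι * Real.log (Fintype.card ι)) +
      Fintype.card ι * absLogHeight y := by
    have h1 : δ = fun m => ∑ J, (fun p : ι × (t → ι) => (A p : Qbar)) (m, J) * z J := by
      funext m
      exact hexp m
    rw [h1]
    have h2 := absLogHeight_linear (fun p : ι × (t → ι) => (A p : Qbar)) z
    have h3 := absLogHeight_int_le A _ hNN hA
    have h4 : absLogHeight z = Fintype.card t * absLogHeight y := by
      have h5 := absLogHeight_prod (fun j i => σ j (y i)) hσy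
      have h6 : z = fun I : t → ι => ∏ k, σ k (y (I k)) := rfl
      rw [h6, h5]
      simp only [absLogHeight_conj]
      rw [Finset.sum_const, Finset.card_univ, nsmul_eq_mul]
    have h5 : Real.log (Nat.card (t → ι)) ≤ Fintype.card ι * Real.log (Fintype.card ι) := by
      rw [Nat.card_eq_fintype_card, Fintype.card_fun]
      push_cast
      rw [Real.log_pow]
      exact mul_le_mul_of_nonneg_right (by exact_mod_cast hcard)
        (Real.log_nonneg (by exact_mod_cast hN))
    have h6 : Real.log ((Fintype.card ι ^ Fintype.card ι : ℕ) : ℝ) =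
        Fintype.card ι * Real.log (Fintype.card ι) := by
      push_cast
      rw [Real.log_pow]
    rw [h6] at h3
    have h7 : (Fintype.card t : ℝ) * absLogHeight y ≤ Fintype.card ι * absLogHeight y :=
      mul_le_mul_of_nonneg_right (by exact_mod_cast hcard) hh0
    rw [h4] at h2
    linarith
  -- the rational vector
  have hq0 : q (i0 a0) a0 = 1 := by
    have h1 : ∑ a : t, (q (i0 a0) a - (Pi.single a0 (1 : ℚ) : t → ℚ) a) • (a : Qbar) = 0 := by
      simp only [sub_smul]
      rw [Finset.sum_sub_distrib, hq, hi0]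
      rw [Finset.sum_eq_single a0 (fun b _ hb => by rw [Pi.single_eq_of_ne hb, zero_smul])
        (fun h => absurd (Finset.mem_univ _) h), Pi.single_eq_same, one_smul, sub_self]
    have h2 := Fintype.linearIndependent_iff.1 ht3 _ h1 a0
    rw [Pi.single_eq_same] at h2
    linarith
  obtain ⟨b, hb⟩ := IsLocalization.exist_integer_multiples_of_finite (nonZeroDivisors ℤ)
    (fun m => q m a0)
  have hb0 : (b : ℤ) ≠ 0 := nonZeroDivisors.coe_ne_zero b
  choose w' hw' using hb
  have hw'' : ∀ m, (w' m : ℚ) = b * q m a0 := by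
    intro m
    have := hw' m
    simpa [Algebra.smul_def] using this
  have hw'0 : w' ≠ 0 := by
    intro h
    have h1 := hw'' (i0 a0)
    rw [h, hq0] at h1
    simp only [Pi.zero_apply, Int.cast_zero, mul_one] at h1
    exact hb0 (by exact_mod_cast h1.symm)
  obtain ⟨w, g, hg, hw1, hw2⟩ := exists_prim w' hw'0
  have hqw : ∀ m, (b : ℚ) * q m a0 = g * w m := by
    intro m
    rw [← hw'' m, hw2 m]
    push_cast
    rfl
  have hw0 : w ≠ 0 := by
    rintro rfl
    exact hw'0 (by funext m; simp [hw2 m])
  have hhw : absLogHeight (fun m => (w m : Qbar)) = absLogHeight δ := by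
    have hb0' : ((b : ℤ) : Qbar) ≠ 0 := by exact_mod_cast hb0
    have hg0' : (g : Qbar) ≠ 0 := by exact_mod_cast hg
    have h1 : δ = (M.det * (g : Qbar) / ((b : ℤ) : Qbar)) • fun m => (w m : Qbar) := by
      funext m
      rw [Pi.smul_apply, smul_eq_mul, hδ m]
      have h2 : ((b : ℤ) : Qbar) * (q m a0 : Qbar) = (g : Qbar) * (w m : Qbar) := by
        exact_mod_cast congrArg (fun r : ℚ => (r : Qbar)) (hqw m)
      field_simp
      linear_combination h2
    rw [h1, absLogHeight_smul]
    exact div_ne_zero (mul_ne_zero hσ hg0') hb0'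
  refine ⟨w, hw0, fun i => ?_, fun c hc => ?_⟩
  · refine (abs_le_exp w hw1 i).trans ?_
    rw [hhw]
    refine (Real.exp_le_exp.2 hhδ).trans (le_of_eq ?_)
    rw [Real.exp_add]
    congr 1
    have hN0 : (0 : ℝ) < Fintype.card ι := by exact_mod_cast hN
    rw [← Real.exp_log (pow_pos hN0 (2 * Fintype.card ι)), Real.log_pow]
    push_cast
    congr 1
    ring
  · have h1 : ∑ a : t, (∑ m, (c m : ℚ) * q m a) • (a : Qbar) = 0 := by
      rw [← hc]
      simp only [Finset.sum_smul]
      rw [Finset.sum_comm]
      refine Finset.sum_congr rfl fun m _ => ?_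
      rw [← hq m, Finset.mul_sum]
      refine Finset.sum_congr rfl fun a _ => ?_
      rw [Algebra.smul_def, Algebra.smul_def, map_mul, mul_assoc]
      congr 1
    have h2 := Fintype.linearIndependent_iff.1 ht3 _ h1 a0
    have h3 : (g : ℚ) * ((∑ i, c i * w i : ℤ) : ℚ) = 0 := by
      push_cast
      rw [Finset.mul_sum]
      have h4 : ∑ i, (g : ℚ) * ((c i : ℚ) * w i) = b * ∑ m, (c m : ℚ) * q m a0 := by
        rw [Finset.mul_sum]
        refine Finset.sum_congr rfl fun m _ => ?_
        have := hqw m
        linear_combination (-(c m : ℚ)) * this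
      rw [h4, h2, mul_zero]
    have h5 := (mul_eq_zero.1 h3).resolve_left (by exact_mod_cast hg)
    exact_mod_cast h5

end Pool.Agent.R870.AP
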