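import Pool.Agent.R870.AP.Rad1

/-!
# Relations between algebraic numbers close to a division group of rank one: preparations
-/

set_option autoImplicit false

namespace Pool.Agent.R870.AP

open Pool.Agent.Helper259.AbsHt NumberField Height IntermediateField

/-- the descent for rational relations -/
theorem descendQ {ι : Type} [Fintype ι] (y : ι → Qbar) (hy : y ≠ 0) :
    ∃ w : ι → ℤ, w ≠ 0 ∧
      (∀ i, (|w i| : ℝ) ≤ (Fintype.card ι : ℝ) ^ (2 * Fintype.card ι) *
        Real.exp (Fintype.card ι * absLogHeight y)) ∧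
      ∀ r : ι → ℚ, ∑ i, (r i : Qbar) * y i = 0 → ∑ i, r i * (w i : ℚ) = 0 := by
  classical
  obtain ⟨w, hw0, hwB, hw⟩ := descend y hy
  refine ⟨w, hw0, hwB, fun r hr => ?_⟩
  obtain ⟨b, hb0, hb⟩ : ∃ b : ℤ, b ≠ 0 ∧ ∀ i, ∃ a : ℤ, (a : ℚ) = b * r i := by
    refine ⟨∏ i, ((r i).den : ℤ), Finset.prod_ne_zero_iff.2 fun i _ => by
      exact_mod_cast (r i).den_nz, fun i => ?_⟩
    obtain ⟨d, hd⟩ : ((r i).den : ℤ) ∣ ∏ i, ((r i).den : ℤ) :=
      Finset.dvd_prod_of_mem (fun i => ((r i).den : ℤ)) (Finset.mem_univ i)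
    refine ⟨d * (r i).num, ?_⟩
    rw [hd]
    push_cast
    have h1 : ((r i).den : ℚ) * r i = (r i).num := by
      rw [mul_comm]
      exact Rat.mul_den_eq_num (r i)
    rw [mul_comm ((r i).den : ℚ) (d : ℚ), mul_assoc, h1]
  choose a ha using hb
  have h1 : ∑ i, ((a i : ℤ) : Qbar) * y i = 0 := by
    have h2 : ∑ i, ((a i : ℤ) : Qbar) * y i = (b : Qbar) * ∑ i, (r i : Qbar) * y i := by
      rw [Finset.mul_sum]
      refine Finset.sum_congr rfl fun i _ => ?_
      have h3 : ((a i : ℤ) : Qbar) = (b : Qbar) * (r i : Qbar) := by exact_mod_cast congrArg (fun q : ℚ => (q : Qbar)) (ha i)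
      rw [h3]
      ring
    rw [h2, hr, mul_zero]
  have h2 := hw a h1
  have h3 : (b : ℚ) * ∑ i, r i * (w i : ℚ) = 0 := by
    rw [Finset.mul_sum]
    have h4 : ((∑ i, a i * w i : ℤ) : ℚ) = 0 := by exact_mod_cast h2
    rw [← h4]
    push_cast
    refine Finset.sum_congr rfl fun i _ => ?_
    rw [ha i]
    ring
  exact (mul_eq_zero.1 h3).resolve_left (by exact_mod_cast hb0)

theorem card_hyperQ {α : Type} [Fintype α] [DecidableEq α] (w : α → ℚ) (hw : w ≠ 0) (H : ℕ) :
    (((bxx α H).filter fun c => ∑ i, (c i : ℚ) * w i = 0).card) * (2 * H + 1) ≤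
      (2 * H + 1) ^ Fintype.card α := by
  classical
  obtain ⟨i, hi⟩ := Function.ne_iff.1 hw
  have h1 : (((bxx α H).filter fun c => ∑ i, (c i : ℚ) * w i = 0).card) ≤
      (bxx {x : α // x ≠ i} H).card := by
    refine Finset.card_le_card_of_injOn (fun c x => c x.1) ?_ ?_
    · intro c hc
      rw [Finset.mem_coe, mem_bxx]
      intro x
      exact mem_bxx.1 (Finset.mem_filter.1 (Finset.mem_coe.1 hc)).1 x.1
    · intro c hc c' hc' h
      have h1 := (Finset.mem_filter.1 (Finset.mem_coe.1 hc)).2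
      have h2 := (Finset.mem_filter.1 (Finset.mem_coe.1 hc')).2
      have h3 : ∀ x, x ≠ i → c x = c' x := fun x hx => congrFun h ⟨x, hx⟩
      rw [← Finset.add_sum_erase _ _ (Finset.mem_univ i)] at h1 h2
      have h4 : ∑ x ∈ Finset.univ.erase i, (c x : ℚ) * w x =
          ∑ x ∈ Finset.univ.erase i, (c' x : ℚ) * w x :=
        Finset.sum_congr rfl fun x hx => by rw [h3 x (Finset.ne_of_mem_erase hx)]
      rw [h4] at h1
      have h5 : (c i : ℚ) * w i = (c' i : ℚ) * w i := by linarith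
      have h6 : (c i : ℚ) = c' i := mul_right_cancel₀ hi h5
      funext x
      by_cases hx : x = i
      · rw [hx]
        exact_mod_cast h6
      · exact h3 x hx
  have h2 : Fintype.card {x : α // x ≠ i} + 1 = Fintype.card α := by
    rw [Fintype.card_subtype_compl (fun x => x = i), Fintype.card_subtype_eq]
    have : 0 < Fintype.card α := Fintype.card_pos_iff.2 ⟨i⟩
    omega
  rw [card_bxx] at h1
  calc _ ≤ (2 * H + 1) ^ Fintype.card {x : α // x ≠ i} * (2 * H + 1) := Nat.mul_le_mul_right _ h1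
    _ = _ := by rw [← pow_succ, h2]

/-- the coefficients of the powers of an algebraic number in a power basis -/
theorem exists_coeff (g : Qbar) (hg : g ≠ 0) : ∃ (δ : ℕ) (p : ℤ → Fin δ → ℚ),
    (∀ s : ℤ, g ^ s = ∑ i, (p s i : Qbar) * g ^ (i : ℕ)) ∧
    ∀ i i' : Fin δ, p (i : ℕ) i' = if i' = i then 1 else 0 := by
  classical
  have hint : IsIntegral ℚ g := by
    have halg : Algebra.IsAlgebraic ℚ Qbar := AlgebraicClosure.isAlgebraic ℚ
    exact (Algebra.IsAlgebraic.isAlgebraic g).isIntegral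
  obtain ⟨K0, pb, hgen⟩ : ∃ (K0 : IntermediateField ℚ Qbar) (pb : PowerBasis ℚ K0),
      (pb.gen : Qbar) = g :=
    ⟨ℚ⟮g⟯, IntermediateField.adjoin.powerBasis hint, by
      rw [IntermediateField.adjoin.powerBasis_gen, AdjoinSimple.coe_gen]⟩
  have hbasis : ∀ i, ((pb.basis i : K0) : Qbar) = g ^ (i : ℕ) := by
    intro i
    rw [pb.basis_eq_pow, ← hgen]
    push_cast
    rfl
  refine ⟨pb.dim, fun s i => pb.basis.repr (pb.gen ^ s) i, fun s => ?_, fun i i' => ?_⟩
  · have h1 := pb.basis.sum_repr (pb.gen ^ s)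
    have h2 := congrArg (fun x : K0 => algebraMap K0 Qbar x) h1
    rw [map_sum] at h2
    have h3 : algebraMap K0 Qbar (pb.gen ^ s) = g ^ s := by
      rw [map_zpow₀, ← hgen]
      rfl
    rw [h3] at h2
    rw [← h2]
    refine Finset.sum_congr rfl fun i _ => ?_
    rw [Algebra.smul_def, map_mul, ← hbasis i]
    congr 1
  · have h1 : pb.gen ^ (((i : ℕ) : ℤ)) = pb.basis i := by
      rw [zpow_natCast, pb.basis_eq_pow]
    simp only [h1, pb.basis.repr_self, Finsupp.single_apply, eq_comm]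

/-- a relation splits into relations with exponents which are close to each other -/
theorem splitG {ι : Type} [Fintype ι] [DecidableEq ι] (c : ι → ℤ) (u : ι → Qbar)
    (hu : ∀ j, u j ≠ 0) (z : ι → Qbar)
    (hz : ∀ j, RU (z j)) (t : Qbar) (ht0 : t ≠ 0) (b : ι → ℤ)
    (h0 : ∑ j, (c j : Qbar) * (z j * u j * t ^ b j) = 0) (A : ℝ) (hA : 1 ≤ A)
    (hA' : ∑ j, (|c j| : ℝ) ≤ A) :
    ∃ lam : ι → ℕ, (∀ l, ∑ j ∈ Finset.univ.filter (fun j => lam j = l),
        (c j : Qbar) * (z j * u j * t ^ b j) = 0) ∧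
      ∀ i j, lam i = lam j → |(b i : ℝ) - b j| * ht t ≤
        Fintype.card ι * (Real.log A + absLogHeight u) := by
  classical
  obtain ⟨L, _, _, φ, hφ⟩ := exists_lift (Set.range z ∪ Set.range u ∪ {t})
    (((Set.finite_range z).union (Set.finite_range u)).union (Set.finite_singleton t))
  obtain ⟨t', ht'⟩ := hφ t (Or.inr rfl)
  choose z' hz' using fun i => hφ (z i) (Or.inl (Or.inl ⟨i, rfl⟩))
  choose u' hu' using fun i => hφ (u i) (Or.inl (Or.inr ⟨i, rfl⟩))
  have ht'0 : t' ≠ 0 := by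
    rintro rfl
    rw [map_zero] at ht'
    exact ht0 ht'.symm
  have hru : ∀ i, RU (z' i) := by
    intro i
    obtain ⟨k, hk, h⟩ := hz i
    refine ⟨k, hk, φ.injective ?_⟩
    rw [map_pow, hz', h, map_one]
  have hu'0 : ∀ i, u' i ≠ 0 := by
    intro i h
    apply hu i
    rw [← hu', h, map_zero]
  have hφf : ∀ F : Finset ι, φ (∑ j ∈ F, (c j : L) * (z' j * u' j * t' ^ b j)) =
      ∑ j ∈ F, (c j : Qbar) * (z j * u j * t ^ b j) := by
    intro F
    rw [map_sum]
    refine Finset.sum_congr rfl fun j _ => ?_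
    rw [map_mul, map_mul, map_mul, map_intCast, map_zpow₀, ht', hz', hu']
  have hd0 : (0 : ℝ) < Module.finrank ℚ L := by exact_mod_cast Module.finrank_pos
  obtain ⟨η, hη⟩ : ∃ η : ℝ, η = ht t := ⟨_, rfl⟩
  have hη' : η * Module.finrank ℚ L = logHeight₁ t' := by
    rw [hη, ← ht', ht_eq]
    field_simp
  have hη0 : 0 ≤ η := by rw [hη]; exact ht_nonneg t
  have hu'' : logHeight (fun i : (Finset.univ : Finset ι) => u' i) ≤
      Module.finrank ℚ L * absLogHeight u := by
    have h1 : u = fun i => φ (u' i) := funext fun i => (hu' i).symm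
    rw [h1, absLogHeight_eq]
    rw [mul_div_cancel₀ _ hd0.ne']
    exact logHeight_comp_le (fun i : (Finset.univ : Finset ι) => (i : ι)) u'
  have hC0 : 0 ≤ Real.log A + absLogHeight u := add_nonneg (Real.log_nonneg hA)
    (absLogHeight_nonneg _)
  obtain ⟨lam, hlam1, hlam2⟩ := blocks (fun j => (c j : L) * (z' j * u' j * t' ^ b j)) b η
    (Real.log A + absLogHeight u) hη0 hC0 Finset.univ (by
      intro F L' U hFS hF hd hF0 p q hL hU hpq hgap
      refine gap2 Finset.univ F L' U hFS hF hd c z' hru u' hu'0 t' ht'0 b hF0 p q hL hU hpq A hA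
        ?_ ?_
      · exact (Finset.sum_le_sum_of_subset_of_nonneg hFS fun i _ _ => by positivity).trans hA'
      · rw [← hη']
        nlinarith) Finset.univ subset_rfl (by
      apply φ.injective
      rw [hφf, map_zero]
      exact h0)
  refine ⟨lam, fun l => ?_, fun i j h => ?_⟩
  · rw [← hφf, hlam1, map_zero]
  · have h1 := hlam2 i (Finset.mem_univ _) j (Finset.mem_univ _) h
    rw [Finset.card_univ] at h1
    rw [← hη]
    exact_mod_cast h1

end Pool.Agent.R870.AP
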