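import Pool.Agent.R870.AP.Div1

/-!
# Relations between algebraic numbers close to a division group of rank one
-/

set_option autoImplicit false

namespace Pool.Agent.R870.AP

open Pool.Agent.Helper259.AbsHt NumberField Height

/-- the normal vector -/
def nv {ι : Type} {δ : ℕ} (p : ℤ → Fin δ → ℚ) (q : ι → ℤ) (W : Fin δ × ι → ℤ) (α : ι) : ℚ :=
  ∑ i, p (q α) i * (W (i, α) : ℚ)

open Classical in
/-- the exceptional vectors -/
noncomputable def DivE (ι : Type) [Fintype ι] [DecidableEq ι] {δ : ℕ} (p : ℤ → Fin δ → ℚ)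
    (H P Q : ℕ) : Finset (ι → ℤ) :=
  (bxx ι Q).biUnion fun q => ((bxx (Fin δ × ι) P).filter fun W => nv p q W ≠ 0).biUnion fun W =>
    (bxx ι H).filter fun c => ∑ i, (c i : ℚ) * nv p q W i = 0

theorem mem_DivE {ι : Type} [Fintype ι] [DecidableEq ι] {δ : ℕ} (p : ℤ → Fin δ → ℚ)
    {H P Q : ℕ} {c : ι → ℤ} (hc : ∀ x, |c x| ≤ H) (q : ι → ℤ) (W : Fin δ × ι → ℤ)
    (hq : ∀ i, |q i| ≤ Q) (hW : nv p q W ≠ 0) (hP : ∀ i, |W i| ≤ P)
    (h : ∑ i, (c i : ℚ) * nv p q W i = 0) : c ∈ DivE ι p H P Q := by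
  classical
  rw [DivE, Finset.mem_biUnion]
  refine ⟨q, mem_bxx.2 hq, ?_⟩
  rw [Finset.mem_biUnion]
  exact ⟨W, Finset.mem_filter.2 ⟨mem_bxx.2 hP, hW⟩, Finset.mem_filter.2 ⟨mem_bxx.2 hc, h⟩⟩

theorem card_DivE {ι : Type} [Fintype ι] [DecidableEq ι] {δ : ℕ} (p : ℤ → Fin δ → ℚ)
    (H P Q : ℕ) : (DivE ι p H P Q).card * (2 * H + 1) ≤
    (2 * Q + 1) ^ Fintype.card ι * (2 * P + 1) ^ (δ * Fintype.card ι) *
      (2 * H + 1) ^ Fintype.card ι := by
  classical
  calc (DivE ι p H P Q).card * (2 * H + 1) ≤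
        (∑ q ∈ bxx ι Q, ∑ W ∈ (bxx (Fin δ × ι) P).filter fun W => nv p q W ≠ 0,
          ((bxx ι H).filter fun c => ∑ i, (c i : ℚ) * nv p q W i = 0).card) *
          (2 * H + 1) := by
        refine Nat.mul_le_mul_right _ (Finset.card_biUnion_le.trans ?_)
        exact Finset.sum_le_sum fun q _ => Finset.card_biUnion_le
    _ = ∑ q ∈ bxx ι Q, ∑ W ∈ (bxx (Fin δ × ι) P).filter fun W => nv p q W ≠ 0,
          ((bxx ι H).filter fun c => ∑ i, (c i : ℚ) * nv p q W i = 0).card *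
          (2 * H + 1) := by
        rw [Finset.sum_mul]
        exact Finset.sum_congr rfl fun q _ => Finset.sum_mul _ _ _
    _ ≤ ∑ q ∈ bxx ι Q, ∑ _W ∈ (bxx (Fin δ × ι) P).filter fun W => nv p q W ≠ 0,
          (2 * H + 1) ^ Fintype.card ι := by
        refine Finset.sum_le_sum fun q _ => Finset.sum_le_sum fun W hW => ?_
        exact card_hyperQ (nv p q W) (Finset.mem_filter.1 hW).2 H
    _ ≤ ∑ _q ∈ bxx ι Q, (2 * P + 1) ^ (δ * Fintype.card ι) * (2 * H + 1) ^ Fintype.card ι := by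
        refine Finset.sum_le_sum fun q _ => ?_
        rw [Finset.sum_const, smul_eq_mul]
        refine Nat.mul_le_mul_right _ ((Finset.card_filter_le _ _).trans ?_)
        rw [card_bxx, Fintype.card_prod, Fintype.card_fin]
    _ = _ := by
        rw [Finset.sum_const, smul_eq_mul, card_bxx]
        ring

/-- the element lies in the division group of the group generated by `g` -/
def InD (g x : Qbar) : Prop := ∃ n : ℕ, 0 < n ∧ ∃ a : ℤ, x ^ n = g ^ a

theorem div_mem (g : Qbar) (hg : g ≠ 0) (hη : 0 < ht g) {δ : ℕ} (p : ℤ → Fin δ → ℚ)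
    (hp1 : ∀ s : ℤ, g ^ s = ∑ i, (p s i : Qbar) * g ^ (i : ℕ))
    (hp2 : ∀ i i' : Fin δ, p (i : ℕ) i' = if i' = i then 1 else 0)
    {ι : Type} [Fintype ι] [DecidableEq ι] [Nonempty ι] (H : ℕ)
    (c : ι → ℤ) (hc : ∀ j, |c j| ≤ H) (γ u : ι → Qbar) (hγ : ∀ j, InD g (γ j))
    (hu0 : ∀ j, u j ≠ 0) (U : ℝ) (hU : ∀ j, ht (u j) ≤ U)
    (h0 : ∑ j, (c j : Qbar) * (γ j * u j) = 0) (P Q Q' : ℕ)
    (hQ : Fintype.card ι * (Real.log (Fintype.card ι * H + 1) + Fintype.card ι * U) / ht g + 1 ≤ Q)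
    (hQ' : 2 * Q + δ ≤ Q')
    (hP : ((δ * Fintype.card ι : ℕ) : ℝ) ^ (2 * (δ * Fintype.card ι)) *
      Real.exp ((δ * Fintype.card ι : ℕ) * ((δ * Fintype.card ι : ℕ) *
        (δ * ht g + (ht g + U)))) ≤ P) :
    c ∈ DivE ι p H P Q' := by
  classical
  obtain ⟨j0⟩ := ‹Nonempty ι›
  have hU0 : 0 ≤ U := (ht_nonneg _).trans (hU j0)
  choose n hn a ha using hγ
  obtain ⟨M, hM⟩ : ∃ M : ℕ, M = ∏ j, n j := ⟨_, rfl⟩
  have hM0 : 0 < M := by rw [hM]; exact Finset.prod_pos fun j _ => hn j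
  have hdvd : ∀ j, n j ∣ M := fun j => by
    rw [hM]
    exact Finset.dvd_prod_of_mem n (Finset.mem_univ j)
  choose k hk using hdvd
  have hγ0 : ∀ j, γ j ≠ 0 := by
    intro j h
    have h1 := ha j
    rw [h, zero_pow (hn j).ne'] at h1
    exact zpow_ne_zero _ hg h1.symm
  have hγM : ∀ j, γ j ^ M = g ^ (a j * k j) := by
    intro j
    rw [hk j, pow_mul, ha j, zpow_mul, zpow_natCast]
  obtain ⟨t, ht⟩ := IsAlgClosed.exists_pow_nat_eq g hM0
  have ht0 : t ≠ 0 := by
    rintro rfl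
    rw [zero_pow hM0.ne'] at ht
    exact hg ht.symm
  obtain ⟨b, hb⟩ : ∃ b : ι → ℤ, ∀ j, b j = a j * k j := ⟨_, fun _ => rfl⟩
  have htg : (M : ℝ) * AP.ht t = AP.ht g := by
    rw [← ht, ht_pow]
  have htt0 : 0 ≤ AP.ht t := ht_nonneg t
  have hM0' : (0 : ℝ) < M := by exact_mod_cast hM0
  -- the roots of unity
  have hz : ∀ j, RU (γ j / t ^ b j) := by
    intro j
    refine ⟨M, hM0, ?_⟩
    rw [div_pow, hγM, ← hb, ← zpow_natCast (t ^ b j), ← zpow_mul, mul_comm (b j), zpow_mul,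
      zpow_natCast, ht, div_self (zpow_ne_zero _ hg)]
  have hA0 : (0 : ℝ) ≤ Fintype.card ι * H := by positivity
  have hsum : ∑ j, (c j : Qbar) * (γ j / t ^ b j * u j * t ^ b j) = 0 := by
    rw [← h0]
    refine Finset.sum_congr rfl fun j _ => ?_
    have := zpow_ne_zero (b j) ht0
    field_simp
  have hcH : ∑ j, (|c j| : ℝ) ≤ Fintype.card ι * H + 1 := by
    have h1 : ∑ j, (|c j| : ℝ) ≤ ∑ _j : ι, (H : ℝ) := by
      refine Finset.sum_le_sum fun j _ => ?_
      exact_mod_cast hc j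
    rw [Finset.sum_const, Finset.card_univ, nsmul_eq_mul] at h1
    linarith
  obtain ⟨lam, hlam1, hlam2⟩ := splitG c u hu0 (fun j => γ j / t ^ b j) hz t ht0 b
    hsum (Fintype.card ι * H + 1) (by linarith) hcH
  have huh : absLogHeight u ≤ Fintype.card ι * U := by
    refine (height_le_sum _).trans ?_
    calc ∑ j, AP.ht (u j) ≤ ∑ _j : ι, U := Finset.sum_le_sum fun j _ => hU j
      _ = Fintype.card ι * U := by
          rw [Finset.sum_const, Finset.card_univ, nsmul_eq_mul]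
  obtain ⟨T, hT⟩ : ∃ T, T = Finset.univ.filter (fun j => lam j = lam j0) := ⟨_, rfl⟩
  have hmT : ∀ j, j ∈ T ↔ lam j = lam j0 := fun j => by
    rw [hT, Finset.mem_filter]
    simp
  have hMZ : (0 : ℤ) < M := by exact_mod_cast hM0
  obtain ⟨d, hd⟩ : ∃ d : ι → ℤ, ∀ j, d j = b j - b j0 := ⟨_, fun _ => rfl⟩
  obtain ⟨q, hq⟩ : ∃ q : ι → ℤ, ∀ j, q j = if j ∈ T then d j / M else 0 := ⟨_, fun _ => rfl⟩
  obtain ⟨y, hy⟩ : ∃ y : ι → Qbar, ∀ j, y j = if j ∈ T then
      (γ j / t ^ b j) * (u j * t ^ (d j % M)) else 0 := ⟨_, fun _ => rfl⟩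
  have hqQ : ∀ j, |q j| ≤ Q := by
    intro j
    rw [hq]
    by_cases hj : j ∈ T
    · rw [if_pos hj]
      have h1 := hlam2 j j0 ((hmT j).1 hj)
      have h2 : |(d j : ℝ)| * AP.ht t ≤
          Fintype.card ι * (Real.log (Fintype.card ι * H + 1) + Fintype.card ι * U) := by
        have h3 : (d j : ℝ) = (b j : ℝ) - b j0 := by rw [hd]; push_cast; ring
        rw [h3]
        refine h1.trans ?_
        refine mul_le_mul_of_nonneg_left ?_ (by positivity)
        linarith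
      have h3 : |(d j : ℝ)| / M ≤
          Fintype.card ι * (Real.log (Fintype.card ι * H + 1) + Fintype.card ι * U) / AP.ht g := by
        rw [div_le_div_iff₀ hM0' hη, ← htg]
        nlinarith
      have h4 : |((d j / (M : ℤ) : ℤ) : ℝ)| ≤ |(d j : ℝ)| / M + 1 := by
        have h5 : (d j : ℝ) = M * ((d j / (M : ℤ) : ℤ) : ℝ) + ((d j % (M : ℤ) : ℤ) : ℝ) := by
          have := Int.mul_ediv_add_emod (d j) M
          exact_mod_cast this.symm
        have h6 : (0 : ℝ) ≤ ((d j % (M : ℤ) : ℤ) : ℝ) := by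
          exact_mod_cast Int.emod_nonneg _ hMZ.ne'
        have h7 : ((d j % (M : ℤ) : ℤ) : ℝ) < M := by
          exact_mod_cast Int.emod_lt_of_pos _ hMZ
        have h8 : ((d j / (M : ℤ) : ℤ) : ℝ) = (d j : ℝ) / M - ((d j % (M : ℤ) : ℤ) : ℝ) / M := by
          field_simp
          linarith
        have h9 : 0 ≤ ((d j % (M : ℤ) : ℤ) : ℝ) / M := div_nonneg h6 hM0'.le
        have h10 : ((d j % (M : ℤ) : ℤ) : ℝ) / M ≤ 1 := by
          rw [div_le_one hM0']
          exact h7.le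
        have h11 : |(d j : ℝ)| / M = |(d j : ℝ) / M| := by
          rw [abs_div, abs_of_pos hM0']
        rw [h8, h11]
        refine (abs_sub _ _).trans ?_
        rw [abs_of_nonneg h9]
        linarith
      have h5 : |((d j / (M : ℤ) : ℤ) : ℝ)| ≤ Q := by linarith
      exact_mod_cast h5
    · rw [if_neg hj, abs_zero]
      exact Int.natCast_nonneg _
  have hyj0 : y j0 ≠ 0 := by
    rw [hy, if_pos ((hmT j0).2 rfl)]
    exact mul_ne_zero (div_ne_zero (hγ0 _) (zpow_ne_zero _ ht0))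
      (mul_ne_zero (hu0 _) (zpow_ne_zero _ ht0))
  have hyh : ∀ j, AP.ht (y j) ≤ AP.ht g + U := by
    intro j
    rw [hy]
    by_cases hj : j ∈ T
    · rw [if_pos hj, ht_ru _ _ (hz j)]
      refine (ht_mul_le _ _).trans ?_
      rw [ht_zpow, add_comm]
      refine add_le_add ?_ (hU j)
      have h6 : (0 : ℝ) ≤ ((d j % (M : ℤ) : ℤ) : ℝ) := by
        exact_mod_cast Int.emod_nonneg _ hMZ.ne'
      have h7 : ((d j % (M : ℤ) : ℤ) : ℝ) < M := by
        exact_mod_cast Int.emod_lt_of_pos _ hMZ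
      rw [abs_of_nonneg h6, ← htg]
      exact mul_le_mul_of_nonneg_right h7.le htt0
    · rw [if_neg hj, ht_zero]
      positivity
  have hrel : ∑ j, (c j : Qbar) * (g ^ q j * y j) = 0 := by
    have h3 := hlam1 (lam j0)
    rw [← hT] at h3
    have h4 : ∑ j, (c j : Qbar) * (g ^ q j * y j) =
        ∑ j ∈ T, (c j : Qbar) * (g ^ q j * y j) := by
      symm
      refine Finset.sum_subset (Finset.subset_univ _) fun j _ hj => ?_
      rw [hy, if_neg hj, mul_zero, mul_zero]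
    have h5 : ∑ j ∈ T, (c j : Qbar) * (γ j / t ^ b j * u j * t ^ b j) =
        t ^ b j0 * ∑ j ∈ T, (c j : Qbar) * (g ^ q j * y j) := by
      rw [Finset.mul_sum]
      refine Finset.sum_congr rfl fun j hj => ?_
      have h6 : t ^ b j = t ^ b j0 * (g ^ (d j / (M : ℤ)) * t ^ (d j % (M : ℤ))) := by
        rw [← ht, ← zpow_natCast t, ← zpow_mul, ← zpow_add₀ ht0, ← zpow_add₀ ht0,
          Int.mul_ediv_add_emod, hd]
        congr 1
        ring
      rw [hq, hy, if_pos hj, if_pos hj]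
      calc (c j : Qbar) * (γ j / t ^ b j * u j * t ^ b j) =
          (c j : Qbar) * (γ j / t ^ b j * u j) * (t ^ b j) := by ring
        _ = (c j : Qbar) * (γ j / t ^ b j * u j) *
            (t ^ b j0 * (g ^ (d j / (M : ℤ)) * t ^ (d j % (M : ℤ)))) := by
            congr 1
        _ = _ := by ring
    rw [h5] at h3
    rw [h4]
    exact (mul_eq_zero.1 h3).resolve_left (zpow_ne_zero _ ht0)
  -- the vector of all products
  have hδ : 0 < δ := by
    rcases Nat.eq_zero_or_pos δ with h | h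
    · subst h
      have := hp1 0
      simp at this
    · exact h
  obtain ⟨Y, hY⟩ : ∃ Y : Fin δ × ι → Qbar, ∀ x, Y x = g ^ (x.1 : ℕ) * y x.2 := ⟨_, fun _ => rfl⟩
  have hY0 : Y ≠ 0 := by
    intro h
    have h1 := congrFun h (⟨0, hδ⟩, j0)
    rw [hY] at h1
    exact mul_ne_zero (pow_ne_zero _ hg) hyj0 h1
  have hYh : absLogHeight Y ≤ (δ * Fintype.card ι : ℕ) * (δ * AP.ht g + (AP.ht g + U)) := by
    refine (height_le_sum _).trans ?_
    calc ∑ x, AP.ht (Y x) ≤ ∑ _x : Fin δ × ι, (δ * AP.ht g + (AP.ht g + U)) := by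
          refine Finset.sum_le_sum fun x _ => ?_
          rw [hY]
          refine (ht_mul_le _ _).trans (add_le_add ?_ (hyh _))
          rw [ht_pow]
          refine mul_le_mul_of_nonneg_right ?_ hη.le
          exact_mod_cast x.1.2.le
      _ = _ := by
          rw [Finset.sum_const, Finset.card_univ, Fintype.card_prod, Fintype.card_fin,
            nsmul_eq_mul]
  obtain ⟨W, hW0, hWB, hW⟩ := descendQ Y hY0
  rw [Fintype.card_prod, Fintype.card_fin] at hWB
  obtain ⟨⟨i1, α1⟩, hW1⟩ := Function.ne_iff.1 hW0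
  obtain ⟨m, hm⟩ : ∃ m : ℤ, m = (i1 : ℕ) - q α1 := ⟨_, rfl⟩
  have hnv : nv p (fun α => q α + m) W α1 = W (i1, α1) := by
    rw [nv]
    have h1 : q α1 + m = ((i1 : ℕ) : ℤ) := by rw [hm]; ring
    rw [h1, Finset.sum_eq_single i1]
    · rw [hp2, if_pos rfl, one_mul]
    · intro i _ hi
      rw [hp2, if_neg hi, zero_mul]
    · intro h
      exact absurd (Finset.mem_univ _) h
  refine mem_DivE p hc (fun α => q α + m) W (fun α => ?_) (fun h => ?_) (fun x => ?_) ?_
  · have h1 := abs_le.1 (hqQ α)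
    have h2 := abs_le.1 (hqQ α1)
    have h3 := i1.2
    rw [abs_le]
    constructor <;> omega
  · have h1 := congrFun h α1
    rw [hnv, Pi.zero_apply] at h1
    exact hW1 (by rw [Pi.zero_apply]; exact_mod_cast h1)
  · have h1 : (|W x| : ℝ) ≤ P := by
      refine (hWB x).trans (le_trans ?_ hP)
      refine mul_le_mul_of_nonneg_left (Real.exp_le_exp.2 ?_) (by positivity)
      exact mul_le_mul_of_nonneg_left hYh (by positivity)
    exact_mod_cast h1
  · have h1 := hW (fun x => (c x.2 : ℚ) * p (q x.2 + m) x.1) (by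
      rw [Fintype.sum_prod_type_right]
      have h2 : ∀ α : ι, ∑ i : Fin δ, (((c α : ℚ) * p (q α + m) i : ℚ) : Qbar) * Y (i, α) =
          g ^ m * ((c α : Qbar) * (g ^ q α * y α)) := by
        intro α
        have h3 : g ^ m * ((c α : Qbar) * (g ^ q α * y α)) =
            (c α : Qbar) * (g ^ (q α + m) * y α) := by
          rw [zpow_add₀ hg]
          ring
        rw [h3, hp1, Finset.sum_mul, Finset.mul_sum]
        refine Finset.sum_congr rfl fun i _ => ?_
        rw [hY]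
        push_cast
        ring
      rw [Finset.sum_congr rfl fun α _ => h2 α, ← Finset.mul_sum, hrel, mul_zero])
    rw [Fintype.sum_prod_type_right] at h1
    rw [← h1]
    refine Finset.sum_congr rfl fun α _ => ?_
    rw [nv, Finset.mul_sum]
    refine Finset.sum_congr rfl fun i _ => ?_
    ring

end Pool.Agent.R870.AP
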