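import Pool.Agent.R870.AP.Div2
import Pool.Agent.R870.RZ.Defs

/-!
# Systems of Laurent polynomials and the points close to a division group of rank one
-/

set_option autoImplicit false

namespace Pool.Agent.R870.AP

open Pool.Agent.Helper259.AbsHt NumberField Height
open Pool.Agent.R870.RZ (Coeff)

open IntermediateField in
theorem abs1_general {K : Type} [Field K] [CharZero K] (x : K) (hx : IsIntegral ℚ x)
    [NumberField ℚ⟮x⟯] (φ : K →+* Qbar) : NumberField.absLogHeight₁ x = ht (φ x) := by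
  unfold NumberField.absLogHeight₁ NumberField.absMulHeight₁
  rw [dif_pos hx]
  have h1 := ht_eq ℚ⟮x⟯ (φ.comp (algebraMap ℚ⟮x⟯ K)) (AdjoinSimple.gen ℚ x)
  have e : (φ.comp (algebraMap ℚ⟮x⟯ K)) (AdjoinSimple.gen ℚ x) = φ x := by
    simp
  rw [e] at h1
  rw [Real.log_rpow (mulHeight₁_pos _), ← logHeight₁_eq_log_mulHeight₁, h1]
  rw [div_eq_inv_mul]

theorem abs1_eq (x : Qbar) : NumberField.absLogHeight₁ x = ht x := by
  have hx0 : @IsIntegral ℚ Qbar _ _ (DivisionRing.toRatAlgebra) x := by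
    have halg : Algebra.IsAlgebraic ℚ Qbar := AlgebraicClosure.isAlgebraic ℚ
    have : IsIntegral ℚ x := (Algebra.IsAlgebraic.isAlgebraic x).isIntegral
    convert this
  have hfd := IntermediateField.adjoin.finiteDimensional hx0
  have hnf : @NumberField (@IntermediateField.adjoin ℚ _ Qbar _ DivisionRing.toRatAlgebra {x}) _ :=
    { to_charZero := inferInstance
      to_finiteDimensional := by convert hfd }
  exact abs1_general x hx0 (RingHom.id Qbar)

theorem div_count (η : ℝ) (hη : 0 < η) (δ ν D : ℕ) :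
    ∃ C κ : ℝ, 0 ≤ C ∧ 0 ≤ κ ∧ ∀ (H : ℕ) (B : ℝ), 0 ≤ B → ∃ P Q Q' : ℕ,
      (ν * (Real.log (ν * H + 1) + ν * (D * B)) / η + 1 ≤ Q) ∧ 2 * Q + δ ≤ Q' ∧
      (((δ * ν : ℕ) : ℝ) ^ (2 * (δ * ν)) *
        Real.exp ((δ * ν : ℕ) * ((δ * ν : ℕ) * (δ * η + (η + D * B)))) ≤ P) ∧
      (2 * (Q' : ℝ) + 1) ^ ν * (2 * (P : ℝ) + 1) ^ (δ * ν) ≤
        C * Real.exp (κ * B) * Real.log (H + 2) ^ ν := by
  obtain ⟨μ, hμ⟩ : ∃ μ : ℕ, μ = δ * ν := ⟨_, rfl⟩
  rw [← hμ]
  obtain ⟨K, hK⟩ : ∃ K : ℝ, K = ν * (2 * Real.log (ν + 1) + 1 + 2 * ν * D) / η := ⟨_, rfl⟩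
  obtain ⟨K', hK'⟩ : ∃ K' : ℝ, K' = (μ : ℝ) ^ (2 * μ) * Real.exp (μ * (μ * (δ * η + η))) :=
    ⟨_, rfl⟩
  have hlN : 0 ≤ Real.log ((ν : ℝ) + 1) := Real.log_nonneg (by
    have : (0 : ℝ) ≤ ν := Nat.cast_nonneg _
    linarith)
  have hK0 : 0 ≤ K := by rw [hK]; positivity
  have hK'0 : 0 ≤ K' := by rw [hK']; positivity
  refine ⟨(4 * K + 20 + 4 * δ) ^ ν * (2 * K' + 3) ^ μ, ν + μ * (μ * (μ * D)), by positivity,
    by positivity, fun H B hB => ?_⟩
  obtain ⟨P, hP⟩ : ∃ P : ℕ, P = ⌈(μ : ℝ) ^ (2 * μ) *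
    Real.exp (μ * (μ * (δ * η + (η + D * B))))⌉₊ := ⟨_, rfl⟩
  obtain ⟨Q, hQ⟩ : ∃ Q : ℕ, Q = ⌈ν * (Real.log (ν * H + 1) + ν * (D * B)) / η + 1⌉₊ := ⟨_, rfl⟩
  refine ⟨P, Q, 2 * Q + δ, ?_, le_rfl, ?_, ?_⟩
  · rw [hQ]; exact Nat.le_ceil _
  · rw [hP]; exact Nat.le_ceil _
  obtain ⟨l, hl⟩ : ∃ l : ℝ, l = Real.log (H + 2) := ⟨_, rfl⟩
  rw [← hl]
  have hH0 : (0 : ℝ) ≤ H := Nat.cast_nonneg _
  have hN0 : (0 : ℝ) ≤ ν := Nat.cast_nonneg _
  have hl1 : 1 ≤ 2 * l := by
    have h1 : Real.log 2 ≤ l := by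
      rw [hl]
      exact Real.log_le_log (by norm_num) (by linarith)
    have h2 := Real.log_two_gt_d9
    linarith
  have hl0 : 0 ≤ l := by linarith
  have hexpB : B + 1 ≤ Real.exp B := Real.add_one_le_exp B
  have hexp1 : 1 ≤ Real.exp B := by linarith
  have hlog : Real.log (ν * H + 1) ≤ (2 * Real.log (ν + 1) + 1) * l := by
    have h1 : Real.log (ν * H + 1) ≤ Real.log ((ν + 1) * (H + 2)) :=
      Real.log_le_log (by positivity) (by nlinarith)
    rw [Real.log_mul (by positivity) (by positivity), ← hl] at h1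
    nlinarith
  have hlE : l ≤ l * Real.exp B := le_mul_of_one_le_right (by linarith) hexp1
  have hlE1 : 1 ≤ 2 * (l * Real.exp B) := by linarith
  have hQb : (2 * ((2 * Q + δ : ℕ) : ℝ) + 1) ≤ (4 * K + 20 + 4 * δ) * (l * Real.exp B) := by
    have h1 : (Q : ℝ) ≤ ν * (Real.log (ν * H + 1) + ν * (D * B)) / η + 1 + 1 := by
      rw [hQ]
      refine (Nat.ceil_lt_add_one ?_).le
      have : 0 ≤ Real.log ((ν : ℝ) * H + 1) := Real.log_nonneg (by nlinarith)
      positivity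
    have h2 : ν * (Real.log (ν * H + 1) + ν * (D * B)) / η ≤ K * (l * Real.exp B) := by
      rw [hK, div_mul_eq_mul_div]
      refine div_le_div_of_nonneg_right ?_ hη.le
      rw [mul_assoc]
      refine mul_le_mul_of_nonneg_left ?_ hN0
      have h3 : Real.log (ν * H + 1) ≤ (2 * Real.log (ν + 1) + 1) * (l * Real.exp B) :=
        hlog.trans (mul_le_mul_of_nonneg_left hlE (by linarith))
      have h4 : (ν : ℝ) * (D * B) ≤ 2 * ν * D * (l * Real.exp B) := by
        have h5 : B ≤ 2 * (l * Real.exp B) := by nlinarith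
        have h6 : (0 : ℝ) ≤ ν * D := by positivity
        nlinarith
      calc _ ≤ (2 * Real.log (ν + 1) + 1) * (l * Real.exp B) + 2 * ν * D * (l * Real.exp B) :=
            add_le_add h3 h4
        _ = _ := by ring
    have h5 : (δ : ℝ) ≤ 2 * δ * (l * Real.exp B) := by
      have : (0 : ℝ) ≤ δ := Nat.cast_nonneg _
      nlinarith
    push_cast
    linarith
  have hPb : (2 * (P : ℝ) + 1) ≤ (2 * K' + 3) * Real.exp (μ * (μ * (D * B))) := by
    have h1 : (P : ℝ) ≤ (μ : ℝ) ^ (2 * μ) * Real.exp (μ * (μ * (δ * η + (η + D * B)))) + 1 := by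
      rw [hP]
      exact (Nat.ceil_lt_add_one (by positivity)).le
    have h2 : (μ : ℝ) ^ (2 * μ) * Real.exp (μ * (μ * (δ * η + (η + D * B)))) =
        K' * Real.exp (μ * (μ * (D * B))) := by
      rw [hK', mul_assoc, ← Real.exp_add]
      congr 2
      ring
    have h3 : 1 ≤ Real.exp (μ * (μ * (D * B))) := Real.one_le_exp (by positivity)
    rw [h2] at h1
    nlinarith
  calc (2 * ((2 * Q + δ : ℕ) : ℝ) + 1) ^ ν * (2 * (P : ℝ) + 1) ^ μ ≤
        ((4 * K + 20 + 4 * δ) * (l * Real.exp B)) ^ ν *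
        ((2 * K' + 3) * Real.exp (μ * (μ * (D * B)))) ^ μ := by
        refine mul_le_mul (pow_le_pow_left₀ (by positivity) hQb ν)
          (pow_le_pow_left₀ (by positivity) hPb μ) (by positivity) (by positivity)
    _ = _ := by
        rw [mul_pow, mul_pow, mul_pow, ← Real.exp_nat_mul, ← Real.exp_nat_mul]
        have h2 : (ν + μ * (μ * (μ * D)) : ℝ) * B = ν * B + μ * (μ * (μ * (D * B))) := by ring
        rw [h2, Real.exp_add]
        ring

theorem ht_mon_le {n : ℕ} (w : Fin n → Qbar) (α : Fin n → ℤ) (D : ℕ) (hD : ∀ i, |α i| ≤ D) :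
    ht (∏ i, w i ^ α i) ≤ D * ∑ i, ht (w i) := by
  classical
  have key : ∀ T : Finset (Fin n), ht (∏ i ∈ T, w i ^ α i) ≤ ∑ i ∈ T, D * ht (w i) := by
    intro T
    induction T using Finset.induction_on with
    | empty => simp [ht_one]
    | insert j T hj ih =>
      rw [Finset.prod_insert hj, Finset.sum_insert hj]
      refine (ht_mul_le _ _).trans (add_le_add ?_ ih)
      rw [ht_zpow]
      refine mul_le_mul_of_nonneg_right ?_ (ht_nonneg _)
      exact_mod_cast hD j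
  rw [Finset.mul_sum]
  exact key Finset.univ

theorem ind_mon {n : ℕ} (g : Qbar) (hg : g ≠ 0) (γ : Fin n → Qbar) (hγ : ∀ l, InD g (γ l))
    (α : Fin n → ℤ) : InD g (∏ i, γ i ^ α i) := by
  classical
  have key : ∀ T : Finset (Fin n), InD g (∏ i ∈ T, γ i ^ α i) := by
    intro T
    induction T using Finset.induction_on with
    | empty => exact ⟨1, one_pos, 0, by simp⟩
    | insert j T hj ih =>
      rw [Finset.prod_insert hj]
      obtain ⟨n1, hn1, a1, h1⟩ := ih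
      obtain ⟨n2, hn2, a2, h2⟩ := hγ j
      refine ⟨n1 * n2, Nat.mul_pos hn1 hn2, a2 * α j * n1 + a1 * n2, ?_⟩
      have e1 : (γ j ^ α j) ^ (n1 * n2) = g ^ (a2 * α j * n1) := by
        rw [← zpow_natCast, ← zpow_mul]
        have h3 : α j * ((n1 * n2 : ℕ) : ℤ) = (n2 : ℤ) * (α j * n1) := by
          push_cast
          ring
        rw [h3, zpow_mul, zpow_natCast, h2, ← zpow_mul]
        congr 1
        ring
      have e2 : (∏ i ∈ T, γ i ^ α i) ^ (n1 * n2) = g ^ (a1 * n2) := by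
        rw [pow_mul, h1, ← zpow_natCast, ← zpow_mul]
      rw [mul_pow, e1, e2, ← zpow_add₀ hg]
  exact key Finset.univ

/-- Systems of Laurent polynomials and points close to a division group of rank one. -/
theorem div_main {n k : ℕ} (g : Qbar) (hg : g ≠ 0) (hη : 0 < ht g)
    (A : Fin k → Finset (Fin n → ℤ)) (hA : ∀ j, (A j).Nonempty) :
    ∃ C κ : ℝ, ∀ (H : ℕ) (B : ℝ), 0 ≤ B → ∃ E : Finset (Coeff A → ℤ),
      (E.card : ℝ) * (2 * H + 1) ^ k ≤ C * Real.exp (κ * B) *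
        Real.log (H + 2) ^ (∑ j, (A j).card) * (2 * H + 1) ^ ∑ j, (A j).card ∧
      ∀ c : Coeff A → ℤ, (∀ i, |c i| ≤ H) → c ∉ E →
        ∀ γ w : Fin n → Qbar, (∀ l, InD g (γ l)) → (∀ l, w l ≠ 0) →
          (∀ j, ∑ α : {α // α ∈ A j}, (c ⟨j, α⟩ : Qbar) *
            ∏ l, (γ l * w l) ^ (α : Fin n → ℤ) l = 0) →
          B < ∑ l, ht (w l) := by
  classical
  obtain ⟨δ, p, hp1, hp2⟩ := exists_coeff g hg
  obtain ⟨D, hD⟩ : ∃ D : ℕ, ∀ j, ∀ α ∈ A j, ∀ i, |α i| ≤ D := by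
    refine ⟨∑ j, ∑ α ∈ A j, ∑ i, (α i).natAbs, fun j α hα i => ?_⟩
    have h1 : (α i).natAbs ≤ ∑ i, (α i).natAbs :=
      Finset.single_le_sum (f := fun i => (α i).natAbs) (fun _ _ => Nat.zero_le _)
        (Finset.mem_univ i)
    have h2 : ∑ i, (α i).natAbs ≤ ∑ α ∈ A j, ∑ i, (α i).natAbs :=
      Finset.single_le_sum (f := fun α : Fin n → ℤ => ∑ i, (α i).natAbs)
        (fun _ _ => Nat.zero_le _) hα
    have h3 : ∑ α ∈ A j, ∑ i, (α i).natAbs ≤ ∑ j, ∑ α ∈ A j, ∑ i, (α i).natAbs :=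
      Finset.single_le_sum (f := fun j => ∑ α ∈ A j, ∑ i, (α i).natAbs)
        (fun _ _ => Nat.zero_le _) (Finset.mem_univ j)
    rw [Int.abs_eq_natAbs]
    exact_mod_cast h1.trans (h2.trans h3)
  choose C κ hC0 hκ0 hC using fun j : Fin k => div_count (ht g) hη δ (A j).card D
  refine ⟨∏ j, C j, ∑ j, κ j, fun H B hB => ?_⟩
  choose P Q Q' hQ hQ' hP hcard using fun j => hC j H B hB
  refine ⟨(Fintype.piFinset fun j => DivE {α // α ∈ A j} p H (P j) (Q' j)).image
    fun (c : (j : Fin k) → {α // α ∈ A j} → ℤ) (x : Coeff A) => c x.1 x.2, ?_, ?_⟩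
  · have h1 : (((Fintype.piFinset fun j => DivE {α // α ∈ A j} p H (P j) (Q' j)).image
        fun (c : (j : Fin k) → {α // α ∈ A j} → ℤ) (x : Coeff A) => c x.1 x.2).card : ℝ) ≤
        ∏ j, ((DivE {α // α ∈ A j} p H (P j) (Q' j)).card : ℝ) := by
      have h2 := Finset.card_image_le (s := Fintype.piFinset fun j =>
        DivE {α // α ∈ A j} p H (P j) (Q' j)) (f := fun (c : (j : Fin k) →
          {α // α ∈ A j} → ℤ) (x : Coeff A) => c x.1 x.2)
      rw [Fintype.card_piFinset] at h2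
      exact_mod_cast h2
    have hl0 : 0 ≤ Real.log ((H : ℝ) + 2) := Real.log_nonneg (by
      have : (0 : ℝ) ≤ H := Nat.cast_nonneg _
      linarith)
    calc _ ≤ (∏ j, ((DivE {α // α ∈ A j} p H (P j) (Q' j)).card : ℝ)) * (2 * H + 1) ^ k :=
          mul_le_mul_of_nonneg_right h1 (by positivity)
      _ = ∏ j, (((DivE {α // α ∈ A j} p H (P j) (Q' j)).card : ℝ) * (2 * H + 1)) := by
          rw [Finset.prod_mul_distrib, Finset.prod_const, Finset.card_univ, Fintype.card_fin]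
      _ ≤ ∏ j, (C j * Real.exp (κ j * B) * Real.log (H + 2) ^ (A j).card *
            (2 * H + 1) ^ (A j).card) := by
          refine Finset.prod_le_prod (fun j _ => by positivity) fun j _ => ?_
          have h2 := card_DivE (ι := {α // α ∈ A j}) p H (P j) (Q' j)
          rw [Fintype.card_coe] at h2
          have h3 : (((DivE {α // α ∈ A j} p H (P j) (Q' j)).card : ℝ) * (2 * H + 1)) ≤
              (2 * (Q' j : ℝ) + 1) ^ (A j).card * (2 * (P j : ℝ) + 1) ^ (δ * (A j).card) *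
                (2 * H + 1) ^ (A j).card := by
            exact_mod_cast h2
          exact h3.trans (mul_le_mul_of_nonneg_right (hcard j) (by positivity))
      _ = _ := by
          rw [Finset.prod_mul_distrib, Finset.prod_mul_distrib, Finset.prod_mul_distrib,
            Finset.prod_pow_eq_pow_sum, Finset.prod_pow_eq_pow_sum, ← Real.exp_sum,
            Finset.sum_mul]
  · intro c hc hcE γ w hγ hw h0
    by_contra hB'
    push Not at hB'
    apply hcE
    rw [Finset.mem_image]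
    refine ⟨fun j α => c ⟨j, α⟩, Fintype.mem_piFinset.2 fun j => ?_, rfl⟩
    have hne : Nonempty {α // α ∈ A j} := (hA j).to_subtype
    refine div_mem g hg hη p hp1 hp2 H (fun α => c ⟨j, α⟩) (fun α => hc _)
      (fun α => ∏ i, γ i ^ (α : Fin n → ℤ) i) (fun α => ∏ i, w i ^ (α : Fin n → ℤ) i)
      (fun α => ind_mon g hg γ hγ _)
      (fun α => Finset.prod_ne_zero_iff.2 fun i _ => zpow_ne_zero _ (hw i)) (D * B)
      (fun α => (ht_mon_le w _ D (hD j _ α.2)).trans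
        (mul_le_mul_of_nonneg_left hB' (Nat.cast_nonneg _))) ?_ (P j) (Q j) (Q' j) ?_ (hQ' j) ?_
    · rw [← h0 j]
      refine Finset.sum_congr rfl fun α _ => ?_
      rw [← Finset.prod_mul_distrib]
      congr 1
      exact Finset.prod_congr rfl fun i _ => (mul_zpow _ _ _).symm
    · rw [Fintype.card_coe]
      exact hQ j
    · rw [Fintype.card_coe]
      exact hP j

end Pool.Agent.R870.AP
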