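import Mathlib

/-!
# The gap principle for lacunary relations
-/

set_option autoImplicit false

namespace Pool.Agent.R870.AP

open NumberField Height

variable {K : Type} [Field K] [NumberField K]

theorem key (T s : K) (hT : T ≠ 0) (hs : s ≠ 0) (A : ℝ) (hA : 1 ≤ A)
    (hinf : ∀ v : InfinitePlace K, max (v T) 1 * v s ≤ A)
    (hfin : ∀ v : FinitePlace K, max (v T) 1 * v s ≤ 1) :
    logHeight₁ T ≤ Module.finrank ℚ K * Real.log A := by
  have h1 : mulHeight₁ T = (∏ v : InfinitePlace K, (max (v T) 1 * v s) ^ v.mult) *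
      ∏ᶠ v : FinitePlace K, (max (v T) 1 * v s) := by
    have hsup1 : (fun v : FinitePlace K => max (v T) 1).HasFiniteMulSupport := by
      refine Set.Finite.subset (FinitePlace.hasFiniteMulSupport hT) ?_
      intro v hv
      rw [Function.mem_mulSupport] at hv ⊢
      intro h
      apply hv
      rw [h, max_self]
    rw [finprod_mul_distrib hsup1 (FinitePlace.hasFiniteMulSupport hs)]
    simp only [mul_pow]
    rw [Finset.prod_mul_distrib, mul_mul_mul_comm, prod_abs_eq_one hs, mul_one,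
      NumberField.mulHeight₁_eq]
  have h2 : (∏ v : InfinitePlace K, (max (v T) 1 * v s) ^ v.mult) ≤ A ^ Module.finrank ℚ K := by
    rw [← InfinitePlace.sum_mult_eq (K := K), ← Finset.prod_pow_eq_pow_sum]
    refine Finset.prod_le_prod (fun v _ => ?_) fun v _ => ?_
    · exact pow_nonneg (mul_nonneg (le_max_of_le_right zero_le_one) (apply_nonneg v s)) _
    · exact pow_le_pow_left₀ (mul_nonneg (le_max_of_le_right zero_le_one) (apply_nonneg v s))
        (hinf v) _
  have h3 : ∏ᶠ v : FinitePlace K, (max (v T) 1 * v s) ≤ 1 := by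
    rcases Set.finite_or_infinite
      (Function.mulSupport fun v : FinitePlace K => max (v T) 1 * v s) with hf | hf
    · rw [finprod_eq_prod _ hf]
      exact Finset.prod_le_one (fun v _ => mul_nonneg (le_max_of_le_right zero_le_one)
        (apply_nonneg v s)) fun v _ => hfin v
    · rw [finprod_of_infinite_mulSupport hf]
  have h4 : mulHeight₁ T ≤ A ^ Module.finrank ℚ K := by
    rw [h1]
    have h5 : (0 : ℝ) ≤ ∏ v : InfinitePlace K, (max (v T) 1 * v s) ^ v.mult :=
      Finset.prod_nonneg fun v _ => pow_nonneg (mul_nonneg (le_max_of_le_right zero_le_one)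
        (apply_nonneg v s)) _
    calc _ ≤ (∏ v : InfinitePlace K, (max (v T) 1 * v s) ^ v.mult) * 1 :=
          mul_le_mul_of_nonneg_left h3 h5
      _ ≤ _ := by rw [mul_one]; exact h2
  rw [logHeight₁_eq_log_mulHeight₁, ← Real.log_pow]
  exact Real.log_le_log (mulHeight₁_pos T) h4

/-- root of unity -/
def RU {F : Type*} [Field F] (z : F) : Prop := ∃ m : ℕ, 0 < m ∧ z ^ m = 1

theorem RU.abs_eq {z : K} (hz : RU z) (v : AbsoluteValue K ℝ) : v z = 1 := by
  obtain ⟨m, hm, h⟩ := hz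
  have h1 : v z ^ m = 1 := by rw [← map_pow, h, map_one]
  exact (pow_eq_one_iff_of_nonneg (v.nonneg z) hm.ne').1 h1

theorem sum_arch {σ : Type} (F : Finset σ) (a : σ → ℤ) (y : σ → K) (v : InfinitePlace K)
    (hy : ∀ i ∈ F, v (y i) ≤ 1) : v (∑ i ∈ F, (a i : K) * y i) ≤ ∑ i ∈ F, (|a i| : ℝ) := by
  have h1 : v (∑ i ∈ F, (a i : K) * y i) ≤ ∑ i ∈ F, v ((a i : K) * y i) :=
    v.1.sum_le F _
  refine h1.trans (Finset.sum_le_sum fun i hi => ?_)
  rw [map_mul]
  have h2 : v (a i : K) = |(a i : ℝ)| := by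
    rw [← InfinitePlace.norm_embedding_eq, map_intCast]
    exact Complex.norm_intCast _
  rw [h2]
  exact mul_le_of_le_one_right (abs_nonneg _) (hy i hi)

theorem sum_fin {σ : Type} (F : Finset σ) (a : σ → ℤ) (y : σ → K) (v : FinitePlace K)
    (hy : ∀ i ∈ F, v (y i) ≤ 1) : v (∑ i ∈ F, (a i : K) * y i) ≤ 1 := by
  classical
  induction F using Finset.induction_on with
  | empty => simp
  | insert i F hi ih =>
    rw [Finset.sum_insert hi]
    refine (FinitePlace.add_le v _ _).trans (max_le ?_ (ih fun j hj =>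
      hy j (Finset.mem_insert_of_mem hj)))
    rw [map_mul]
    have h1 : v ((a i : ℤ) : K) ≤ 1 := by
      have h2 := FinitePlace.norm_le_one K v.maximalIdeal ((a i : ℤ) : 𝓞 K)
      have h3 : (((a i : ℤ) : 𝓞 K) : K) = ((a i : ℤ) : K) := by simp
      rw [← FinitePlace.norm_embedding_eq v, ← h3]
      exact h2
    exact mul_le_one₀ h1 (apply_nonneg v _) (hy i (Finset.mem_insert_self i F))

/-- The gap principle (Lenstra, Bombieri-Zannier). -/
theorem gap {σ : Type} [DecidableEq σ] (F L U : Finset σ) (hF : F = L ∪ U) (hd : Disjoint L U)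
    (a : σ → ℤ) (z : σ → K) (hz : ∀ i, RU (z i)) (t : K) (ht : t ≠ 0) (e : σ → ℤ)
    (hsum : ∑ i ∈ F, (a i : K) * (z i * t ^ e i) = 0) (p q : ℤ) (hL : ∀ i ∈ L, e i ≤ p)
    (hU : ∀ i ∈ U, q ≤ e i) (hpq : p ≤ q) (A : ℝ) (hA : 1 ≤ A)
    (hA' : ∑ i ∈ F, (|a i| : ℝ) ≤ A)
    (hgap : Module.finrank ℚ K * Real.log A < ((q - p : ℤ) : ℝ) * logHeight₁ t) :
    ∑ i ∈ L, (a i : K) * (z i * t ^ e i) = 0 := by
  classical
  by_contra hne
  subst hF
  rw [Finset.sum_union hd] at hsum
  obtain ⟨s, hs⟩ : ∃ s, s = -∑ i ∈ U, (a i : K) * (z i * t ^ (e i - q)) := ⟨_, rfl⟩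
  obtain ⟨s', hs'⟩ : ∃ s', s' = ∑ i ∈ L, (a i : K) * (z i * t ^ (e i - p)) := ⟨_, rfl⟩
  have h1 : ∑ i ∈ L, (a i : K) * (z i * t ^ e i) = t ^ p * s' := by
    rw [hs', Finset.mul_sum]
    refine Finset.sum_congr rfl fun i _ => ?_
    rw [zpow_sub₀ ht]
    field_simp
  have h2 : ∑ i ∈ U, (a i : K) * (z i * t ^ e i) = -(t ^ q * s) := by
    rw [hs, mul_neg, neg_neg, Finset.mul_sum]
    refine Finset.sum_congr rfl fun i _ => ?_
    rw [zpow_sub₀ ht]
    field_simp
  have hT : t ^ (q - p) ≠ 0 := zpow_ne_zero _ ht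
  have h3 : s' = t ^ (q - p) * s := by
    rw [h1, h2] at hsum
    have h4 : t ^ p * s' = t ^ q * s := by linear_combination hsum
    rw [zpow_sub₀ ht]
    have := zpow_ne_zero p ht
    field_simp
    linear_combination h4
  have hs0 : s ≠ 0 := by
    rintro rfl
    rw [mul_zero] at h3
    rw [h1, h3, mul_zero] at hne
    exact hne rfl
  have hAU : ∑ i ∈ U, (|a i| : ℝ) ≤ A := by
    refine le_trans ?_ hA'
    exact Finset.sum_le_sum_of_subset_of_nonneg Finset.subset_union_right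
      fun i _ _ => by positivity
  have hAL : ∑ i ∈ L, (|a i| : ℝ) ≤ A := by
    refine le_trans ?_ hA'
    exact Finset.sum_le_sum_of_subset_of_nonneg Finset.subset_union_left
      fun i _ _ => by positivity
  -- local estimates
  have hloc1 : ∀ v : AbsoluteValue K ℝ, 1 ≤ v t → ∀ i ∈ L, v (z i * t ^ (e i - p)) ≤ 1 := by
    intro v hv i hi
    rw [map_mul, (hz i).abs_eq, one_mul, map_zpow₀]
    exact zpow_le_one_of_nonpos₀ hv (by have := hL i hi; omega)
  have hloc2 : ∀ v : AbsoluteValue K ℝ, v t ≤ 1 → ∀ i ∈ U, v (z i * t ^ (e i - q)) ≤ 1 := by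
    intro v hv i hi
    rw [map_mul, (hz i).abs_eq, one_mul, map_zpow₀]
    have h4 : 0 ≤ e i - q := by have := hU i hi; omega
    obtain ⟨m, hm⟩ := Int.eq_ofNat_of_zero_le h4
    rw [hm, zpow_natCast]
    exact pow_le_one₀ (v.nonneg t) hv
  have hmax1 : ∀ v : AbsoluteValue K ℝ, 1 ≤ v t → max (v (t ^ (q - p))) 1 * v s = v s' := by
    intro v hv
    rw [h3, map_mul, max_eq_left]
    rw [map_zpow₀]
    exact one_le_zpow₀ hv (by omega)
  have hmax2 : ∀ v : AbsoluteValue K ℝ, v t ≤ 1 → max (v (t ^ (q - p))) 1 * v s = v s := by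
    intro v hv
    rw [max_eq_right, one_mul]
    rw [map_zpow₀]
    obtain ⟨m, hm⟩ := Int.eq_ofNat_of_zero_le (show 0 ≤ q - p by omega)
    rw [hm, zpow_natCast]
    exact pow_le_one₀ (v.nonneg t) hv
  have h5 := key (t ^ (q - p)) s hT hs0 A hA (fun v => by
    rcases le_total 1 (v.1 t) with hv | hv
    · have h6 := hmax1 v.1 hv
      have h7 := sum_arch L a (fun i => z i * t ^ (e i - p)) v (hloc1 v.1 hv)
      rw [← hs'] at h7
      exact (le_of_eq h6).trans (h7.trans hAL)
    · have h6 := hmax2 v.1 hv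
      have h7 := sum_arch U a (fun i => z i * t ^ (e i - q)) v (hloc2 v.1 hv)
      have h8 : v (∑ i ∈ U, (a i : K) * (z i * t ^ (e i - q))) = v s := by
        rw [hs]
        exact (map_neg_eq_map v.1 _).symm
      rw [h8] at h7
      exact (le_of_eq h6).trans (h7.trans hAU)) (fun v => by
    rcases le_total 1 (v.1 t) with hv | hv
    · have h6 := hmax1 v.1 hv
      have h7 := sum_fin L a (fun i => z i * t ^ (e i - p)) v (hloc1 v.1 hv)
      rw [← hs'] at h7
      exact (le_of_eq h6).trans h7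
    · have h6 := hmax2 v.1 hv
      have h7 := sum_fin U a (fun i => z i * t ^ (e i - q)) v (hloc2 v.1 hv)
      have h8 : v (∑ i ∈ U, (a i : K) * (z i * t ^ (e i - q))) = v s := by
        rw [hs]
        exact (map_neg_eq_map v.1 _).symm
      rw [h8] at h7
      exact (le_of_eq h6).trans h7)
  rw [logHeight₁_zpow] at h5
  have h6 : ((q - p).natAbs : ℝ) = ((q - p : ℤ) : ℝ) := by
    rw [Nat.cast_natAbs, abs_of_nonneg (by omega)]
  rw [h6] at h5
  linarith

end Pool.Agent.R870.AP
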