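import Pool.Agent.R870.AP.Gap

/-!
# The gap principle for lacunary relations with small algebraic multipliers
-/

set_option autoImplicit false

namespace Pool.Agent.R870.AP

open NumberField Height

variable {K : Type} [Field K] [NumberField K]

theorem key2 (T s : K) (hT : T ≠ 0) (hs : s ≠ 0) (A : ℝ) (hA : 1 ≤ A) {ι : Type} [Finite ι]
    [Nonempty ι] (u : ι → K) (hu : ∀ i, u i ≠ 0)
    (hinf : ∀ v : InfinitePlace K, max (v T) 1 * v s ≤ A * ⨆ i, v (u i))
    (hfin : ∀ v : FinitePlace K, max (v T) 1 * v s ≤ ⨆ i, v (u i)) :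
    logHeight₁ T ≤ Module.finrank ℚ K * Real.log A + logHeight u := by
  have hu0 : u ≠ 0 := by
    obtain ⟨i⟩ := ‹Nonempty ι›
    intro h
    exact hu i (congrFun h i)
  have hsup1 : (fun v : FinitePlace K => max (v T) 1).HasFiniteMulSupport := by
    refine Set.Finite.subset (FinitePlace.hasFiniteMulSupport hT) ?_
    intro v hv
    rw [Function.mem_mulSupport] at hv ⊢
    intro h
    apply hv
    rw [h, max_self]
  have hsup2 : (fun v : FinitePlace K => ⨆ i, v (u i)).HasFiniteMulSupport :=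
    Function.HasFiniteMulSupport.iSup fun i => FinitePlace.hasFiniteMulSupport (hu i)
  have h1 : mulHeight₁ T = (∏ v : InfinitePlace K, (max (v T) 1 * v s) ^ v.mult) *
      ∏ᶠ v : FinitePlace K, (max (v T) 1 * v s) := by
    rw [finprod_mul_distrib hsup1 (FinitePlace.hasFiniteMulSupport hs)]
    simp only [mul_pow]
    rw [Finset.prod_mul_distrib, mul_mul_mul_comm, prod_abs_eq_one hs, mul_one,
      NumberField.mulHeight₁_eq]
  have h2 : (∏ v : InfinitePlace K, (max (v T) 1 * v s) ^ v.mult) ≤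
      A ^ Module.finrank ℚ K * ∏ v : InfinitePlace K, (⨆ i, v (u i)) ^ v.mult := by
    rw [← InfinitePlace.sum_mult_eq (K := K), ← Finset.prod_pow_eq_pow_sum,
      ← Finset.prod_mul_distrib]
    refine Finset.prod_le_prod (fun v _ => ?_) fun v _ => ?_
    · exact pow_nonneg (mul_nonneg (le_max_of_le_right zero_le_one) (apply_nonneg v s)) _
    · rw [← mul_pow]
      exact pow_le_pow_left₀ (mul_nonneg (le_max_of_le_right zero_le_one) (apply_nonneg v s))
        (hinf v) _
  have h3 : ∏ᶠ v : FinitePlace K, (max (v T) 1 * v s) ≤ ∏ᶠ v : FinitePlace K, ⨆ i, v (u i) := by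
    refine finprod_le_finprod (hsup1.mul (FinitePlace.hasFiniteMulSupport hs)) (fun v =>
      mul_nonneg (le_max_of_le_right zero_le_one) (apply_nonneg v s)) hsup2 fun v => hfin v
  have h4 : mulHeight₁ T ≤ A ^ Module.finrank ℚ K * mulHeight u := by
    rw [h1, NumberField.mulHeight_eq hu0, ← mul_assoc]
    refine mul_le_mul h2 h3 (finprod_nonneg fun v => mul_nonneg (le_max_of_le_right zero_le_one)
        (apply_nonneg v s)) ?_
    refine mul_nonneg (by positivity) (Finset.prod_nonneg fun v _ => pow_nonneg ?_ _)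
    exact Real.iSup_nonneg fun i => apply_nonneg v _
  have h5 := Real.log_le_log (mulHeight₁_pos T) h4
  rw [Real.log_mul (by positivity) (mulHeight_pos u).ne', Real.log_pow] at h5
  exact h5

theorem sum_arch2 {σ : Type} (F : Finset σ) (a : σ → ℤ) (y : σ → K) (v : InfinitePlace K) (M : ℝ)
    (hM : 0 ≤ M) (A : ℝ) (hA : ∑ i ∈ F, (|a i| : ℝ) ≤ A)
    (hy : ∀ i ∈ F, v (y i) ≤ M) : v (∑ i ∈ F, (a i : K) * y i) ≤ A * M := by
  have h1 : v (∑ i ∈ F, (a i : K) * y i) ≤ ∑ i ∈ F, v ((a i : K) * y i) :=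
    v.1.sum_le F _
  refine h1.trans ((Finset.sum_le_sum fun i hi => ?_).trans
    ((Finset.sum_mul F (fun i => (|a i| : ℝ)) M).symm.le.trans (mul_le_mul_of_nonneg_right hA hM)))
  rw [map_mul]
  have h2 : v (a i : K) = |(a i : ℝ)| := by
    rw [← InfinitePlace.norm_embedding_eq, map_intCast]
    exact Complex.norm_intCast _
  rw [h2]
  exact mul_le_mul_of_nonneg_left (hy i hi) (abs_nonneg _)

theorem sum_fin2 {σ : Type} (F : Finset σ) (a : σ → ℤ) (y : σ → K) (v : FinitePlace K) (M : ℝ)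
    (hM : 0 ≤ M) (hy : ∀ i ∈ F, v (y i) ≤ M) : v (∑ i ∈ F, (a i : K) * y i) ≤ M := by
  classical
  induction F using Finset.induction_on with
  | empty => simpa using hM
  | insert i F hi ih =>
    rw [Finset.sum_insert hi]
    refine (FinitePlace.add_le v _ _).trans (max_le ?_ (ih fun j hj =>
      hy j (Finset.mem_insert_of_mem hj)))
    rw [map_mul]
    have h1 : v ((a i : ℤ) : K) ≤ 1 := by
      have h2 := FinitePlace.norm_le_one K v.maximalIdeal ((a i : ℤ) : 𝓞 K)
      have h3 : (((a i : ℤ) : 𝓞 K) : K) = ((a i : ℤ) : K) := by simp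
      rw [← FinitePlace.norm_embedding_eq v, ← h3]
      exact h2
    exact (mul_le_of_le_one_left (apply_nonneg v _) h1).trans (hy i (Finset.mem_insert_self i F))

/-- The gap principle with multipliers. -/
theorem gap2 {σ : Type} [DecidableEq σ] (S F L U : Finset σ) (hFS : F ⊆ S) (hF : F = L ∪ U)
    (hd : Disjoint L U) (a : σ → ℤ) (z : σ → K) (hz : ∀ i, RU (z i)) (u : σ → K)
    (hu : ∀ i, u i ≠ 0) (t : K) (ht : t ≠ 0) (e : σ → ℤ)
    (hsum : ∑ i ∈ F, (a i : K) * (z i * u i * t ^ e i) = 0) (p q : ℤ) (hL : ∀ i ∈ L, e i ≤ p)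
    (hU : ∀ i ∈ U, q ≤ e i) (hpq : p ≤ q) (A : ℝ) (hA : 1 ≤ A)
    (hA' : ∑ i ∈ F, (|a i| : ℝ) ≤ A)
    (hgap : Module.finrank ℚ K * Real.log A + logHeight (fun i : S => u i) <
      ((q - p : ℤ) : ℝ) * logHeight₁ t) :
    ∑ i ∈ L, (a i : K) * (z i * u i * t ^ e i) = 0 := by
  classical
  by_contra hne
  subst hF
  have hSne : Nonempty S := by
    by_contra hS
    rw [not_nonempty_iff, Finset.isEmpty_coe_sort] at hS
    rw [hS, Finset.subset_empty, Finset.union_eq_empty] at hFS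
    rw [hFS.1, Finset.sum_empty] at hne
    exact hne rfl
  rw [Finset.sum_union hd] at hsum
  obtain ⟨s, hs⟩ : ∃ s, s = -∑ i ∈ U, (a i : K) * (z i * u i * t ^ (e i - q)) := ⟨_, rfl⟩
  obtain ⟨s', hs'⟩ : ∃ s', s' = ∑ i ∈ L, (a i : K) * (z i * u i * t ^ (e i - p)) := ⟨_, rfl⟩
  have h1 : ∑ i ∈ L, (a i : K) * (z i * u i * t ^ e i) = t ^ p * s' := by
    rw [hs', Finset.mul_sum]
    refine Finset.sum_congr rfl fun i _ => ?_
    rw [zpow_sub₀ ht]
    field_simp
  have h2 : ∑ i ∈ U, (a i : K) * (z i * u i * t ^ e i) = -(t ^ q * s) := by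
    rw [hs, mul_neg, neg_neg, Finset.mul_sum]
    refine Finset.sum_congr rfl fun i _ => ?_
    rw [zpow_sub₀ ht]
    field_simp
  have hT : t ^ (q - p) ≠ 0 := zpow_ne_zero _ ht
  have h3 : s' = t ^ (q - p) * s := by
    rw [h1, h2] at hsum
    have h4 : t ^ p * s' = t ^ q * s := by linear_combination hsum
    rw [zpow_sub₀ ht]
    have := zpow_ne_zero p ht
    field_simp
    linear_combination h4
  have hs0 : s ≠ 0 := by
    rintro rfl
    rw [mul_zero] at h3
    rw [h1, h3, mul_zero] at hne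
    exact hne rfl
  have hAU : ∑ i ∈ U, (|a i| : ℝ) ≤ A := by
    refine le_trans ?_ hA'
    exact Finset.sum_le_sum_of_subset_of_nonneg Finset.subset_union_right
      fun i _ _ => by positivity
  have hAL : ∑ i ∈ L, (|a i| : ℝ) ≤ A := by
    refine le_trans ?_ hA'
    exact Finset.sum_le_sum_of_subset_of_nonneg Finset.subset_union_left
      fun i _ _ => by positivity
  have hMle : ∀ v : AbsoluteValue K ℝ, ∀ i ∈ S, v (u i) ≤ ⨆ j : S, v (u j) := by
    intro v i hi
    exact le_ciSup (f := fun j : S => v (u j)) (Set.finite_range _).bddAbove ⟨i, hi⟩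
  have hM0 : ∀ v : AbsoluteValue K ℝ, 0 ≤ ⨆ j : S, v (u j) := fun v =>
    Real.iSup_nonneg fun j => v.nonneg _
  -- local estimates
  have hloc1 : ∀ v : AbsoluteValue K ℝ, 1 ≤ v t → ∀ i ∈ L,
      v (z i * u i * t ^ (e i - p)) ≤ ⨆ j : S, v (u j) := by
    intro v hv i hi
    rw [map_mul, map_mul, (hz i).abs_eq, one_mul, map_zpow₀]
    have h5 : v t ^ (e i - p) ≤ 1 := zpow_le_one_of_nonpos₀ hv (by have := hL i hi; omega)
    exact (mul_le_of_le_one_right (v.nonneg _) h5).trans
      (hMle v i (hFS (Finset.mem_union_left _ hi)))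
  have hloc2 : ∀ v : AbsoluteValue K ℝ, v t ≤ 1 → ∀ i ∈ U,
      v (z i * u i * t ^ (e i - q)) ≤ ⨆ j : S, v (u j) := by
    intro v hv i hi
    rw [map_mul, map_mul, (hz i).abs_eq, one_mul, map_zpow₀]
    have h4 : 0 ≤ e i - q := by have := hU i hi; omega
    obtain ⟨m, hm⟩ := Int.eq_ofNat_of_zero_le h4
    rw [hm, zpow_natCast]
    exact (mul_le_of_le_one_right (v.nonneg _) (pow_le_one₀ (v.nonneg t) hv)).trans
      (hMle v i (hFS (Finset.mem_union_right _ hi)))
  have hmax1 : ∀ v : AbsoluteValue K ℝ, 1 ≤ v t → max (v (t ^ (q - p))) 1 * v s = v s' := by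
    intro v hv
    rw [h3, map_mul, max_eq_left]
    rw [map_zpow₀]
    exact one_le_zpow₀ hv (by omega)
  have hmax2 : ∀ v : AbsoluteValue K ℝ, v t ≤ 1 → max (v (t ^ (q - p))) 1 * v s = v s := by
    intro v hv
    rw [max_eq_right, one_mul]
    rw [map_zpow₀]
    obtain ⟨m, hm⟩ := Int.eq_ofNat_of_zero_le (show 0 ≤ q - p by omega)
    rw [hm, zpow_natCast]
    exact pow_le_one₀ (v.nonneg t) hv
  have h5 := key2 (t ^ (q - p)) s hT hs0 A hA (fun i : S => u i) (fun i => hu i) (fun v => by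
    rcases le_total 1 (v.1 t) with hv | hv
    · have h6 := hmax1 v.1 hv
      have h7 := sum_arch2 L a (fun i => z i * u i * t ^ (e i - p)) v _ (hM0 v.1) A hAL
        (hloc1 v.1 hv)
      rw [← hs'] at h7
      exact (le_of_eq h6).trans h7
    · have h6 := hmax2 v.1 hv
      have h7 := sum_arch2 U a (fun i => z i * u i * t ^ (e i - q)) v _ (hM0 v.1) A hAU
        (hloc2 v.1 hv)
      have h8 : v (∑ i ∈ U, (a i : K) * (z i * u i * t ^ (e i - q))) = v s := by
        rw [hs]
        exact (map_neg_eq_map v.1 _).symm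
      rw [h8] at h7
      exact (le_of_eq h6).trans h7) (fun v => by
    rcases le_total 1 (v.1 t) with hv | hv
    · have h6 := hmax1 v.1 hv
      have h7 := sum_fin2 L a (fun i => z i * u i * t ^ (e i - p)) v _ (hM0 v.1) (hloc1 v.1 hv)
      rw [← hs'] at h7
      exact (le_of_eq h6).trans h7
    · have h6 := hmax2 v.1 hv
      have h7 := sum_fin2 U a (fun i => z i * u i * t ^ (e i - q)) v _ (hM0 v.1) (hloc2 v.1 hv)
      have h8 : v (∑ i ∈ U, (a i : K) * (z i * u i * t ^ (e i - q))) = v s := by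
        rw [hs]
        exact (map_neg_eq_map v.1 _).symm
      rw [h8] at h7
      exact (le_of_eq h6).trans h7)
  rw [logHeight₁_zpow] at h5
  have h6 : ((q - p).natAbs : ℝ) = ((q - p : ℤ) : ℝ) := by
    rw [Nat.cast_natAbs, abs_of_nonneg (by omega)]
  rw [h6] at h5
  linarith

end Pool.Agent.R870.AP
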