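import Pool.Agent.R870.AP.Count
import Pool.Agent.R870.AP.Gap

/-!
# Heights of numbers and of vectors of Laurent monomials
-/

set_option autoImplicit false

namespace Pool.Agent.R870.AP

open Pool.Agent.Helper259.AbsHt NumberField Height

/-- the absolute logarithmic height of an algebraic number -/
noncomputable def ht (u : Qbar) : ℝ := absLogHeight ![u, 1]

theorem ht_eq (L : Type) [Field L] [NumberField L] (φ : L →+* Qbar) (u : L) :
    ht (φ u) = logHeight₁ u / Module.finrank ℚ L := by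
  have h1 : ![φ u, 1] = fun i => φ (![u, 1] i) := by
    funext i
    fin_cases i <;> simp
  rw [ht, h1, absLogHeight_eq, ← logHeight₁_eq_logHeight]

theorem exists_lift (s : Set Qbar) (hs : s.Finite) : ∃ (L : Type) (_ : Field L) (_ : NumberField L)
    (φ : L →+* Qbar), ∀ y ∈ s, ∃ u, φ u = y := by
  obtain ⟨L, hL, hmem⟩ := exists_nf s hs
  exact ⟨L, inferInstance, hL, algebraMap L Qbar, fun y hy => ⟨⟨y, hmem y hy⟩, rfl⟩⟩

theorem ht_nonneg (u : Qbar) : 0 ≤ ht u := absLogHeight_nonneg _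

theorem ht_pow (u : Qbar) (k : ℕ) : ht (u ^ k) = k * ht u := by
  obtain ⟨L, _, _, φ, hφ⟩ := exists_lift {u} (Set.finite_singleton u)
  obtain ⟨v, rfl⟩ := hφ u rfl
  rw [← map_pow, ht_eq, ht_eq, logHeight₁_pow]
  ring

theorem ht_zpow (u : Qbar) (k : ℤ) : ht (u ^ k) = |(k : ℝ)| * ht u := by
  obtain ⟨L, _, _, φ, hφ⟩ := exists_lift {u} (Set.finite_singleton u)
  obtain ⟨v, rfl⟩ := hφ u rfl
  rw [← map_zpow₀, ht_eq, ht_eq, logHeight₁_zpow, Nat.cast_natAbs, Int.cast_abs]
  ring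

theorem ht_ru (z u : Qbar) (hz : RU z) : ht (z * u) = ht u := by
  obtain ⟨k, hk, h⟩ := hz
  have h1 : ht ((z * u) ^ k) = ht (u ^ k) := by rw [mul_pow, h, one_mul]
  rw [ht_pow, ht_pow] at h1
  have hk0 : (k : ℝ) ≠ 0 := by exact_mod_cast hk.ne'
  exact mul_left_cancel₀ hk0 h1

theorem height_powers (u : Qbar) (M : ℕ) :
    absLogHeight (fun j : Fin (M + 1) => u ^ (j : ℕ)) ≤ M * ht u := by
  have h1 : (fun j : Fin (M + 1) => u ^ (j : ℕ)) =
      (fun I : Fin M → Fin 2 => ∏ a, ![u, 1] (I a)) ∘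
        fun (j : Fin (M + 1)) (a : Fin M) => if (a : ℕ) < j then (0 : Fin 2) else 1 := by
    funext j
    have h2 : ∀ a : Fin M, ![u, 1] (if (a : ℕ) < j then (0 : Fin 2) else 1) =
        if (a : ℕ) < j then u else 1 := by
      intro a
      split_ifs <;> simp
    rw [Function.comp_apply, Finset.prod_congr rfl fun a _ => h2 a, Finset.prod_ite,
      Finset.prod_const_one, mul_one, Finset.prod_const]
    congr 1
    have h3 : (Finset.univ.filter fun i : Fin M => (i : ℕ) < (j : ℕ)).card = min M (j : ℕ) :=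
      Fin.card_filter_val_lt
    rw [h3]
    have := j.2
    omega
  rw [h1]
  refine (absLogHeight_comp_le _ _).trans ?_
  rw [absLogHeight_veronese]
  exact le_rfl

theorem height_mon {n : ℕ} (x : Fin n → Qbar) (hx : ∀ i, x i ≠ 0) (A : Finset (Fin n → ℤ))
    (D : ℕ) (hD : ∀ α ∈ A, ∀ i, |α i| ≤ D) :
    absLogHeight (fun α : A => ∏ i, x i ^ (α : Fin n → ℤ) i) ≤ 2 * D * ∑ i, ht (x i) := by
  classical
  have hb : ∀ (α : A) (i : Fin n), ((α : Fin n → ℤ) i + D).toNat < 2 * D + 1 := by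
    intro α i
    have := abs_le.1 (hD α.1 α.2 i)
    omega
  have h1 : (fun α : A => ∏ i, x i ^ (α : Fin n → ℤ) i) = (∏ i, x i ^ (-(D : ℤ))) •
      ((fun J : Fin n → Fin (2 * D + 1) => ∏ i, (fun (i : Fin n) (j : Fin (2 * D + 1)) =>
        x i ^ (j : ℕ)) i (J i)) ∘ fun (α : A) (i : Fin n) => ⟨_, hb α i⟩) := by
    funext α
    rw [Pi.smul_apply, smul_eq_mul, Function.comp_apply, ← Finset.prod_mul_distrib]
    refine Finset.prod_congr rfl fun i _ => ?_
    have h2 : 0 ≤ (α : Fin n → ℤ) i + D := by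
      have := abs_le.1 (hD α.1 α.2 i)
      omega
    simp only
    rw [← zpow_natCast, Int.toNat_of_nonneg h2, ← zpow_add₀ (hx i)]
    congr 1
    ring
  rw [h1, absLogHeight_smul _ (Finset.prod_ne_zero_iff.2 fun i _ => zpow_ne_zero _ (hx i))]
  refine (absLogHeight_comp_le _ _).trans ?_
  have h2 := absLogHeight_prod (fun (i : Fin n) (j : Fin (2 * D + 1)) => x i ^ (j : ℕ)) (by
    intro i h
    have := congrFun h 0
    simp at this)
  rw [h2, Finset.mul_sum]
  refine Finset.sum_le_sum fun i _ => ?_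
  have := height_powers (x i) (2 * D)
  push_cast at this
  exact this

end Pool.Agent.R870.AP
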