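import Pool.Agent.R870.AP.Heights
import Pool.Agent.R870.AP.Blocks

/-!
# Points of a hypersurface on one-dimensional algebraic subgroups of the torus
-/

set_option autoImplicit false

namespace Pool.Agent.R870.AP

open Pool.Agent.Helper259.AbsHt NumberField Height

/-- the value of the Laurent polynomial with the support `S` and the coefficients `a` -/
def lval {R : Type} [Field R] {n : ℕ} (S : Finset (Fin n → ℤ)) (a : (Fin n → ℤ) → ℤ)
    (x : Fin n → R) : R := ∑ α ∈ S, (a α : R) * ∏ i, x i ^ α i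

theorem ru_prod {F : Type} [Field F] {n : ℕ} (z : Fin n → F) (hz : ∀ i, RU (z i))
    (α : Fin n → ℤ) : RU (∏ i, z i ^ α i) := by
  classical
  have key : ∀ T : Finset (Fin n), RU (∏ i ∈ T, z i ^ α i) := by
    intro T
    induction T using Finset.induction_on with
    | empty => exact ⟨1, one_pos, by simp⟩
    | insert j T hj ih =>
      rw [Finset.prod_insert hj]
      obtain ⟨k, hk, h⟩ := ih
      obtain ⟨l, hl, h'⟩ := hz j
      refine ⟨k * l, Nat.mul_pos hk hl, ?_⟩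
      rw [mul_pow, pow_mul (∏ i ∈ T, z i ^ α i), h, one_pow, mul_one, mul_comm k l, pow_mul]
      have h1 : (z j ^ α j) ^ l = 1 := by
        rw [← zpow_natCast, ← zpow_mul, mul_comm, zpow_mul, zpow_natCast, h', one_zpow]
      rw [h1, one_pow]
  exact key Finset.univ

theorem mon_line {F : Type} [Field F] {n : ℕ} (z : Fin n → F) (t : F) (ht : t ≠ 0)
    (m α : Fin n → ℤ) :
    ∏ i, (z i * t ^ m i) ^ α i = (∏ i, z i ^ α i) * t ^ (∑ i, m i * α i) := by
  simp only [mul_zpow]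
  rw [Finset.prod_mul_distrib]
  congr 1
  have key : ∀ T : Finset (Fin n), ∏ i ∈ T, (t ^ m i) ^ α i = t ^ (∑ i ∈ T, m i * α i) := by
    classical
    intro T
    induction T using Finset.induction_on with
    | empty => simp
    | insert j T hj ih =>
      rw [Finset.prod_insert hj, Finset.sum_insert hj, zpow_add₀ ht, ih, ← zpow_mul]
  exact key Finset.univ

/-- Points on one-dimensional algebraic subgroups: bounded height, or a positive-dimensional coset
in the variety. -/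
theorem line_bound {n r : ℕ} (S : Fin r → Finset (Fin n → ℤ)) (a : Fin r → (Fin n → ℤ) → ℤ) :
    ∃ C1 : ℝ, 0 ≤ C1 ∧ ∀ (z : Fin n → Qbar), (∀ i, RU (z i)) → ∀ t : Qbar, t ≠ 0 →
      ∀ m : Fin n → ℤ, (∀ q, lval (S q) (a q) (fun i => z i * t ^ m i) = 0) →
        (∃ b : Fin n → ℤ, b ≠ 0 ∧ ∀ q, ∀ l : ℤ,
          lval ((S q).filter fun α => ∑ i, b i * α i = l) (a q) (fun i => z i * t ^ m i) = 0) ∨
        ∀ i, ht (z i * t ^ m i) ≤ C1 := by
  classical
  choose c hc0 hc using fun D : Finset (Fin n → ℤ) => vec_bound D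
  obtain ⟨A, hA⟩ : ∃ A : ℝ, A = ∑ q, ∑ α ∈ S q, (|a q α| : ℝ) + 1 := ⟨_, rfl⟩
  have hA1 : 1 ≤ A := by
    rw [hA]
    have : (0 : ℝ) ≤ ∑ q, ∑ α ∈ S q, (|a q α| : ℝ) :=
      Finset.sum_nonneg fun _ _ => Finset.sum_nonneg fun _ _ => by positivity
    linarith
  have hlogA : 0 ≤ Real.log A := Real.log_nonneg hA1
  obtain ⟨K, hK⟩ : ∃ K : ℕ, K = ∑ q, (S q).card := ⟨_, rfl⟩
  have hKq : ∀ q, (S q).card ≤ K := by
    intro q
    rw [hK]
    exact Finset.single_le_sum (f := fun q => (S q).card) (fun _ _ => Nat.zero_le _)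
      (Finset.mem_univ q)
  let Df : Finset (Fin n → ℤ) := Finset.univ.biUnion fun q =>
    ((S q) ×ˢ (S q)).image fun p => p.1 - p.2
  refine ⟨∑ D ∈ Df.powerset, c D * (K * Real.log A), Finset.sum_nonneg fun D _ =>
    mul_nonneg (hc0 D) (mul_nonneg (Nat.cast_nonneg _) hlogA), ?_⟩
  intro z hz t ht0 m hsum
  obtain ⟨L, _, _, φ, hφ⟩ := exists_lift (Set.range z ∪ {t})
    ((Set.finite_range z).union (Set.finite_singleton t))
  obtain ⟨t', ht'⟩ := hφ t (Or.inr rfl)
  choose z' hz' using fun i => hφ (z i) (Or.inl ⟨i, rfl⟩)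
  have ht'0 : t' ≠ 0 := by
    rintro rfl
    rw [map_zero] at ht'
    exact ht0 ht'.symm
  have hru : ∀ i, RU (z' i) := by
    intro i
    obtain ⟨k, hk, h⟩ := hz i
    refine ⟨k, hk, φ.injective ?_⟩
    rw [map_pow, hz', h, map_one]
  let e : (Fin n → ℤ) → ℤ := fun α => ∑ i, m i * α i
  let f : Fin r → (Fin n → ℤ) → L := fun q α => (a q α : L) * ((∏ i, z' i ^ α i) * t' ^ e α)
  have hφf : ∀ q, ∀ F : Finset (Fin n → ℤ), φ (∑ α ∈ F, f q α) =
      lval F (a q) (fun i => z i * t ^ m i) := by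
    intro q F
    rw [map_sum, lval]
    refine Finset.sum_congr rfl fun α _ => ?_
    rw [mon_line z t ht0, map_mul, map_mul, map_intCast, map_prod, map_zpow₀, ht']
    congr 2
    exact Finset.prod_congr rfl fun i _ => by rw [map_zpow₀, hz']
  have hf0 : ∀ q, ∀ F : Finset (Fin n → ℤ), ∑ α ∈ F, f q α = 0 ↔
      lval F (a q) (fun i => z i * t ^ m i) = 0 := by
    intro q F
    rw [← hφf, map_eq_zero]
  have hd0 : (0 : ℝ) < Module.finrank ℚ L := by exact_mod_cast Module.finrank_pos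
  obtain ⟨η, hη⟩ : ∃ η : ℝ, η = ht t := ⟨_, rfl⟩
  have hη' : η * Module.finrank ℚ L = logHeight₁ t' := by
    rw [hη, ← ht', ht_eq]
    field_simp
  have hη0 : 0 ≤ η := by rw [hη]; exact ht_nonneg t
  have hbl : ∀ q, ∃ lam : (Fin n → ℤ) → ℕ, (∀ k, ∑ α ∈ (S q).filter (fun α => lam α = k), f q α = 0) ∧
      ∀ α ∈ S q, ∀ β ∈ S q, lam α = lam β → |(e α : ℝ) - e β| * η ≤ K * Real.log A := by
    intro q
    obtain ⟨lam, hlam1, hlam2⟩ := blocks (f q) e η (Real.log A) hη0 hlogA (S q) (by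
      intro F L' U hFS hF hd hF0 p q' hL hU hpq hgap
      refine gap F L' U hF hd (a q) (fun α => ∏ i, z' i ^ α i) (fun α => ru_prod z' hru α) t' ht'0 e
        hF0 p q' hL hU hpq A hA1 ?_ ?_
      · rw [hA]
        have h1 : ∑ α ∈ F, (|a q α| : ℝ) ≤ ∑ α ∈ S q, (|a q α| : ℝ) :=
          Finset.sum_le_sum_of_subset_of_nonneg hFS fun i _ _ => by positivity
        have h2 : ∑ α ∈ S q, (|a q α| : ℝ) ≤ ∑ q, ∑ α ∈ S q, (|a q α| : ℝ) :=
          Finset.single_le_sum (f := fun q => ∑ α ∈ S q, (|a q α| : ℝ))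
            (fun _ _ => Finset.sum_nonneg fun _ _ => by positivity) (Finset.mem_univ q)
        linarith
      · rw [← hη']
        nlinarith) (S q) subset_rfl ((hf0 q (S q)).2 (hsum q))
    refine ⟨lam, hlam1, fun α hα β hβ h => (hlam2 α hα β hβ h).trans ?_⟩
    exact mul_le_mul_of_nonneg_right (by exact_mod_cast hKq q) hlogA
  choose lam hlam1 hlam2 using hbl
  let D : Finset (Fin n → ℤ) := Finset.univ.biUnion fun q =>
    (((S q) ×ˢ (S q)).filter fun p => lam q p.1 = lam q p.2).image fun p => p.1 - p.2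
  have hmemD : ∀ q, ∀ α ∈ S q, ∀ β ∈ S q, lam q α = lam q β → α - β ∈ D := by
    intro q α hα β hβ h
    exact Finset.mem_biUnion.2 ⟨q, Finset.mem_univ q,
      Finset.mem_image.2 ⟨(α, β), Finset.mem_filter.2 ⟨Finset.mem_product.2 ⟨hα, hβ⟩, h⟩, rfl⟩⟩
  by_cases hD : ∀ b : Fin n → ℤ, (∀ δ ∈ D, ∑ i, b i * δ i = 0) → b = 0
  · right
    intro i
    rw [ht_ru _ _ (hz i), ht_zpow, ← hη]
    have h1 := hc D hD m η (K * Real.log A) hη0 (mul_nonneg (Nat.cast_nonneg _) hlogA) (by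
      intro δ hδ
      obtain ⟨q, _, hδ⟩ := Finset.mem_biUnion.1 hδ
      obtain ⟨p, hp, rfl⟩ := Finset.mem_image.1 hδ
      obtain ⟨hp1, hp2⟩ := Finset.mem_filter.1 hp
      obtain ⟨hp3, hp4⟩ := Finset.mem_product.1 hp1
      have h2 := hlam2 q p.1 hp3 p.2 hp4 hp2
      have h3 : (∑ j, m j * (p.1 - p.2) j : ℤ) = e p.1 - e p.2 := by
        simp only [Pi.sub_apply, mul_sub, Finset.sum_sub_distrib, e]
      have h4 : ((∑ j, m j * (p.1 - p.2) j : ℤ) : ℝ) = (e p.1 : ℝ) - e p.2 := by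
        rw [h3]
        push_cast
        ring
      calc |∑ j, (m j : ℝ) * (((p.1 - p.2) j : ℤ) : ℝ)| * η =
          |((∑ j, m j * (p.1 - p.2) j : ℤ) : ℝ)| * η := by push_cast; rfl
        _ = |(e p.1 : ℝ) - e p.2| * η := by rw [h4]
        _ ≤ _ := h2) i
    refine h1.trans ?_
    have h5 : D ∈ Df.powerset := by
      rw [Finset.mem_powerset]
      exact Finset.biUnion_mono fun q _ => Finset.image_subset_image (Finset.filter_subset _ _)
    exact Finset.single_le_sum (f := fun D => c D * (K * Real.log A))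
      (fun D _ => mul_nonneg (hc0 D) (mul_nonneg (Nat.cast_nonneg _) hlogA)) h5
  · left
    push Not at hD
    obtain ⟨b, hb, hb0⟩ := hD
    refine ⟨b, hb0, fun q l => ?_⟩
    rw [← hf0]
    have hconst : ∀ α ∈ S q, ∀ β ∈ S q, lam q α = lam q β →
        ∑ i, b i * α i = ∑ i, b i * β i := by
      intro α hα β hβ h
      have h1 := hb _ (hmemD q α hα β hβ h)
      simp only [Pi.sub_apply, mul_sub, Finset.sum_sub_distrib] at h1
      linarith
    rw [← Finset.sum_fiberwise_of_maps_to (g := lam q) (t := ((S q).filter fun α =>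
      ∑ i, b i * α i = l).image (lam q)) (fun α hα => Finset.mem_image_of_mem _ hα)]
    refine Finset.sum_eq_zero fun k hk => ?_
    obtain ⟨α0, hα0, rfl⟩ := Finset.mem_image.1 hk
    obtain ⟨hα0S, hα0l⟩ := Finset.mem_filter.1 hα0
    have h1 : ((S q).filter fun α => ∑ i, b i * α i = l).filter (fun α => lam q α = lam q α0) =
        (S q).filter fun α => lam q α = lam q α0 := by
      ext α
      simp only [Finset.mem_filter]
      constructor
      · rintro ⟨⟨h1, h2⟩, h3⟩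
        exact ⟨h1, h3⟩
      · rintro ⟨h1, h3⟩
        exact ⟨⟨h1, (hconst α h1 α0 hα0S h3).trans hα0l⟩, h3⟩
    rw [h1]
    exact hlam1 q _

end Pool.Agent.R870.AP
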