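import Pool.Agent.R870.AP.LineMain
import Pool.Agent.R870.AP.Div3

/-!
# Points of a variety near the one-dimensional algebraic subgroups of the torus
-/

set_option autoImplicit false

namespace Pool.Agent.R870.AP

open Pool.Agent.Helper259.AbsHt NumberField Height
open Pool.Agent.R870.RZ (Coeff)

/-- Points close to one-dimensional algebraic subgroups: bounded height, or a positive-dimensional
coset in the variety. -/
theorem line_bound2 {n r : ℕ} (S : Fin r → Finset (Fin n → ℤ)) (a : Fin r → (Fin n → ℤ) → ℤ) :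
    ∃ C1 : ℝ, 0 ≤ C1 ∧ ∀ B : ℝ, 0 ≤ B → ∀ (z : Fin n → Qbar), (∀ i, RU (z i)) →
      ∀ w : Fin n → Qbar, (∀ i, w i ≠ 0) → ∑ i, ht (w i) ≤ B → ∀ t : Qbar, t ≠ 0 →
      ∀ m : Fin n → ℤ, (∀ q, lval (S q) (a q) (fun i => z i * w i * t ^ m i) = 0) →
        (∃ b : Fin n → ℤ, b ≠ 0 ∧ ∀ q, ∀ l : ℤ,
          lval ((S q).filter fun α => ∑ i, b i * α i = l) (a q)
            (fun i => z i * w i * t ^ m i) = 0) ∨
        ∀ i, ht (z i * t ^ m i) ≤ C1 * (1 + B) := by
  classical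
  choose c hc0 hc using fun D : Finset (Fin n → ℤ) => vec_bound D
  obtain ⟨A, hA⟩ : ∃ A : ℝ, A = ∑ q, ∑ α ∈ S q, (|a q α| : ℝ) + 1 := ⟨_, rfl⟩
  have hA1 : 1 ≤ A := by
    rw [hA]
    have : (0 : ℝ) ≤ ∑ q, ∑ α ∈ S q, (|a q α| : ℝ) :=
      Finset.sum_nonneg fun _ _ => Finset.sum_nonneg fun _ _ => by positivity
    linarith
  have hlogA : 0 ≤ Real.log A := Real.log_nonneg hA1
  obtain ⟨K, hK⟩ : ∃ K : ℕ, K = ∑ q, (S q).card := ⟨_, rfl⟩
  have hKq : ∀ q, (S q).card ≤ K := by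
    intro q
    rw [hK]
    exact Finset.single_le_sum (f := fun q => (S q).card) (fun _ _ => Nat.zero_le _)
      (Finset.mem_univ q)
  obtain ⟨D0, hD0⟩ : ∃ D0 : ℕ, ∀ q, ∀ α ∈ S q, ∀ i, |α i| ≤ D0 := by
    refine ⟨∑ j, ∑ α ∈ S j, ∑ i, (α i).natAbs, fun j α hα i => ?_⟩
    have h1 : (α i).natAbs ≤ ∑ i, (α i).natAbs :=
      Finset.single_le_sum (f := fun i => (α i).natAbs) (fun _ _ => Nat.zero_le _)
        (Finset.mem_univ i)
    have h2 : ∑ i, (α i).natAbs ≤ ∑ α ∈ S j, ∑ i, (α i).natAbs :=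
      Finset.single_le_sum (f := fun α : Fin n → ℤ => ∑ i, (α i).natAbs)
        (fun _ _ => Nat.zero_le _) hα
    have h3 : ∑ α ∈ S j, ∑ i, (α i).natAbs ≤ ∑ j, ∑ α ∈ S j, ∑ i, (α i).natAbs :=
      Finset.single_le_sum (f := fun j => ∑ α ∈ S j, ∑ i, (α i).natAbs)
        (fun _ _ => Nat.zero_le _) (Finset.mem_univ j)
    rw [Int.abs_eq_natAbs]
    exact_mod_cast h1.trans (h2.trans h3)
  let Df : Finset (Fin n → ℤ) := Finset.univ.biUnion fun q =>
    ((S q) ×ˢ (S q)).image fun p => p.1 - p.2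
  refine ⟨∑ D ∈ Df.powerset, c D * (K * (Real.log A + 2 * D0)), Finset.sum_nonneg fun D _ =>
    mul_nonneg (hc0 D) (mul_nonneg (Nat.cast_nonneg _) (by positivity)), ?_⟩
  intro B hB z hz w hw hwB t ht0 m hsum
  obtain ⟨L, _, _, φ, hφ⟩ := exists_lift (Set.range z ∪ Set.range w ∪ {t})
    (((Set.finite_range z).union (Set.finite_range w)).union (Set.finite_singleton t))
  obtain ⟨t', ht'⟩ := hφ t (Or.inr rfl)
  choose z' hz' using fun i => hφ (z i) (Or.inl (Or.inl ⟨i, rfl⟩))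
  choose w' hw' using fun i => hφ (w i) (Or.inl (Or.inr ⟨i, rfl⟩))
  have ht'0 : t' ≠ 0 := by
    rintro rfl
    rw [map_zero] at ht'
    exact ht0 ht'.symm
  have hw'0 : ∀ i, w' i ≠ 0 := by
    intro i h
    apply hw i
    rw [← hw', h, map_zero]
  have hru : ∀ i, RU (z' i) := by
    intro i
    obtain ⟨k, hk, h⟩ := hz i
    refine ⟨k, hk, φ.injective ?_⟩
    rw [map_pow, hz', h, map_one]
  let e : (Fin n → ℤ) → ℤ := fun α => ∑ i, m i * α i
  let u : (Fin n → ℤ) → L := fun α => ∏ i, w' i ^ α i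
  have hu0 : ∀ α, u α ≠ 0 := fun α =>
    Finset.prod_ne_zero_iff.2 fun i _ => zpow_ne_zero _ (hw'0 i)
  let f : Fin r → (Fin n → ℤ) → L := fun q α =>
    (a q α : L) * ((∏ i, z' i ^ α i) * u α * t' ^ e α)
  have hφf : ∀ q, ∀ F : Finset (Fin n → ℤ), φ (∑ α ∈ F, f q α) =
      lval F (a q) (fun i => z i * w i * t ^ m i) := by
    intro q F
    rw [map_sum, lval]
    refine Finset.sum_congr rfl fun α _ => ?_
    rw [mon_line (fun i => z i * w i) t ht0, map_mul, map_mul, map_intCast, map_mul, map_prod,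
      map_zpow₀, ht', map_prod]
    congr 2
    rw [← Finset.prod_mul_distrib]
    exact Finset.prod_congr rfl fun i _ => by rw [map_zpow₀, map_zpow₀, hz', hw', mul_zpow]
  have hf0 : ∀ q, ∀ F : Finset (Fin n → ℤ), ∑ α ∈ F, f q α = 0 ↔
      lval F (a q) (fun i => z i * w i * t ^ m i) = 0 := by
    intro q F
    rw [← hφf, map_eq_zero]
  have hd0 : (0 : ℝ) < Module.finrank ℚ L := by exact_mod_cast Module.finrank_pos
  obtain ⟨η, hη⟩ : ∃ η : ℝ, η = ht t := ⟨_, rfl⟩
  have hη' : η * Module.finrank ℚ L = logHeight₁ t' := by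
    rw [hη, ← ht', ht_eq]
    field_simp
  have hη0 : 0 ≤ η := by rw [hη]; exact ht_nonneg t
  have hC0 : 0 ≤ Real.log A + 2 * D0 * B := by positivity
  have huh : ∀ q, logHeight (fun α : S q => u α) ≤ Module.finrank ℚ L * (2 * D0 * B) := by
    intro q
    have h1 := height_mon w hw (S q) D0 (hD0 q)
    have h2 : (fun α : S q => ∏ i, w i ^ (α : Fin n → ℤ) i) = fun α : S q => φ (u α) := by
      funext α
      rw [map_prod]
      exact Finset.prod_congr rfl fun i _ => by rw [map_zpow₀, hw']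
    rw [h2, absLogHeight_eq, div_le_iff₀ hd0] at h1
    refine h1.trans ?_
    rw [mul_comm]
    refine mul_le_mul_of_nonneg_left ?_ hd0.le
    exact mul_le_mul_of_nonneg_left hwB (by positivity)
  have hbl : ∀ q, ∃ lam : (Fin n → ℤ) → ℕ,
      (∀ k, ∑ α ∈ (S q).filter (fun α => lam α = k), f q α = 0) ∧
      ∀ α ∈ S q, ∀ β ∈ S q, lam α = lam β →
        |(e α : ℝ) - e β| * η ≤ K * (Real.log A + 2 * D0 * B) := by
    intro q
    obtain ⟨lam, hlam1, hlam2⟩ := blocks (f q) e η (Real.log A + 2 * D0 * B) hη0 hC0 (S q) (by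
      intro F L' U hFS hF hd hF0 p q' hL hU hpq hgap
      refine gap2 (S q) F L' U hFS hF hd (a q) (fun α => ∏ i, z' i ^ α i)
        (fun α => ru_prod z' hru α) u hu0 t' ht'0 e hF0 p q' hL hU hpq A hA1 ?_ ?_
      · rw [hA]
        have h1 : ∑ α ∈ F, (|a q α| : ℝ) ≤ ∑ α ∈ S q, (|a q α| : ℝ) :=
          Finset.sum_le_sum_of_subset_of_nonneg hFS fun i _ _ => by positivity
        have h2 : ∑ α ∈ S q, (|a q α| : ℝ) ≤ ∑ q, ∑ α ∈ S q, (|a q α| : ℝ) :=
          Finset.single_le_sum (f := fun q => ∑ α ∈ S q, (|a q α| : ℝ))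
            (fun _ _ => Finset.sum_nonneg fun _ _ => by positivity) (Finset.mem_univ q)
        linarith
      · have h3 := huh q
        rw [← hη']
        nlinarith) (S q) subset_rfl ((hf0 q (S q)).2 (hsum q))
    refine ⟨lam, hlam1, fun α hα β hβ h => (hlam2 α hα β hβ h).trans ?_⟩
    exact mul_le_mul_of_nonneg_right (by exact_mod_cast hKq q) hC0
  choose lam hlam1 hlam2 using hbl
  let D : Finset (Fin n → ℤ) := Finset.univ.biUnion fun q =>
    (((S q) ×ˢ (S q)).filter fun p => lam q p.1 = lam q p.2).image fun p => p.1 - p.2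
  have hmemD : ∀ q, ∀ α ∈ S q, ∀ β ∈ S q, lam q α = lam q β → α - β ∈ D := by
    intro q α hα β hβ h
    exact Finset.mem_biUnion.2 ⟨q, Finset.mem_univ q,
      Finset.mem_image.2 ⟨(α, β), Finset.mem_filter.2 ⟨Finset.mem_product.2 ⟨hα, hβ⟩, h⟩, rfl⟩⟩
  by_cases hD : ∀ b : Fin n → ℤ, (∀ δ ∈ D, ∑ i, b i * δ i = 0) → b = 0
  · right
    intro i
    rw [ht_ru _ _ (hz i), ht_zpow, ← hη]
    have h1 := hc D hD m η (K * (Real.log A + 2 * D0 * B)) hη0
      (mul_nonneg (Nat.cast_nonneg _) hC0) (by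
      intro δ hδ
      obtain ⟨q, _, hδ⟩ := Finset.mem_biUnion.1 hδ
      obtain ⟨p, hp, rfl⟩ := Finset.mem_image.1 hδ
      obtain ⟨hp1, hp2⟩ := Finset.mem_filter.1 hp
      obtain ⟨hp3, hp4⟩ := Finset.mem_product.1 hp1
      have h2 := hlam2 q p.1 hp3 p.2 hp4 hp2
      have h3 : (∑ j, m j * (p.1 - p.2) j : ℤ) = e p.1 - e p.2 := by
        simp only [Pi.sub_apply, mul_sub, Finset.sum_sub_distrib, e]
      have h4 : ((∑ j, m j * (p.1 - p.2) j : ℤ) : ℝ) = (e p.1 : ℝ) - e p.2 := by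
        rw [h3]
        push_cast
        ring
      calc |∑ j, (m j : ℝ) * (((p.1 - p.2) j : ℤ) : ℝ)| * η =
          |((∑ j, m j * (p.1 - p.2) j : ℤ) : ℝ)| * η := by push_cast; rfl
        _ = |(e p.1 : ℝ) - e p.2| * η := by rw [h4]
        _ ≤ _ := h2) i
    refine h1.trans ?_
    have h5 : D ∈ Df.powerset := by
      rw [Finset.mem_powerset]
      exact Finset.biUnion_mono fun q _ => Finset.image_subset_image (Finset.filter_subset _ _)
    have h6 : c D * (K * (Real.log A + 2 * D0 * B)) ≤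
        c D * (K * (Real.log A + 2 * D0)) * (1 + B) := by
      have h7 : Real.log A + 2 * D0 * B ≤ (Real.log A + 2 * D0) * (1 + B) := by
        have : (0 : ℝ) ≤ D0 := Nat.cast_nonneg _
        nlinarith
      have h8 : (K : ℝ) * (Real.log A + 2 * D0 * B) ≤
          K * ((Real.log A + 2 * D0) * (1 + B)) :=
        mul_le_mul_of_nonneg_left h7 (Nat.cast_nonneg _)
      calc c D * (K * (Real.log A + 2 * D0 * B)) ≤
          c D * (K * ((Real.log A + 2 * D0) * (1 + B))) := mul_le_mul_of_nonneg_left h8 (hc0 D)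
        _ = _ := by ring
    refine h6.trans (mul_le_mul_of_nonneg_right ?_ (by linarith))
    exact Finset.single_le_sum (f := fun D => c D * (K * (Real.log A + 2 * D0)))
      (fun D _ => mul_nonneg (hc0 D) (mul_nonneg (Nat.cast_nonneg _) (by positivity))) h5
  · left
    push Not at hD
    obtain ⟨b, hb, hb0⟩ := hD
    refine ⟨b, hb0, fun q l => ?_⟩
    rw [← hf0]
    have hconst : ∀ α ∈ S q, ∀ β ∈ S q, lam q α = lam q β →
        ∑ i, b i * α i = ∑ i, b i * β i := by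
      intro α hα β hβ h
      have h1 := hb _ (hmemD q α hα β hβ h)
      simp only [Pi.sub_apply, mul_sub, Finset.sum_sub_distrib] at h1
      linarith
    rw [← Finset.sum_fiberwise_of_maps_to (g := lam q) (t := ((S q).filter fun α =>
      ∑ i, b i * α i = l).image (lam q)) (fun α hα => Finset.mem_image_of_mem _ hα)]
    refine Finset.sum_eq_zero fun k hk => ?_
    obtain ⟨α0, hα0, rfl⟩ := Finset.mem_image.1 hk
    obtain ⟨hα0S, hα0l⟩ := Finset.mem_filter.1 hα0
    have h1 : ((S q).filter fun α => ∑ i, b i * α i = l).filter (fun α => lam q α = lam q α0) =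
        (S q).filter fun α => lam q α = lam q α0 := by
      ext α
      simp only [Finset.mem_filter]
      constructor
      · rintro ⟨⟨h1, h2⟩, h3⟩
        exact ⟨h1, h3⟩
      · rintro ⟨h1, h3⟩
        exact ⟨⟨h1, (hconst α h1 α0 hα0S h3).trans hα0l⟩, h3⟩
    rw [h1]
    exact hlam1 q _

/-- Random sections of a fixed variety and the points near the special curves. -/
theorem line_main2 {n r k : ℕ} (S : Fin r → Finset (Fin n → ℤ)) (a : Fin r → (Fin n → ℤ) → ℤ)
    (A : Fin k → Finset (Fin n → ℤ)) (hA : ∀ j, (A j).Nonempty) :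
    ∃ C κ : ℝ, ∀ (H : ℕ) (B : ℝ), 0 ≤ B → ∃ E : Finset (Coeff A → ℤ),
      (E.card : ℝ) * (2 * H + 1) ^ k ≤ C * Real.exp (κ * B) * (2 * H + 1) ^ ∑ j, (A j).card ∧
      ∀ c : Coeff A → ℤ, (∀ x, |c x| ≤ H) → c ∉ E →
        ∀ (z w : Fin n → Qbar) (m : Fin n → ℤ) (t : Qbar), (∀ i, RU (z i)) → (∀ i, w i ≠ 0) →
          t ≠ 0 → ∑ i, ht (w i) ≤ B →
          (∀ q, lval (S q) (a q) (fun i => z i * w i * t ^ m i) = 0) →
          (∀ j, ∑ α : {α // α ∈ A j}, (c ⟨j, α⟩ : Qbar) *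
            ∏ l, (z l * w l * t ^ m l) ^ (α : Fin n → ℤ) l = 0) →
          ∃ b : Fin n → ℤ, b ≠ 0 ∧
            ∀ s : Qbar, s ≠ 0 → ∀ q,
              lval (S q) (a q) (fun i => z i * w i * t ^ m i * s ^ b i) = 0 := by
  classical
  obtain ⟨C1, hC10, hC1⟩ := line_bound2 S a
  obtain ⟨C, κ, hC⟩ := exists_E (fun j : Fin k => {α // α ∈ A j})
  obtain ⟨D, hD⟩ : ∃ D : ℕ, ∀ j, ∀ α ∈ A j, ∀ i, |α i| ≤ D := by
    refine ⟨∑ j, ∑ α ∈ A j, ∑ i, (α i).natAbs, fun j α hα i => ?_⟩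
    have h1 : (α i).natAbs ≤ ∑ i, (α i).natAbs :=
      Finset.single_le_sum (f := fun i => (α i).natAbs) (fun _ _ => Nat.zero_le _)
        (Finset.mem_univ i)
    have h2 : ∑ i, (α i).natAbs ≤ ∑ α ∈ A j, ∑ i, (α i).natAbs :=
      Finset.single_le_sum (f := fun α : Fin n → ℤ => ∑ i, (α i).natAbs)
        (fun _ _ => Nat.zero_le _) hα
    have h3 : ∑ α ∈ A j, ∑ i, (α i).natAbs ≤ ∑ j, ∑ α ∈ A j, ∑ i, (α i).natAbs :=
      Finset.single_le_sum (f := fun j => ∑ α ∈ A j, ∑ i, (α i).natAbs)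
        (fun _ _ => Nat.zero_le _) (Finset.mem_univ j)
    rw [Int.abs_eq_natAbs]
    exact_mod_cast h1.trans (h2.trans h3)
  obtain ⟨β, hβ⟩ : ∃ β : ℝ, β = 2 * D * (n * C1) := ⟨_, rfl⟩
  have hβ0 : 0 ≤ β := by rw [hβ]; positivity
  refine ⟨C * Real.exp (κ * β), κ * (β + 2 * D), fun H B hB => ?_⟩
  obtain ⟨E, hE, hE'⟩ := hC H (β * (1 + B) + 2 * D * B) (by positivity)
  refine ⟨E, ?_, ?_⟩
  · have hN : Fintype.card ((j : Fin k) × {α // α ∈ A j}) = ∑ j, (A j).card := by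
      rw [Fintype.card_sigma]
      exact Finset.sum_congr rfl fun j _ => Fintype.card_coe _
    rw [hN] at hE
    refine hE.trans (le_of_eq ?_)
    have h9 : (κ : ℝ) * (β * (1 + B) + 2 * D * B) = κ * β + κ * (β + 2 * D) * B := by ring
    rw [h9, Real.exp_add]
    ring
  · intro c hc hcE z w m t hz hw ht0 hwB h0 hxc
    rcases hC1 B hB z hz w hw hwB t ht0 m h0 with ⟨b, hb, hbl⟩ | hbd
    · refine ⟨b, hb, fun s hs q => ?_⟩
      exact coset_of_levels (S q) (a q) (fun i => z i * w i * t ^ m i) b (fun l => hbl q l) s hs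
    · exfalso
      apply hcE
      have hz0 : ∀ i, z i ≠ 0 := by
        intro i h
        obtain ⟨N, hN, h1⟩ := hz i
        rw [h, zero_pow hN.ne'] at h1
        exact zero_ne_one h1
      have hx0 : ∀ i, z i * w i * t ^ m i ≠ 0 := fun i =>
        mul_ne_zero (mul_ne_zero (hz0 i) (hw i)) (zpow_ne_zero _ ht0)
      refine hE' c hc ⟨fun j α => ∏ i, (z i * w i * t ^ m i) ^ (α : Fin n → ℤ) i,
        fun j => ⟨?_, ?_, ?_⟩⟩
      · obtain ⟨α, hα⟩ := hA j
        intro h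
        have h2 := congrFun h ⟨α, hα⟩
        exact Finset.prod_ne_zero_iff.2 (fun i _ => zpow_ne_zero _ (hx0 i)) h2
      · refine (height_mon _ hx0 (A j) D (hD j)).trans ?_
        have h3 : ∀ i, ht (z i * w i * t ^ m i) ≤ ht (w i) + C1 * (1 + B) := by
          intro i
          have h4 : z i * w i * t ^ m i = w i * (z i * t ^ m i) := by ring
          rw [h4]
          exact (ht_mul_le _ _).trans (add_le_add le_rfl (hbd i))
        have h5 : ∑ i, ht (z i * w i * t ^ m i) ≤ B + n * (C1 * (1 + B)) := by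
          refine (Finset.sum_le_sum fun i _ => h3 i).trans ?_
          rw [Finset.sum_add_distrib]
          simp only [Finset.sum_const, Finset.card_univ, Fintype.card_fin, nsmul_eq_mul]
          linarith
        calc 2 * D * ∑ i, ht (z i * w i * t ^ m i) ≤ 2 * D * (B + n * (C1 * (1 + B))) :=
              mul_le_mul_of_nonneg_left h5 (by positivity)
          _ = β * (1 + B) + 2 * D * B := by
              rw [hβ]
              ring
      · exact hxc j

end Pool.Agent.R870.AP
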