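import Pool.Agent.R870.AP.Line
import Pool.Agent.R870.RZ.Defs

/-!
# Random hypersurface sections of a hypersurface and one-dimensional algebraic subgroups
-/

set_option autoImplicit false

namespace Pool.Agent.R870.AP

open Pool.Agent.Helper259.AbsHt NumberField Height
open Pool.Agent.R870.RZ (Coeff system)

theorem exists_phi : Nonempty (Qbar →+* ℂ) := by
  have halg : Algebra.IsAlgebraic ℚ Qbar := AlgebraicClosure.isAlgebraic ℚ
  exact ⟨(IsAlgClosed.lift (R := ℚ) (M := ℂ) (S := Qbar)).toRingHom⟩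

theorem lift_root (φ : Qbar →+* ℂ) (P : Polynomial Qbar) (hP : P ≠ 0) (u : ℂ)
    (hu : (P.map φ).eval u = 0) : ∃ u', φ u' = u := by
  have h1 : u ∈ (P.map φ).roots := by
    rw [Polynomial.mem_roots (by
      intro h
      exact hP ((Polynomial.map_eq_zero φ).1 h))]
    exact hu
  rw [(IsAlgClosed.splits P).roots_map φ] at h1
  obtain ⟨u', _, h2⟩ := Multiset.mem_map.1 h1
  exact ⟨u', h2⟩

theorem coset_of_levels {F : Type} [Field F] {n : ℕ} (S : Finset (Fin n → ℤ))
    (a : (Fin n → ℤ) → ℤ) (x : Fin n → F) (b : Fin n → ℤ)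
    (h : ∀ l : ℤ, lval (S.filter fun α => ∑ i, b i * α i = l) a x = 0) (s : F) (hs : s ≠ 0) :
    lval S a (fun i => x i * s ^ b i) = 0 := by
  obtain ⟨e, he⟩ : ∃ e : (Fin n → ℤ) → ℤ, ∀ α, e α = ∑ i, b i * α i := ⟨_, fun _ => rfl⟩
  have hmem : ∀ α ∈ S, e α ∈ S.image e := fun α hα => Finset.mem_image_of_mem e hα
  have hfil : ∀ l, S.filter (fun α => e α = l) = S.filter fun α => ∑ i, b i * α i = l := by
    intro l
    refine Finset.filter_congr fun α _ => ?_
    rw [he α]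
  rw [lval, ← Finset.sum_fiberwise_of_maps_to (g := e) (t := S.image e) hmem]
  refine Finset.sum_eq_zero fun l _ => ?_
  rw [hfil l]
  have h1 : ∑ α ∈ S.filter (fun α => ∑ i, b i * α i = l),
      (a α : F) * ∏ i, (x i * s ^ b i) ^ α i =
      lval (S.filter fun α => ∑ i, b i * α i = l) a x * s ^ l := by
    rw [lval, Finset.sum_mul]
    refine Finset.sum_congr rfl fun α hα => ?_
    rw [mon_line x s hs, (Finset.mem_filter.1 hα).2]
    ring
  rw [h1, h, zero_mul]

theorem lval_map {F G : Type} [Field F] [Field G] {n : ℕ} (φ : F →+* G)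
    (S : Finset (Fin n → ℤ)) (a : (Fin n → ℤ) → ℤ) (x : Fin n → F) :
    φ (lval S a x) = lval S a (fun i => φ (x i)) := by
  rw [lval, lval, map_sum]
  refine Finset.sum_congr rfl fun α _ => ?_
  rw [map_mul, map_intCast, map_prod]
  congr 1
  exact Finset.prod_congr rfl fun i _ => map_zpow₀ _ _ _

/-- The point lies on an algebraic subgroup of dimension at most one of the torus. -/
def OnLine {n : ℕ} (x : Fin n → ℂ) : Prop :=
  ∃ (m : Fin n → ℤ) (t : ℂ) (z : Fin n → ℂ), t ≠ 0 ∧ (∀ i, ∃ N : ℕ, 0 < N ∧ z i ^ N = 1) ∧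
    ∀ i, x i = z i * t ^ m i

theorem lift_line (φ : Qbar →+* ℂ) {n : ℕ} (S : Finset (Fin n → ℤ)) (a : (Fin n → ℤ) → ℤ)
    (x : Fin n → ℂ) (h0 : lval S a x = 0) (m : Fin n → ℤ) (t : ℂ) (z : Fin n → ℂ) (ht : t ≠ 0)
    (z' : Fin n → Qbar) (hz' : ∀ i, φ (z' i) = z i) (hxz : ∀ i, x i = z i * t ^ m i)
    (halg : ¬ ∃ t', φ t' = t) (l : ℤ) :
    lval (S.filter fun α => ∑ i, m i * α i = l) a x = 0 := by
  classical
  let e : (Fin n → ℤ) → ℤ := fun α => ∑ i, m i * α i
  obtain ⟨M, hM⟩ : ∃ M : ℤ, ∀ α ∈ S, 0 ≤ e α + M := by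
    refine ⟨∑ α ∈ S, |e α|, fun α hα => ?_⟩
    have h1 := Finset.single_le_sum (f := fun α => |e α|) (fun _ _ => abs_nonneg _) hα
    have h2 := neg_abs_le (e α)
    linarith
  let P : Polynomial Qbar := ∑ α ∈ S,
    Polynomial.monomial ((e α + M).toNat) ((a α : Qbar) * ∏ i, z' i ^ α i)
  have hP : P = 0 := by
    by_contra hP
    apply halg
    refine lift_root φ P hP t ?_
    have h1 : (P.map φ).eval t = t ^ M * lval S a x := by
      rw [Polynomial.map_sum, Polynomial.eval_finsetSum, lval, Finset.mul_sum]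
      refine Finset.sum_congr rfl fun α hα => ?_
      rw [Polynomial.map_monomial, Polynomial.eval_monomial, map_mul, map_intCast, map_prod]
      have h2 : ∏ i, x i ^ α i = (∏ i, z i ^ α i) * t ^ e α := by
        have h3 : ∏ i, x i ^ α i = ∏ i, (z i * t ^ m i) ^ α i :=
          Finset.prod_congr rfl fun i _ => by rw [hxz i]
        rw [h3, mon_line z t ht]
      have h4 : ∏ i, φ (z' i ^ α i) = ∏ i, z i ^ α i :=
        Finset.prod_congr rfl fun i _ => by rw [map_zpow₀, hz']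
      rw [h2, h4, ← zpow_natCast t, Int.toNat_of_nonneg (hM α hα), zpow_add₀ ht]
      ring
    rw [h1, h0, mul_zero]
  by_cases hl : 0 ≤ l + M
  · have h1 : P.coeff ((l + M).toNat) = 0 := by rw [hP, Polynomial.coeff_zero]
    rw [Polynomial.finsetSum_coeff] at h1
    have h2 : ∑ α ∈ S, (Polynomial.monomial ((e α + M).toNat)
        ((a α : Qbar) * ∏ i, z' i ^ α i)).coeff ((l + M).toNat) =
        ∑ α ∈ S.filter (fun α => ∑ i, m i * α i = l), (a α : Qbar) * ∏ i, z' i ^ α i := by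
      rw [Finset.sum_filter]
      refine Finset.sum_congr rfl fun α hα => ?_
      rw [Polynomial.coeff_monomial]
      have h3 := hM α hα
      have h4 : ((e α + M).toNat = (l + M).toNat) ↔ (∑ i, m i * α i = l) := by
        change _ ↔ e α = l
        omega
      simp only [h4]
    rw [h2] at h1
    have h3 : lval (S.filter fun α => ∑ i, m i * α i = l) a x =
        φ (∑ α ∈ S.filter (fun α => ∑ i, m i * α i = l), (a α : Qbar) * ∏ i, z' i ^ α i) *
          t ^ l := by
      rw [lval, map_sum, Finset.sum_mul]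
      refine Finset.sum_congr rfl fun α hα => ?_
      have h4 : ∏ i, x i ^ α i = (∏ i, z i ^ α i) * t ^ l := by
        have h5 : ∏ i, x i ^ α i = ∏ i, (z i * t ^ m i) ^ α i :=
          Finset.prod_congr rfl fun i _ => by rw [hxz i]
        rw [h5, mon_line z t ht, (Finset.mem_filter.1 hα).2]
      have h6 : ∏ i, φ (z' i ^ α i) = ∏ i, z i ^ α i :=
        Finset.prod_congr rfl fun i _ => by rw [map_zpow₀, hz']
      rw [map_mul, map_intCast, map_prod, h6, h4]
      ring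
    rw [h3, h1, map_zero, zero_mul]
  · rw [Finset.filter_false_of_mem]
    · simp [lval]
    · intro α hα h
      have h3 := hM α hα
      have h4 : e α = l := h
      omega

theorem onLine_alg (φ : Qbar →+* ℂ) {n r : ℕ} (S : Fin r → Finset (Fin n → ℤ))
    (a : Fin r → (Fin n → ℤ) → ℤ) (x : Fin n → ℂ) (hx : OnLine x)
    (h0 : ∀ q, lval (S q) (a q) x = 0) :
    (∃ b : Fin n → ℤ, b ≠ 0 ∧ ∀ q, ∀ l : ℤ,
      lval ((S q).filter fun α => ∑ i, b i * α i = l) (a q) x = 0) ∨
    ∃ (m : Fin n → ℤ) (t : Qbar) (z : Fin n → Qbar), t ≠ 0 ∧ (∀ i, RU (z i)) ∧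
      ∀ i, x i = φ (z i * t ^ m i) := by
  classical
  obtain ⟨m, t, z, ht, hz, hxz⟩ := hx
  have hzl : ∀ i, ∃ z', φ z' = z i := by
    intro i
    obtain ⟨N, hN, h⟩ := hz i
    refine lift_root φ (Polynomial.X ^ N - 1) ?_ (z i) ?_
    · exact (Polynomial.monic_X_pow_sub_C (1 : Qbar) hN.ne').ne_zero
    · simp [h]
  choose z' hz' using hzl
  have hru : ∀ i, RU (z' i) := by
    intro i
    obtain ⟨N, hN, h⟩ := hz i
    exact ⟨N, hN, φ.injective (by rw [map_pow, hz', h, map_one])⟩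
  by_cases hm : m = 0
  · right
    refine ⟨m, 1, z', one_ne_zero, hru, fun i => ?_⟩
    rw [hxz i, hm]
    simp [hz']
  · by_cases halg : ∃ t', φ t' = t
    · right
      obtain ⟨t', rfl⟩ := halg
      refine ⟨m, t', z', ?_, hru, fun i => ?_⟩
      · rintro rfl
        exact ht (map_zero φ)
      · rw [hxz i, map_mul, map_zpow₀, hz']
    · left
      exact ⟨m, hm, fun q l => lift_line φ (S q) (a q) x (h0 q) m t z ht z' hz' hxz halg l⟩

/-- Random sections of a fixed variety. -/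
theorem line_main {n r k : ℕ} (S : Fin r → Finset (Fin n → ℤ)) (a : Fin r → (Fin n → ℤ) → ℤ)
    (A : Fin k → Finset (Fin n → ℤ)) (hA : ∀ j, (A j).Nonempty) :
    ∃ C : ℕ, ∀ H : ℕ, ∃ E : Finset (Coeff A → ℤ),
      E.card * (2 * H + 1) ^ k ≤ C * (2 * H + 1) ^ ∑ j, (A j).card ∧
      ∀ c : Coeff A → ℤ, (∀ x, |c x| ≤ H) → c ∉ E →
        ∀ x : Fin n → ℂ, OnLine x → (∀ q, lval (S q) (a q) x = 0) → x ∈ system A c →
          ∃ b : Fin n → ℤ, b ≠ 0 ∧
            ∀ s : ℂ, s ≠ 0 → ∀ q, lval (S q) (a q) (fun i => x i * s ^ b i) = 0 := by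
  classical
  obtain ⟨φ⟩ := exists_phi
  obtain ⟨C1, hC10, hC1⟩ := line_bound S a
  obtain ⟨C, κ, hC⟩ := exists_E (fun j : Fin k => {α // α ∈ A j})
  obtain ⟨D, hD⟩ : ∃ D : ℕ, ∀ j, ∀ α ∈ A j, ∀ i, |α i| ≤ D := by
    refine ⟨∑ j, ∑ α ∈ A j, ∑ i, (α i).natAbs, fun j α hα i => ?_⟩
    have h1 : (α i).natAbs ≤ ∑ i, (α i).natAbs :=
      Finset.single_le_sum (f := fun i => (α i).natAbs) (fun _ _ => Nat.zero_le _)
        (Finset.mem_univ i)
    have h2 : ∑ i, (α i).natAbs ≤ ∑ α ∈ A j, ∑ i, (α i).natAbs :=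
      Finset.single_le_sum (f := fun α : Fin n → ℤ => ∑ i, (α i).natAbs)
        (fun _ _ => Nat.zero_le _) hα
    have h3 : ∑ α ∈ A j, ∑ i, (α i).natAbs ≤ ∑ j, ∑ α ∈ A j, ∑ i, (α i).natAbs :=
      Finset.single_le_sum (f := fun j => ∑ α ∈ A j, ∑ i, (α i).natAbs)
        (fun _ _ => Nat.zero_le _) (Finset.mem_univ j)
    rw [Int.abs_eq_natAbs]
    exact_mod_cast h1.trans (h2.trans h3)
  obtain ⟨B, hB⟩ : ∃ B : ℝ, B = 2 * D * (n * C1) := ⟨_, rfl⟩
  have hB0 : 0 ≤ B := by rw [hB]; positivity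
  refine ⟨⌈(C : ℝ) * Real.exp (κ * B)⌉₊, fun H => ?_⟩
  obtain ⟨E, hE, hE'⟩ := hC H B hB0
  refine ⟨E, ?_, ?_⟩
  · have hN : Fintype.card ((j : Fin k) × {α // α ∈ A j}) = ∑ j, (A j).card := by
      rw [Fintype.card_sigma]
      exact Finset.sum_congr rfl fun j _ => Fintype.card_coe _
    rw [hN] at hE
    have h1 : ((E.card * (2 * H + 1) ^ k : ℕ) : ℝ) ≤
        ((⌈(C : ℝ) * Real.exp (κ * B)⌉₊ * (2 * H + 1) ^ ∑ j, (A j).card : ℕ) : ℝ) := by
      push_cast
      exact hE.trans (mul_le_mul_of_nonneg_right (Nat.le_ceil _) (by positivity))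
    exact_mod_cast h1
  · intro c hc hcE x hx h0 hxc
    rcases onLine_alg φ S a x hx h0 with ⟨b, hb, hbl⟩ | ⟨m, t, z, ht0, hz, hxz⟩
    · exact ⟨b, hb, fun s hs q => coset_of_levels (S q) (a q) x b (hbl q) s hs⟩
    · have hxz' : x = fun i => φ (z i * t ^ m i) := funext hxz
      have h1 : ∀ q, lval (S q) (a q) (fun i => z i * t ^ m i) = 0 := by
        intro q
        apply φ.injective
        rw [lval_map, ← hxz', h0, map_zero]
      rcases hC1 z hz t ht0 m h1 with ⟨b, hb, hbl⟩ | hbd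
      · refine ⟨b, hb, fun s hs q => coset_of_levels (S q) (a q) x b (fun l => ?_) s hs⟩
        have h2 := congrArg φ (hbl q l)
        rw [lval_map, map_zero] at h2
        rw [hxz']
        exact h2
      · exfalso
        apply hcE
        have hx'0 : ∀ i, z i * t ^ m i ≠ 0 := by
          intro i h
          apply hxc.1 i
          rw [hxz i, h, map_zero]
        refine hE' c hc ⟨fun j α => ∏ i, (z i * t ^ m i) ^ (α : Fin n → ℤ) i,
          fun j => ⟨?_, ?_, ?_⟩⟩
        · obtain ⟨α, hα⟩ := hA j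
          intro h
          have h2 := congrFun h ⟨α, hα⟩
          exact Finset.prod_ne_zero_iff.2 (fun i _ => zpow_ne_zero _ (hx'0 i)) h2
        · refine (height_mon _ hx'0 (A j) D (hD j)).trans ?_
          rw [hB]
          refine mul_le_mul_of_nonneg_left ?_ (by positivity)
          calc ∑ i, ht (z i * t ^ m i) ≤ ∑ _i : Fin n, C1 := Finset.sum_le_sum fun i _ => hbd i
            _ = n * C1 := by simp
        · apply φ.injective
          rw [map_sum, map_zero, ← hxc.2 j]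
          refine Finset.sum_congr rfl fun α _ => ?_
          rw [map_mul, map_intCast, map_prod]
          congr 1
          exact Finset.prod_congr rfl fun i _ => by rw [map_zpow₀, hxz i]

end Pool.Agent.R870.AP
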