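import Pool.Agent.R870.AP.Gap2
import Pool.Agent.R870.AP.Heights
import Pool.Agent.R870.AP.Blocks
import Pool.Agent.R870.AP.Count

/-!
# Relations with integral coefficients between the elements of a division group of rank one
-/

set_option autoImplicit false

namespace Pool.Agent.R870.AP

open Pool.Agent.Helper259.AbsHt NumberField Height

theorem ht_mul_le (x y : Qbar) : ht (x * y) ≤ ht x + ht y := by
  obtain ⟨L, _, _, φ, hφ⟩ := exists_lift {x, y} (Set.toFinite _)
  obtain ⟨x', rfl⟩ := hφ x (by simp)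
  obtain ⟨y', rfl⟩ := hφ y (by simp)
  rw [← map_mul, ht_eq, ht_eq, ht_eq, ← add_div]
  exact div_le_div_of_nonneg_right (logHeight₁_mul_le x' y') (Nat.cast_nonneg _)

theorem ht_one : ht 1 = 0 := by
  have h1 := ht_pow 1 2
  rw [one_pow] at h1
  push_cast at h1
  linarith

theorem ht_zero : ht 0 = 0 := by
  have h1 := ht_pow 0 2
  rw [zero_pow two_ne_zero] at h1
  push_cast at h1
  linarith

theorem ht_RU (z : Qbar) (hz : RU z) : ht z = 0 := by
  have := ht_ru z 1 hz
  rw [mul_one, ht_one] at this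
  exact this

theorem height_le_sum {ι : Type} [Fintype ι] (x : ι → Qbar) : absLogHeight x ≤ ∑ i, ht (x i) := by
  refine (absLogHeight_le_sum x).trans (Finset.sum_le_sum fun i _ => ?_)
  have h1 : (![1, x i] : Fin 2 → Qbar) = ![x i, 1] ∘ ![1, 0] := by
    funext j
    fin_cases j <;> rfl
  rw [h1]
  exact absLogHeight_comp_le _ _

theorem ht_rat_pos (g : ℚ) (hg0 : g ≠ 0) (hg1 : g ≠ 1) (hg2 : g ≠ -1) : 0 < ht (g : Qbar) := by
  have h1 := ht_eq ℚ (algebraMap ℚ Qbar) g
  rw [Module.finrank_self, Nat.cast_one, div_one] at h1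
  have h2 : (algebraMap ℚ Qbar) g = (g : Qbar) := by simp
  rw [h2] at h1
  rw [h1, logHeight₁_eq_log_mulHeight₁, Rat.mulHeight₁_eq_max]
  refine Real.log_pos ?_
  have h3 : 1 < max g.num.natAbs g.den := by
    by_contra h
    push Not at h
    have h4 : g.den = 1 := le_antisymm ((le_max_right _ _).trans h) g.pos
    have h5 : g.num.natAbs ≤ 1 := (le_max_left _ _).trans h
    have h6 : (g.num : ℚ) = g := Rat.den_eq_one_iff g |>.1 h4
    have h7 : g.num ≠ 0 := Rat.num_ne_zero.2 hg0
    have h8 : g.num = 1 ∨ g.num = -1 := by omega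
    rcases h8 with h8 | h8
    · exact hg1 (by rw [← h6, h8]; norm_num)
    · exact hg2 (by rw [← h6, h8]; norm_num)
  exact_mod_cast h3

/-- a relation splits into relations with exponents which are close to each other -/
theorem split {N : ℕ} (c : Fin N → ℤ) (u : Fin N → Qbar) (hu : ∀ j, u j ≠ 0) (z : Fin N → Qbar)
    (hz : ∀ j, RU (z j)) (t : Qbar) (ht0 : t ≠ 0) (b : Fin N → ℤ)
    (h0 : ∑ j, (c j : Qbar) * (z j * u j * t ^ b j) = 0) (A : ℝ) (hA : 1 ≤ A)
    (hA' : ∑ j, (|c j| : ℝ) ≤ A) :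
    ∃ lam : Fin N → ℕ, (∀ l, ∑ j ∈ Finset.univ.filter (fun j => lam j = l),
        (c j : Qbar) * (z j * u j * t ^ b j) = 0) ∧
      ∀ i j, lam i = lam j → |(b i : ℝ) - b j| * ht t ≤ N * (Real.log A + absLogHeight u) := by
  classical
  obtain ⟨L, _, _, φ, hφ⟩ := exists_lift (Set.range z ∪ Set.range u ∪ {t})
    (((Set.finite_range z).union (Set.finite_range u)).union (Set.finite_singleton t))
  obtain ⟨t', ht'⟩ := hφ t (Or.inr rfl)
  choose z' hz' using fun i => hφ (z i) (Or.inl (Or.inl ⟨i, rfl⟩))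
  choose u' hu' using fun i => hφ (u i) (Or.inl (Or.inr ⟨i, rfl⟩))
  have ht'0 : t' ≠ 0 := by
    rintro rfl
    rw [map_zero] at ht'
    exact ht0 ht'.symm
  have hru : ∀ i, RU (z' i) := by
    intro i
    obtain ⟨k, hk, h⟩ := hz i
    refine ⟨k, hk, φ.injective ?_⟩
    rw [map_pow, hz', h, map_one]
  have hu'0 : ∀ i, u' i ≠ 0 := by
    intro i h
    apply hu i
    rw [← hu', h, map_zero]
  have hφf : ∀ F : Finset (Fin N), φ (∑ j ∈ F, (c j : L) * (z' j * u' j * t' ^ b j)) =
      ∑ j ∈ F, (c j : Qbar) * (z j * u j * t ^ b j) := by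
    intro F
    rw [map_sum]
    refine Finset.sum_congr rfl fun j _ => ?_
    rw [map_mul, map_mul, map_mul, map_intCast, map_zpow₀, ht', hz', hu']
  have hd0 : (0 : ℝ) < Module.finrank ℚ L := by exact_mod_cast Module.finrank_pos
  obtain ⟨η, hη⟩ : ∃ η : ℝ, η = ht t := ⟨_, rfl⟩
  have hη' : η * Module.finrank ℚ L = logHeight₁ t' := by
    rw [hη, ← ht', ht_eq]
    field_simp
  have hη0 : 0 ≤ η := by rw [hη]; exact ht_nonneg t
  have hu'' : logHeight (fun i : (Finset.univ : Finset (Fin N)) => u' i) ≤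
      Module.finrank ℚ L * absLogHeight u := by
    have h1 : u = fun i => φ (u' i) := funext fun i => (hu' i).symm
    rw [h1, absLogHeight_eq]
    rw [mul_div_cancel₀ _ hd0.ne']
    exact logHeight_comp_le (fun i : (Finset.univ : Finset (Fin N)) => (i : Fin N)) u'
  have hC0 : 0 ≤ Real.log A + absLogHeight u := add_nonneg (Real.log_nonneg hA)
    (absLogHeight_nonneg _)
  obtain ⟨lam, hlam1, hlam2⟩ := blocks (fun j => (c j : L) * (z' j * u' j * t' ^ b j)) b η
    (Real.log A + absLogHeight u) hη0 hC0 Finset.univ (by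
      intro F L' U hFS hF hd hF0 p q hL hU hpq hgap
      refine gap2 Finset.univ F L' U hFS hF hd c z' hru u' hu'0 t' ht'0 b hF0 p q hL hU hpq A hA
        ?_ ?_
      · exact (Finset.sum_le_sum_of_subset_of_nonneg hFS fun i _ _ => by positivity).trans hA'
      · rw [← hη']
        nlinarith) Finset.univ subset_rfl (by
      apply φ.injective
      rw [hφf, map_zero]
      exact h0)
  refine ⟨lam, fun l => ?_, fun i j h => ?_⟩
  · rw [← hφf, hlam1, map_zero]
  · have h1 := hlam2 i (Finset.mem_univ _) j (Finset.mem_univ _) h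
    rw [Finset.card_univ, Fintype.card_fin] at h1
    rw [← hη]
    exact_mod_cast h1

end Pool.Agent.R870.AP
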