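import Pool.Agent.R870.AP.Heights
import Pool.Agent.R870.AP.Count
import Pool.Agent.R870.RZ.Defs

/-!
# The smallest points of systems of Laurent polynomials
-/

set_option autoImplicit false

namespace Pool.Agent.R870.AP

open Pool.Agent.Helper259.AbsHt NumberField Height
open Pool.Agent.R870.RZ (Coeff system)

theorem torus_det {n : ℕ} (A : Finset (Fin n → ℤ)) (hA : A.Nonempty) (D : ℕ)
    (hD : ∀ α ∈ A, ∀ i, |α i| ≤ D) (c : A → ℤ) (Λ : ℝ)
    (hΛ : ∀ w : A → ℤ, w ≠ 0 → ∑ α, c α * w α = 0 → ∃ α, Λ < |w α|)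
    (x : Fin n → Qbar) (hx : ∀ i, x i ≠ 0)
    (h0 : ∑ α : A, (c α : Qbar) * ∏ i, x i ^ (α : Fin n → ℤ) i = 0) :
    Λ < (A.card : ℝ) ^ (2 * A.card) * Real.exp (2 * D * A.card * ∑ i, ht (x i)) := by
  classical
  have hy0 : (fun α : A => ∏ i, x i ^ (α : Fin n → ℤ) i) ≠ 0 := by
    obtain ⟨α, hα⟩ := hA
    intro h
    have h2 := congrFun h ⟨α, hα⟩
    exact Finset.prod_ne_zero_iff.2 (fun i _ => zpow_ne_zero _ (hx i)) h2
  obtain ⟨w, hw0, hwB, hw⟩ := descend (fun α : A => ∏ i, x i ^ (α : Fin n → ℤ) i) hy0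
  obtain ⟨α, hα⟩ := hΛ w hw0 (hw c h0)
  have hwα := hwB α
  rw [Fintype.card_coe, ← Int.cast_abs] at hwα
  refine hα.trans_le (hwα.trans ?_)
  refine mul_le_mul_of_nonneg_left (Real.exp_le_exp.2 ?_) (by positivity)
  have h1 := height_mon x hx A D hD
  calc (A.card : ℝ) * absLogHeight (fun α : A => ∏ i, x i ^ (α : Fin n → ℤ) i) ≤
      A.card * (2 * D * ∑ i, ht (x i)) := mul_le_mul_of_nonneg_left h1 (by positivity)
    _ = _ := by ring

theorem exists_emb (L : Type) [Field L] [NumberField L] : Nonempty (L →+* Qbar) := by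
  have halg : Algebra.IsAlgebraic ℚ L := Algebra.IsAlgebraic.of_finite ℚ L
  exact ⟨(IsAlgClosed.lift (R := ℚ) (M := Qbar) (S := L)).toRingHom⟩

/-- the value of the Laurent polynomial with the coefficients `c` at the point `x` -/
noncomputable def val {L : Type} [Field L] {n : ℕ} {A : Finset (Fin n → ℤ)} (c : A → ℤ)
    (x : Fin n → L) : L := ∑ α : A, (c α : L) * ∏ i, x i ^ (α : Fin n → ℤ) i

theorem map_val {L M : Type} [Field L] [Field M] {n : ℕ} {A : Finset (Fin n → ℤ)} (c : A → ℤ)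
    (x : Fin n → L) (φ : L →+* M) : φ (val c x) = val c (fun i => φ (x i)) := by
  rw [val, val, map_sum]
  refine Finset.sum_congr rfl fun α _ => ?_
  rw [map_mul, map_intCast, map_prod]
  congr 1
  exact Finset.prod_congr rfl fun i _ => map_zpow₀ _ _ _

/-- The canonical height of the point `x` of the torus: the sum of the absolute logarithmic heights
of its coordinates. -/
noncomputable def hG {L : Type} [Field L] [NumberField L] {n : ℕ} (x : Fin n → L) : ℝ :=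
  ∑ i, logHeight₁ (x i) / Module.finrank ℚ L

theorem hG_nonneg {L : Type} [Field L] [NumberField L] {n : ℕ} (x : Fin n → L) : 0 ≤ hG x :=
  Finset.sum_nonneg fun _ _ => div_nonneg (zero_le_logHeight₁ _) (Nat.cast_nonneg _)

theorem hG_eq {L : Type} [Field L] [NumberField L] {n : ℕ} (x : Fin n → L) (φ : L →+* Qbar) :
    ∑ i, ht (φ (x i)) = hG x := by
  rw [hG]
  exact Finset.sum_congr rfl fun i _ => ht_eq L φ (x i)

theorem hyper_det {n : ℕ} (A : Finset (Fin n → ℤ)) (hA : A.Nonempty) (D : ℕ)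
    (hD : ∀ α ∈ A, ∀ i, |α i| ≤ D) (c : A → ℤ) (Λ : ℝ)
    (hΛ : ∀ w : A → ℤ, w ≠ 0 → ∑ α, c α * w α = 0 → ∃ α, Λ < |w α|)
    (L : Type) [Field L] [NumberField L] (x : Fin n → L) (hx : ∀ i, x i ≠ 0)
    (h0 : val c x = 0) :
    Λ < (A.card : ℝ) ^ (2 * A.card) * Real.exp (2 * D * A.card * hG x) := by
  obtain ⟨φ⟩ := exists_emb L
  have h1 : val c (fun i => φ (x i)) = 0 := by rw [← map_val, h0, map_zero]
  have h2 := torus_det A hA D hD c Λ hΛ (fun i => φ (x i)) (fun i => by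
    rw [ne_eq, map_eq_zero]; exact hx i) h1
  rw [hG_eq] at h2
  exact h2

theorem stat {n k : ℕ} (A : Fin k → Finset (Fin n → ℤ)) (hA : ∀ j, (A j).Nonempty) :
    ∃ C κ : ℕ, ∀ (H : ℕ) (B : ℝ), 0 ≤ B → ∃ E : Finset (Coeff A → ℤ),
      (E.card : ℝ) * (2 * H + 1) ^ k ≤ C * Real.exp (κ * B) * (2 * H + 1) ^ ∑ j, (A j).card ∧
      ∀ c : Coeff A → ℤ, (∀ i, |c i| ≤ H) → c ∉ E →
        ∀ (L : Type) [Field L] [NumberField L] (x : Fin n → L), (∀ i, x i ≠ 0) →
          (∀ j, val (fun α => c ⟨j, α⟩) x = 0) → B < hG x := by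
  classical
  obtain ⟨C, κ, hC⟩ := exists_E (fun j : Fin k => {α // α ∈ A j})
  obtain ⟨D, hD⟩ : ∃ D : ℕ, ∀ j, ∀ α ∈ A j, ∀ i, |α i| ≤ D := by
    refine ⟨∑ j, ∑ α ∈ A j, ∑ i, (α i).natAbs, fun j α hα i => ?_⟩
    have h1 : (α i).natAbs ≤ ∑ i, (α i).natAbs :=
      Finset.single_le_sum (f := fun i => (α i).natAbs) (fun _ _ => Nat.zero_le _)
        (Finset.mem_univ i)
    have h2 : ∑ i, (α i).natAbs ≤ ∑ α ∈ A j, ∑ i, (α i).natAbs :=
      Finset.single_le_sum (f := fun α : Fin n → ℤ => ∑ i, (α i).natAbs)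
        (fun _ _ => Nat.zero_le _) hα
    have h3 : ∑ α ∈ A j, ∑ i, (α i).natAbs ≤ ∑ j, ∑ α ∈ A j, ∑ i, (α i).natAbs :=
      Finset.single_le_sum (f := fun j => ∑ α ∈ A j, ∑ i, (α i).natAbs)
        (fun _ _ => Nat.zero_le _) (Finset.mem_univ j)
    rw [Int.abs_eq_natAbs]
    exact_mod_cast h1.trans (h2.trans h3)
  refine ⟨C, κ * (2 * D), fun H B hB => ?_⟩
  obtain ⟨E, hE, hE'⟩ := hC H (2 * D * B) (by positivity)
  refine ⟨E, ?_, ?_⟩
  · have hN : Fintype.card ((j : Fin k) × {α // α ∈ A j}) = ∑ j, (A j).card := by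
      rw [Fintype.card_sigma]
      exact Finset.sum_congr rfl fun j _ => Fintype.card_coe _
    rw [hN] at hE
    refine hE.trans (le_of_eq ?_)
    push_cast
    ring_nf
  · intro c hc hcE L _ _ x hx h0
    by_contra hB'
    push Not at hB'
    apply hcE
    obtain ⟨φ⟩ := exists_emb L
    have hx' : ∀ i, φ (x i) ≠ 0 := fun i => by rw [ne_eq, map_eq_zero]; exact hx i
    refine hE' c hc ⟨fun j α => ∏ i, (φ (x i)) ^ (α : Fin n → ℤ) i, fun j => ⟨?_, ?_, ?_⟩⟩
    · obtain ⟨α, hα⟩ := hA j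
      intro h
      have h2 := congrFun h ⟨α, hα⟩
      exact Finset.prod_ne_zero_iff.2 (fun i _ => zpow_ne_zero _ (hx' i)) h2
    · refine (height_mon _ hx' (A j) D (hD j)).trans ?_
      rw [hG_eq]
      exact mul_le_mul_of_nonneg_left hB' (by positivity)
    · have h1 := congrArg φ (h0 j)
      rw [map_val, map_zero] at h1
      exact h1

end Pool.Agent.R870.AP
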